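import Pool.Agent.Lib.MP_9fe581_an.HT.Defs
import Pool.Agent.Lib.MP_9fe581_an.FT.Dens
import Pool.Agent.Lib.MP_9fe581_an.FT.Fin

/-!
# HT / Char: characters
-/

open Finset MeasureTheory Filter Topology
open scoped ComplexConjugate Matrix

namespace Pool.Agent.Lib.MP_9fe581_an.HT

section Tower

variable {κ : Type} [Fintype κ] [DecidableEq κ]

theorem ch_cont (m : κ →₀ ℤ) : Continuous (ch m) := FT.continuous_ec.comp (FT.continuous_pr m)

theorem ch_norm (m : κ →₀ ℤ) (x : TX κ) : ‖ch m x‖ = 1 := FT.norm_ec _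

theorem ch_zero (x : TX κ) : ch (0 : κ →₀ ℤ) x = 1 := by
  unfold ch
  rw [FT.pr_zero, FT.ec_zero]

theorem ch_add (m m' : κ →₀ ℤ) (x : TX κ) : ch (m + m') x = ch m x * ch m' x := by
  unfold ch
  rw [FT.pr_add, FT.ec_add]

theorem ch_neg (m : κ →₀ ℤ) (x : TX κ) : ch (-m) x = conj (ch m x) := by
  unfold ch
  rw [FT.pr_neg, FT.ec_neg]

theorem ch_add_right (m : κ →₀ ℤ) (x y : TX κ) : ch m (x + y) = ch m x * ch m y := by
  unfold ch
  rw [FT.pr_add_right, FT.ec_add]

theorem ch_int (m : κ →₀ ℤ) : ∫ x, ch m x ∂mX κ = if m = 0 then 1 else 0 := by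
  split_ifs with h
  · subst h
    simp only [ch_zero]
    simp
  · exact FT.haar_char (mX κ) m h

/-- uniform approximation by trigonometric polynomials (`FT.dens_span`, `FT.chX`) -/
theorem ch_dense (f : TX κ → ℂ) (hf : Continuous f) (ε : ℝ) (hε : 0 < ε) :
    ∃ (S : Finset (κ →₀ ℤ)) (c : (κ →₀ ℤ) → ℂ), (∀ m, m ∉ S → c m = 0) ∧ ∀ x, ‖f x - ∑ m ∈ S, c m * ch m x‖ ≤ ε := by
  classical
  obtain ⟨p, hp, hpe⟩ := FT.dens_span (FT.chX κ) (FT.chX_star κ) (FT.chX_sep κ) ⟨f, hf⟩ ε hε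
  have key : ∃ (S : Finset (κ →₀ ℤ)) (c : (κ →₀ ℤ) → ℂ), (∀ m, m ∉ S → c m = 0) ∧
      ∀ x, p x = ∑ m ∈ S, c m * ch m x := by
    clear hpe
    induction hp using Submodule.span_induction with
    | mem g hg =>
      obtain ⟨m, hm⟩ := hg
      refine ⟨{m}, fun k => if k = m then 1 else 0, fun k hk => ?_, fun x => ?_⟩
      · rw [mem_singleton] at hk
        simp [hk]
      · rw [hm x]
        simp [ch]
    | zero => exact ⟨∅, fun _ => 0, fun _ _ => rfl, fun x => by simp⟩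
    | add g h _ _ hg hh =>
      obtain ⟨S, c, h1, h2⟩ := hg
      obtain ⟨S', c', h1', h2'⟩ := hh
      refine ⟨S ∪ S', fun m => c m + c' m, fun m hm => ?_, fun x => ?_⟩
      · rw [mem_union, not_or] at hm
        simp only
        rw [h1 m hm.1, h1' m hm.2, add_zero]
      · have e1 : ∑ m ∈ S ∪ S', c m * ch m x = ∑ m ∈ S, c m * ch m x :=
          (sum_subset subset_union_left fun m _ hm => by rw [h1 m hm, zero_mul]).symm
        have e2 : ∑ m ∈ S ∪ S', c' m * ch m x = ∑ m ∈ S', c' m * ch m x :=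
          (sum_subset subset_union_right fun m _ hm => by rw [h1' m hm, zero_mul]).symm
        rw [ContinuousMap.add_apply, h2, h2', ← e1, ← e2, ← sum_add_distrib]
        exact sum_congr rfl fun m _ => by ring
    | smul a g _ hg =>
      obtain ⟨S, c, h1, h2⟩ := hg
      refine ⟨S, fun m => a * c m, fun m hm => by simp only; rw [h1 m hm, mul_zero], fun x => ?_⟩
      rw [ContinuousMap.smul_apply, h2, smul_eq_mul, mul_sum]
      exact sum_congr rfl fun m _ => by ring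
  obtain ⟨S, c, h1, h2⟩ := key
  refine ⟨S, c, h1, fun x => ?_⟩
  rw [← h2 x]
  exact ((ContinuousMap.norm_coe_le_norm ((⟨f, hf⟩ : C(TX κ, ℂ)) - p) x).trans hpe.le)

/-- measures on `TX κ` are determined by the characters (`FT.meas_ext`, `FT.chX`) -/
theorem ch_ext (P P' : Measure (TX κ)) [IsFiniteMeasure P] [IsFiniteMeasure P'] (h : ∀ m : κ →₀ ℤ, ∫ x, ch m x ∂P = ∫ x, ch m x ∂P') :
    P = P' := by
  refine FT.meas_ext (FT.chX κ) (FT.chX_star κ) (FT.chX_sep κ) P P' ?_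
  rintro f ⟨m, hm⟩
  have e : (fun x => f x) = fun x => ch m x := funext fun x => hm x
  rw [e]
  exact h m

end Tower

end Pool.Agent.Lib.MP_9fe581_an.HT
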