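import Pool.Agent.Lib.MP_9fe581_an.HT.Defs
import Pool.Agent.Lib.MP_9fe581_an.FT.Emp

/-!
# HT, module A5: the maximizing invariant measure
-/

open Finset MeasureTheory Filter Topology
open scoped ComplexConjugate Matrix

namespace Pool.Agent.Lib.MP_9fe581_an.HT

section

variable {Z : Type} [TopologicalSpace Z] [CompactSpace Z] [TopologicalSpace.MetrizableSpace Z] [MeasurableSpace Z]
    [BorelSpace Z]

/-- a limit point of empirical measures along orbits of growing length is an invariant measure -/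
private theorem A5_limit (S : Z → Z) (hS : Continuous S) (Φ : Z → ℝ) (hΦ : Continuous Φ) (z : ℕ → Z)
    (N : ℕ → ℕ) (hN : ∀ k, k ≤ N k) :
    ∃ ρ : Measure Z, IsProbabilityMeasure ρ ∧ MeasurePreserving S ρ ρ ∧
      ∀ a : ℝ, (∀ᶠ k in atTop, a ≤ ∫ y, Φ y ∂(FT.emp S (z k) (N k))) → a ≤ ∫ y, Φ y ∂ρ := by
  let _ : MetricSpace Z := TopologicalSpace.metrizableSpaceMetric Z
  set μ : ℕ → ProbabilityMeasure Z := fun k => ⟨FT.emp S (z k) (N k), FT.emp_prob S (z k) (N k)⟩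
    with hμ
  obtain ⟨U, hU⟩ : ∃ U : Ultrafilter ℕ, (U : Filter ℕ) ≤ atTop := ⟨Ultrafilter.of atTop, Ultrafilter.of_le _⟩
  obtain ⟨ρ, -, hρ⟩ := isCompact_univ.ultrafilter_le_nhds (U.map μ) (by simp)
  have hρt : Tendsto μ (U : Filter ℕ) (𝓝 ρ) := hρ
  have hR := ProbabilityMeasure.tendsto_iff_forall_integral_tendsto.mp hρt
  refine ⟨(ρ : Measure Z), inferInstance, ?_, ?_⟩
  · refine ⟨hS.measurable, ?_⟩
    have hfm : IsFiniteMeasure (Measure.map S (ρ : Measure Z)) := Measure.isFiniteMeasure_map _ _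
    refine ext_of_forall_integral_eq_of_IsFiniteMeasure fun g => ?_
    rw [integral_map hS.measurable.aemeasurable g.continuous.measurable.aestronglyMeasurable]
    set gS : BoundedContinuousFunction Z ℝ := g.compContinuous ⟨S, hS⟩ with hgS
    have t1 : Tendsto (fun k => ∫ y, gS y ∂(μ k : Measure Z)) (U : Filter ℕ)
      (𝓝 (∫ y, gS y ∂(ρ : Measure Z))) := hR gS
    have t2 : Tendsto (fun k => ∫ y, g y ∂(μ k : Measure Z)) (U : Filter ℕ)
      (𝓝 (∫ y, g y ∂(ρ : Measure Z))) := hR g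
    have t3 : Tendsto (fun k => ∫ y, gS y ∂(μ k : Measure Z) - ∫ y, g y ∂(μ k : Measure Z)) atTop
        (𝓝 0) := by
      rw [tendsto_zero_iff_norm_tendsto_zero]
      have hb : Tendsto (fun k : ℕ => 2 * ‖g‖ * (1 / ((k : ℝ) + 1))) atTop (𝓝 (2 * ‖g‖ * 0)) :=
        tendsto_one_div_add_atTop_nhds_zero_nat.const_mul _
      rw [mul_zero] at hb
      refine squeeze_zero (fun k => norm_nonneg _) (fun k => ?_) hb
      have e1 : ∫ y, gS y ∂(μ k : Measure Z) =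
          (((N k + 1 : ℕ) : ℝ))⁻¹ • ∑ n ∈ range (N k + 1), g (S (S^[n + 1] (z k))) :=
        FT.emp_int S (z k) (N k) gS gS.continuous
      have e2 : ∫ y, g y ∂(μ k : Measure Z) =
          (((N k + 1 : ℕ) : ℝ))⁻¹ • ∑ n ∈ range (N k + 1), g (S^[n + 1] (z k)) :=
        FT.emp_int S (z k) (N k) g g.continuous
      have e3 : ∑ n ∈ range (N k + 1), g (S (S^[n + 1] (z k))) -
          ∑ n ∈ range (N k + 1), g (S^[n + 1] (z k)) =
          g (S^[N k + 2] (z k)) - g (S^[1] (z k)) := by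
        rw [← Finset.sum_sub_distrib]
        have h2 := Finset.sum_range_sub (fun n => g (S^[n + 1] (z k))) (N k + 1)
        rw [← h2]
        refine Finset.sum_congr rfl fun n _ => ?_
        rw [← Function.iterate_succ_apply' S (n + 1) (z k)]
      rw [e1, e2, ← smul_sub, e3, norm_smul, Real.norm_of_nonneg (by positivity)]
      have e4 : ‖g (S^[N k + 2] (z k)) - g (S^[1] (z k))‖ ≤ 2 * ‖g‖ := by
        refine (norm_sub_le _ _).trans ?_
        linarith [g.norm_coe_le_norm (S^[N k + 2] (z k)), g.norm_coe_le_norm (S^[1] (z k))]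
      have e5 : (((N k + 1 : ℕ) : ℝ))⁻¹ ≤ 1 / ((k : ℝ) + 1) := by
        rw [one_div]
        apply inv_anti₀ (by positivity)
        have h3 : (k : ℝ) ≤ N k := by exact_mod_cast hN k
        push_cast
        linarith
      calc (((N k + 1 : ℕ) : ℝ))⁻¹ * ‖g (S^[N k + 2] (z k)) - g (S^[1] (z k))‖
          ≤ (1 / ((k : ℝ) + 1)) * (2 * ‖g‖) := by gcongr
        _ = 2 * ‖g‖ * (1 / ((k : ℝ) + 1)) := by ring
    have t4 := t1.sub t2
    have t5 := tendsto_nhds_unique t4 (t3.mono_left hU)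
    have t6 : ∫ y, gS y ∂(ρ : Measure Z) = ∫ y, g y ∂(ρ : Measure Z) := by linarith
    exact t6
  · intro a ha
    set fb : BoundedContinuousFunction Z ℝ := BoundedContinuousFunction.mkOfCompact ⟨Φ, hΦ⟩ with hfb
    have t7 : Tendsto (fun k => ∫ y, Φ y ∂(μ k : Measure Z)) (U : Filter ℕ)
      (𝓝 (∫ y, Φ y ∂(ρ : Measure Z))) := hR fb
    exact ge_of_tendsto t7 (ha.filter_mono hU)

private theorem A5_avg (S : Z → Z) (Φ : Z → ℝ) (hΦ : Continuous Φ) (z : Z) (N : ℕ) :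
    ∫ y, Φ y ∂(FT.emp S z N) =
      (1 / ((N + 1 : ℕ) : ℝ)) * ∑ m ∈ Icc 1 (N + 1), Φ (S^[m] z) := by
  rw [FT.emp_int S z N Φ hΦ, smul_eq_mul, one_div]
  congr 1
  rw [Finset.range_eq_Ico, Finset.sum_Ico_add' (fun n => Φ (S^[n] z)) 0 (N + 1) 1]
  rfl

theorem max_meas [Nonempty Z] (S : Z → Z) (hS : Continuous S) (Φ : Z → ℝ) (hΦ : Continuous Φ) :
    ∃ ρ : Measure Z, IsProbabilityMeasure ρ ∧ MeasurePreserving S ρ ρ ∧
      ∀ ε : ℝ, 0 < ε → ∃ M0 : ℕ, ∀ M ≥ M0, ∀ z : Z, (1 / (M : ℝ)) * ∑ m ∈ Icc 1 M, Φ (S^[m] z) ≤ ∫ y, Φ y ∂ρ + ε := by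
  classical
  obtain ⟨C, hC⟩ : ∃ C, ∀ y, |Φ y| ≤ C := by
    obtain ⟨C, hC⟩ := (isCompact_range hΦ.abs).bddAbove
    exact ⟨C, fun y => hC ⟨y, rfl⟩⟩
  obtain ⟨z₀⟩ : Nonempty Z := inferInstance
  have hC0 : 0 ≤ C := (abs_nonneg _).trans (hC z₀)
  obtain ⟨av, hav⟩ : ∃ av : ℕ → Z → ℝ, av = fun (M : ℕ) (z : Z) => (1 / (M : ℝ)) * ∑ m ∈ Icc 1 M, Φ (S^[m] z) :=
    ⟨_, rfl⟩
  have hb : ∀ M z, |av M z| ≤ C := by
    intro M z
    rw [hav]
    simp only
    rcases Nat.eq_zero_or_pos M with hM | hM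
    · subst hM
      simpa using hC0
    have hM' : (0 : ℝ) < M := by exact_mod_cast hM
    rw [abs_mul, abs_of_nonneg (by positivity)]
    have h1 : |∑ m ∈ Icc 1 M, Φ (S^[m] z)| ≤ M * C := by
      refine (Finset.abs_sum_le_sum_abs _ _).trans ((Finset.sum_le_sum fun m _ => hC _).trans ?_)
      simp
    calc 1 / (M : ℝ) * |∑ m ∈ Icc 1 M, Φ (S^[m] z)| ≤ 1 / (M : ℝ) * (M * C) := by gcongr
      _ = C := by field_simp
  obtain ⟨V, hV⟩ : ∃ V : Set ℝ, V = {t | ∃ M0 : ℕ, ∀ M ≥ M0, ∀ z, av M z ≤ t} := ⟨_, rfl⟩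
  have hVne : V.Nonempty := by
    refine ⟨C, ?_⟩
    rw [hV]
    exact ⟨0, fun M _ z => (abs_le.1 (hb M z)).2⟩
  have hVbd : BddBelow V := by
    refine ⟨-C, ?_⟩
    rintro t ht
    rw [hV] at ht
    obtain ⟨M0, h0⟩ := ht
    exact (abs_le.1 (hb M0 z₀)).1.trans (h0 M0 le_rfl z₀)
  obtain ⟨c, hc⟩ : ∃ c : ℝ, c = sInf V := ⟨_, rfl⟩
  have hlow : ∀ k : ℕ, ∃ (N : ℕ) (z : Z), k ≤ N ∧ c - 1 / ((k : ℝ) + 1) < av (N + 1) z := by
    intro k
    by_contra! hcon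
    have h1 : c - 1 / ((k : ℝ) + 1) ∈ V := by
      rw [hV]
      refine ⟨k + 1, fun M hM z => ?_⟩
      obtain ⟨N, rfl⟩ : ∃ N, M = N + 1 := ⟨M - 1, by omega⟩
      exact hcon N z (by omega)
    have h2 := csInf_le hVbd h1
    rw [← hc] at h2
    have h3 : 0 < 1 / ((k : ℝ) + 1) := by positivity
    linarith
  choose N z hN hz using hlow
  obtain ⟨ρ, hρ1, hρ2, hρ3⟩ := A5_limit S hS Φ hΦ z N hN
  have hcρ : c ≤ ∫ y, Φ y ∂ρ := by
    refine le_of_forall_sub_le fun δ hδ => ?_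
    apply hρ3
    obtain ⟨k₀, hk₀⟩ := exists_nat_one_div_lt hδ
    filter_upwards [eventually_ge_atTop k₀] with k hk
    have h1 : 1 / ((k : ℝ) + 1) ≤ 1 / ((k₀ : ℝ) + 1) := by
      apply one_div_le_one_div_of_le (by positivity)
      have h2 : (k₀ : ℝ) ≤ k := by exact_mod_cast hk
      linarith
    have h3 := hz k
    rw [A5_avg S Φ hΦ (z k) (N k)]
    rw [hav] at h3
    simp only at h3
    linarith
  refine ⟨ρ, hρ1, hρ2, fun ε hε => ?_⟩
  obtain ⟨t, ht, htc⟩ := exists_lt_of_csInf_lt hVne (show sInf V < c + ε by rw [← hc]; linarith)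
  rw [hV] at ht
  obtain ⟨M0, h0⟩ := ht
  refine ⟨M0, fun M hM z => ?_⟩
  have h1 := h0 M hM z
  rw [hav] at h1
  simp only at h1
  linarith

end

end Pool.Agent.Lib.MP_9fe581_an.HT
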