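import Pool.Agent.Lib.MP_9fe581_an.HD.GDefs
import Pool.Agent.Lib.MP_9fe581_an.FT.Def

/-!
# HT: skew products over Furstenberg towers with arbitrary continuous cocycles, definitions

General base `(X, T)`: unitary cocycles `A : X → Matrix` (unitary on the range of the projection `Q`),
`cp T A Q n x = A (T^(n-1) x) ... A (T x) A x`, `trc` its trace, `aa` the integral of the trace,
`ee σ n = ∫ tr A_n(z) conj tr A_n(z') dσ(z, z')` for a measure `σ` on `X × X`.
`Good T μ`: what the method needs from the base.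
-/

open Finset MeasureTheory Filter Topology
open scoped ComplexConjugate Matrix

namespace Pool.Agent.Lib.MP_9fe581_an.HT

variable {X : Type} {ι : Type} [Fintype ι] [DecidableEq ι]

/-- a continuous cocycle, unitary on the range of the orthogonal projection `Q` -/
structure UC [TopologicalSpace X] (A : X → Matrix ι ι ℂ) (Q : Matrix ι ι ℂ) : Prop where
  cont : Continuous A
  QH : Qᴴ = Q
  QQ : Q * Q = Q
  QA : ∀ x, Q * A x = A x
  AQ : ∀ x, A x * Q = A x
  AAH : ∀ x, A x * (A x)ᴴ = Q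
  AHA : ∀ x, (A x)ᴴ * A x = Q

/-- the cocycle products -/
noncomputable def cp (T : X → X) (A : X → Matrix ι ι ℂ) (Q : Matrix ι ι ℂ) : ℕ → X → Matrix ι ι ℂ
  | 0, _ => Q
  | n + 1, x => A (T^[n] x) * cp T A Q n x

/-- the traces of the cocycle products -/
noncomputable def trc (T : X → X) (A : X → Matrix ι ι ℂ) (Q : Matrix ι ι ℂ) (n : ℕ) (x : X) : ℂ :=
  (cp T A Q n x).trace

/-- the integrated traces -/
noncomputable def aa [MeasurableSpace X] (μ : Measure X) (T : X → X) (A : X → Matrix ι ι ℂ) (Q : Matrix ι ι ℂ)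
    (n : ℕ) : ℂ := ∫ x, trc T A Q n x ∂μ

/-- `∫ tr A_n(z) conj tr A_n(z') dσ(z, z')` -/
noncomputable def ee [MeasurableSpace X] (σ : Measure (X × X)) (T : X → X) (A : X → Matrix ι ι ℂ)
    (Q : Matrix ι ι ℂ) (n : ℕ) : ℂ := ∫ z, trc T A Q n z.1 * conj (trc T A Q n z.2) ∂σ

/-- entries of `(1/L) ∑_{l < L} A_{pl}(u) ⊗ conj A_{ql}(v)` -/
noncomputable def Wt (T : X → X) (A : X → Matrix ι ι ℂ) (Q : Matrix ι ι ℂ) (p q L : ℕ) (u v : X)
    (a b c f : ι) : ℂ :=
  (1 / (L : ℂ)) * ∑ l ∈ range L, cp T A Q (p * l) u a b * conj (cp T A Q (q * l) v c f)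

/-- Hilbert - Schmidt norm squared of `(1/L) ∑_{l < L} A_{pl}(u) ⊗ conj A_{ql}(v)` -/
noncomputable def Phi (T : X → X) (A : X → Matrix ι ι ℂ) (Q : Matrix ι ι ℂ) (p q L : ℕ) (u v : X) : ℝ :=
  ∑ a, ∑ b, ∑ c, ∑ f, ‖Wt T A Q p q L u v a b c f‖ ^ 2

/-- what the method needs from the base `(X, T, μ)`: `T × T` invariant measures `σ s q` that tend to `σi s` (`q → ∞`), and the
sieve inequality for arbitrary `T^p × T^q` invariant measures `ρ p q` -/
structure Good [TopologicalSpace X] [MeasurableSpace X] (T : X → X) (μ : Measure X) where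
  h : ℕ
  σ : Fin h → ℕ → Measure (X × X)
  σi : Fin h → Measure (X × X)
  cont : Continuous T
  pres : MeasurePreserving T μ μ
  prob : IsProbabilityMeasure μ
  probσ : ∀ s q, 0 < q → IsProbabilityMeasure (σ s q)
  probi : ∀ s, IsProbabilityMeasure (σi s)
  invσ : ∀ s q, 0 < q → MeasurePreserving (Prod.map T T) (σ s q) (σ s q)
  invi : ∀ s, MeasurePreserving (Prod.map T T) (σi s) (σi s)
  lim : ∀ s (F : X × X → ℂ), Continuous F → Tendsto (fun q => ∫ z, F z ∂σ s q) atTop (𝓝 (∫ z, F z ∂σi s))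
  pos : ∀ s q, 0 < q → ∀ f : X → ℂ, Continuous f →
    0 ≤ (∫ z, f z.1 * conj (f z.2) ∂σ s q - ∫ z, f z.1 * conj (f z.2) ∂σi s).re
  sieve : ∀ (P : Finset ℕ), (∀ p ∈ P, p.Prime) → ∀ (f : ℕ → X → ℂ) (B : ℝ), (∀ p ∈ P, Continuous (f p)) →
    (∀ p ∈ P, ∀ x, ‖f p x‖ ≤ B) → ∀ ρ : ℕ → ℕ → Measure (X × X),
    (∀ p ∈ P, ∀ q ∈ P, IsProbabilityMeasure (ρ p q) ∧ MeasurePreserving (Prod.map T^[p] T^[q]) (ρ p q) (ρ p q)) →
    ‖∑ p ∈ P, ∑ q ∈ P, ∫ z, f p z.1 * conj (f q z.2) ∂ρ p q‖ ≤ ‖∑ p ∈ P, ∫ x, f p x ∂μ‖ ^ 2 + P.card * B ^ 2 +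
      ∑ p ∈ P, ∑ q ∈ P, ∑ s, (∫ z, f p z.1 * conj (f p z.2) ∂σ s q - ∫ z, f p z.1 * conj (f p z.2) ∂σi s).re

/-- `Δ_j(n) = (1/K_j) ∑_{q ∈ Q_j} ∑_s (E_{σ s q}(n) - E_{σi s}(n))` -/
noncomputable def Dl [TopologicalSpace X] [MeasurableSpace X] {T : X → X} {μ : Measure X} (g : Good T μ)
    (A : X → Matrix ι ι ℂ) (Q : Matrix ι ι ℂ) (j n : ℕ) : ℝ :=
  (1 / ((HD.Qb j).card : ℝ)) * ∑ q ∈ HD.Qb j, ∑ s, (ee (g.σ s q) T A Q n - ee (g.σi s) T A Q n).re

/-! ### group extensions -/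

variable {G : Type} [Group G]

/-- the skew product -/
def skew (T : X → X) (φ : X → G) (z : X × G) : X × G := (T z.1, φ z.1 * z.2)

/-- the products of the cocycle -/
def pr (T : X → X) (φ : X → G) : ℕ → X → G
  | 0, _ => 1
  | n + 1, x => φ (T^[n] x) * pr T φ n x

/-- the cocycle of `χ x * ((1 - fixP) * π y) i j`, `χ` unimodular -/
noncomputable def AG [MeasurableSpace G] (μ : Measure G) (π : G → Matrix ι ι ℂ) (T : X → X) (χ : X → ℂ)
    (φ : X → G) (x : X) : Matrix ι ι ℂ :=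
  (χ (T x) * conj (χ x)) • ((1 - HD.fixP μ π) * π (φ x))

/-! ### towers over finitely many coordinates -/

/-- the torus of the coordinates -/
abbrev TX (κ : Type) := κ → UnitAddCircle

/-- its Haar probability measure -/
noncomputable def mX (κ : Type) [Fintype κ] : Measure (TX κ) := Measure.pi fun _ => AddCircle.haarAddCircle

instance (κ : Type) [Fintype κ] : IsProbabilityMeasure (mX κ) := by unfold mX; infer_instance
instance (κ : Type) [Fintype κ] : (mX κ).IsAddHaarMeasure := by unfold mX; infer_instance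

/-- the character of the vector `m` -/
noncomputable def ch {κ : Type} (m : κ →₀ ℤ) (x : TX κ) : ℂ := FT.ec (FT.pr m x)

/-- `z'` of the law of `(z, z')`: `z` below the level `s`, `z + u` on the level `s`, `w` above -/
def mix {κ : Type} (lev : κ → ℕ) (s : ℕ) (u z w : TX κ) : TX κ :=
  fun i => if lev i < s then z i else if lev i = s then z i + u i else w i

/-- the law of `(z, mix s u z w)`, `z`, `w` independent and Haar distributed -/
noncomputable def su {κ : Type} [Fintype κ] (lev : κ → ℕ) (s : ℕ) (u : TX κ) : Measure (TX κ × TX κ) :=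
  Measure.map (fun y : TX κ × TX κ => (y.1, mix lev s u y.1 y.2)) ((mX κ).prod (mX κ))

/-- the point `i / q` -/
noncomputable def ptq {κ : Type} (q : ℕ) (i : κ → Fin q) : TX κ := fun k => (((i k : ℕ) : ℝ) / (q : ℝ) : ℝ)

/-- the average of `su u` over the `q`-torsion points `u` -/
noncomputable def sq {κ : Type} [Fintype κ] [DecidableEq κ] (lev : κ → ℕ) (s q : ℕ) : Measure (TX κ × TX κ) :=
  ((q : ENNReal) ^ Fintype.card κ)⁻¹ • ∑ i : κ → Fin q, su lev s (ptq q i)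

/-- the average of `su u` over all `u` -/
noncomputable def si {κ : Type} [Fintype κ] (lev : κ → ℕ) (s : ℕ) : Measure (TX κ × TX κ) :=
  Measure.map (fun y : TX κ × TX κ × TX κ => (y.1, mix lev s y.2.1 y.1 y.2.2)) ((mX κ).prod ((mX κ).prod (mX κ)))

end Pool.Agent.Lib.MP_9fe581_an.HT
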