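import Pool.Agent.Lib.MP_9fe581_an.HT.CBasic

/-!
# HT, module A4: monotonicity and expansion of the averages of the doubled cocycle, positive definiteness
-/

set_option linter.unusedSectionVars false
set_option linter.unusedVariables false
set_option linter.style.haveILetI false

open Finset MeasureTheory Filter Topology
open scoped ComplexConjugate Matrix

namespace Pool.Agent.Lib.MP_9fe581_an.HT

variable {X : Type} {ι : Type} [Fintype ι] [DecidableEq ι] {T : X → X} {A : X → Matrix ι ι ℂ} {Q : Matrix ι ι ℂ}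

/-- `tr (A_l(u) A_{l'}(u)^*)` -/
private noncomputable def n2X (T : X → X) (A : X → Matrix ι ι ℂ) (Q : Matrix ι ι ℂ) (l l' : ℕ) (u : X) : ℂ :=
  (cp T A Q l u * (cp T A Q l' u)ᴴ).trace

omit [DecidableEq ι] in
private theorem n2X_eq (l l' : ℕ) (u : X) :
    n2X T A Q l l' u = ∑ a, ∑ b, cp T A Q l u a b * conj (cp T A Q l' u a b) := by
  simp [n2X, Matrix.trace, Matrix.mul_apply, Matrix.conjTranspose_apply]

omit [DecidableEq ι] in
private theorem n2_gen (z : ℕ → ℂ) (e : ℕ → ℕ) (M : ℕ) (v u : X) :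
    ((∑ a, ∑ b, ∑ c, ∑ f, ‖∑ m ∈ range M, z m * (cp T A Q (e m) v a b * conj (cp T A Q (e m) u c f))‖ ^ 2 : ℝ) : ℂ) =
      ∑ m ∈ range M, ∑ m' ∈ range M, z m * conj (z m') *
        (n2X T A Q (e m) (e m') v * conj (n2X T A Q (e m) (e m') u)) := by
  have h1 : ∀ a b c f : ι, ((‖∑ m ∈ range M, z m * (cp T A Q (e m) v a b * conj (cp T A Q (e m) u c f))‖ : ℂ) ^ 2) =
      ∑ m ∈ range M, ∑ m' ∈ range M, z m * conj (z m') *
        ((cp T A Q (e m) v a b * conj (cp T A Q (e m') v a b)) *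
          (conj (cp T A Q (e m) u c f) * cp T A Q (e m') u c f)) := by
    intro a b c f
    rw [← Complex.mul_conj', map_sum, Finset.sum_mul_sum]
    refine Finset.sum_congr rfl fun m _ => Finset.sum_congr rfl fun m' _ => ?_
    rw [map_mul, map_mul, Complex.conj_conj]; ring
  push_cast
  simp_rw [h1]
  have h4 : ∀ g : ι → ι → ι → ι → ℕ → ℕ → ℂ, (∑ a, ∑ b, ∑ c, ∑ f, ∑ l ∈ range M, ∑ l' ∈ range M, g a b c f l l') =
      ∑ l ∈ range M, ∑ l' ∈ range M, ∑ a, ∑ b, ∑ c, ∑ f, g a b c f l l' := by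
    intro g
    have h5 : ∀ h : ι → ι → ι → ι → ℂ, (∑ a, ∑ b, ∑ c, ∑ f, h a b c f) =
        ∑ x : ι × ι × ι × ι, h x.1 x.2.1 x.2.2.1 x.2.2.2 := by
      intro h; simp [Fintype.sum_prod_type]
    simp_rw [h5]
    rw [Finset.sum_comm]
    exact Finset.sum_congr rfl fun l _ => Finset.sum_comm
  rw [h4]
  refine Finset.sum_congr rfl fun l _ => Finset.sum_congr rfl fun l' _ => ?_
  simp_rw [n2X_eq, map_sum, map_mul, Complex.conj_conj, Finset.sum_mul, Finset.mul_sum]

omit [DecidableEq ι] in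
private theorem n2_phi (L : ℕ) (v u : X) :
    ((Phi T A Q 1 1 L v u : ℝ) : ℂ) =
      (1 / (L : ℂ) ^ 2) * ∑ l ∈ range L, ∑ l' ∈ range L, n2X T A Q l l' v * conj (n2X T A Q l l' u) := by
  have h := n2_gen (T := T) (A := A) (Q := Q) (fun _ => 1 / (L : ℂ)) (fun m => m) L v u
  have h1 : Phi T A Q 1 1 L v u = ∑ a, ∑ b, ∑ c, ∑ f,
      ‖∑ m ∈ range L, (1 / (L : ℂ)) * (cp T A Q m v a b * conj (cp T A Q m u c f))‖ ^ 2 := by
    unfold Phi Wt
    simp only [one_mul, Finset.mul_sum]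
  rw [h1, h, Finset.mul_sum]
  refine Finset.sum_congr rfl fun l _ => ?_
  rw [Finset.mul_sum]
  refine Finset.sum_congr rfl fun l' _ => ?_
  have : conj (1 / (L : ℂ)) = 1 / (L : ℂ) := by simp
  rw [this]; ring

variable [TopologicalSpace X]

private theorem n2X_shift (hU : UC A Q) (l l' k : ℕ) (u : X) :
    n2X T A Q (l + k) (l' + k) u = n2X T A Q l l' (T^[k] u) := by
  unfold n2X
  rw [cp_add hU l k, cp_add hU l' k, Matrix.conjTranspose_mul, mul_assoc, ← mul_assoc (cp T A Q k u),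
    cp_AAH hU, ← mul_assoc, cp_AQ hU]

private theorem n2X_gt (hU : UC A Q) (l l' : ℕ) (h : l' ≤ l) (u : X) :
    n2X T A Q l l' u = trc T A Q (l - l') (T^[l'] u) := by
  rw [n2X, cp_shift hU _ _ h, trc]

omit [DecidableEq ι] [TopologicalSpace X] in
private theorem n2X_symm (l l' : ℕ) (u : X) : n2X T A Q l' l u = conj (n2X T A Q l l' u) := by
  simp only [n2X_eq, map_sum, map_mul, Complex.conj_conj]
  exact Finset.sum_congr rfl fun a _ => Finset.sum_congr rfl fun b _ => mul_comm _ _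

private theorem n2X_cont (hT : Continuous T) (hU : UC A Q) (l l' : ℕ) : Continuous (n2X T A Q l l') := by
  unfold n2X
  exact ((cp_cont hT hU _).matrix_mul (cp_cont hT hU _).matrix_conjTranspose).matrix_trace

private theorem n2_blocks (F : ℕ → ℂ) (M R : ℕ) :
    ∑ n ∈ range (M * R), F n = ∑ i ∈ range R, ∑ l ∈ range M, F (l + M * i) := by
  induction R with
  | zero => simp
  | succ R ih =>
    rw [Nat.mul_succ, Finset.sum_range_add, ih, Finset.sum_range_succ]
    congr 1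
    exact Finset.sum_congr rfl fun l _ => by rw [add_comm]

private theorem n2_conv (R : ℕ) (hR : 0 < R) (V : ℕ → ℂ) :
    ‖(1 / (R : ℂ)) * ∑ i ∈ range R, V i‖ ^ 2 ≤ (1 / (R : ℝ)) * ∑ i ∈ range R, ‖V i‖ ^ 2 := by
  have hR' : (0 : ℝ) < R := by exact_mod_cast hR
  have h1 : ‖∑ i ∈ range R, V i‖ ^ 2 ≤ R * ∑ i ∈ range R, ‖V i‖ ^ 2 := by
    calc ‖∑ i ∈ range R, V i‖ ^ 2 ≤ (∑ i ∈ range R, ‖V i‖) ^ 2 :=
          pow_le_pow_left₀ (norm_nonneg _) (norm_sum_le _ _) 2
      _ ≤ (range R).card * ∑ i ∈ range R, ‖V i‖ ^ 2 := sq_sum_le_card_mul_sum_sq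
      _ = _ := by rw [Finset.card_range]
  rw [norm_mul, mul_pow, norm_div, norm_one, Complex.norm_natCast]
  calc (1 / (R : ℝ)) ^ 2 * ‖∑ i ∈ range R, V i‖ ^ 2 ≤ (1 / (R : ℝ)) ^ 2 * (R * ∑ i ∈ range R, ‖V i‖ ^ 2) := by gcongr
    _ = (1 / (R : ℝ)) * ∑ i ∈ range R, ‖V i‖ ^ 2 := by field_simp

private theorem n2_pt (hU : UC A Q) (M R : ℕ) (hM : 0 < M) (hR : 0 < R) (v u : X) :
    Phi T A Q 1 1 (M * R) v u ≤ (1 / (R : ℝ)) * ∑ i ∈ range R,
      Phi T A Q 1 1 M (T^[M * i] v) (T^[M * i] u) := by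
  set V : ℕ → ι → ι → ι → ι → ℂ := fun i a b c f =>
    ∑ l ∈ range M, (1 / (M : ℂ)) * (cp T A Q (l + M * i) v a b * conj (cp T A Q (l + M * i) u c f)) with hV
  have hM' : (M : ℂ) ≠ 0 := Nat.cast_ne_zero.2 hM.ne'
  have hR' : (R : ℂ) ≠ 0 := Nat.cast_ne_zero.2 hR.ne'
  have h1 : ∀ a b c f, Wt T A Q 1 1 (M * R) v u a b c f = (1 / (R : ℂ)) * ∑ i ∈ range R, V i a b c f := by
    intro a b c f
    unfold Wt
    simp only [one_mul, hV]
    rw [n2_blocks, Finset.mul_sum, Finset.mul_sum]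
    refine Finset.sum_congr rfl fun i _ => ?_
    rw [Finset.mul_sum, Finset.mul_sum]
    refine Finset.sum_congr rfl fun l _ => ?_
    push_cast
    field_simp
  have h2 : ∀ i, ∑ a, ∑ b, ∑ c, ∑ f, ‖V i a b c f‖ ^ 2 = Phi T A Q 1 1 M (T^[M * i] v) (T^[M * i] u) := by
    intro i
    have h3 := n2_gen (T := T) (A := A) (Q := Q) (fun _ => 1 / (M : ℂ)) (fun m => m + M * i) M v u
    have h4 : ((∑ a, ∑ b, ∑ c, ∑ f, ‖V i a b c f‖ ^ 2 : ℝ) : ℂ) =
        ((Phi T A Q 1 1 M (T^[M * i] v) (T^[M * i] u) : ℝ) : ℂ) := by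
      simp only [hV]
      rw [h3, n2_phi, Finset.mul_sum]
      refine Finset.sum_congr rfl fun l _ => ?_
      rw [Finset.mul_sum]
      refine Finset.sum_congr rfl fun l' _ => ?_
      have : conj (1 / (M : ℂ)) = 1 / (M : ℂ) := by simp
      rw [this, n2X_shift hU, n2X_shift hU]; ring
    exact_mod_cast h4
  have h0 : Phi T A Q 1 1 (M * R) v u =
      ∑ a, ∑ b, ∑ c, ∑ f, ‖(1 / (R : ℂ)) * ∑ i ∈ range R, V i a b c f‖ ^ 2 :=
    Finset.sum_congr rfl fun a _ => Finset.sum_congr rfl fun b _ => Finset.sum_congr rfl fun c _ =>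
      Finset.sum_congr rfl fun f _ => by rw [h1]
  rw [h0]
  calc ∑ a, ∑ b, ∑ c, ∑ f, ‖(1 / (R : ℂ)) * ∑ i ∈ range R, V i a b c f‖ ^ 2
      ≤ ∑ a, ∑ b, ∑ c, ∑ f, (1 / (R : ℝ)) * ∑ i ∈ range R, ‖V i a b c f‖ ^ 2 :=
        Finset.sum_le_sum fun a _ => Finset.sum_le_sum fun b _ => Finset.sum_le_sum fun c _ =>
          Finset.sum_le_sum fun f _ => n2_conv R hR _
    _ = (1 / (R : ℝ)) * ∑ i ∈ range R, ∑ a, ∑ b, ∑ c, ∑ f, ‖V i a b c f‖ ^ 2 := by
        simp_rw [← Finset.mul_sum]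
        congr 1
        have h5 : ∀ h : ι → ι → ι → ι → ℝ, (∑ a, ∑ b, ∑ c, ∑ f, h a b c f) =
            ∑ x : ι × ι × ι × ι, h x.1 x.2.1 x.2.2.1 x.2.2.2 := by
          intro h; simp [Fintype.sum_prod_type]
        simp_rw [h5]
        exact Finset.sum_comm
    _ = (1 / (R : ℝ)) * ∑ i ∈ range R, Phi T A Q 1 1 M (T^[M * i] v) (T^[M * i] u) := by
        rw [Finset.sum_congr rfl fun i _ => h2 i]

private theorem n2_cont2 (hT : Continuous T) (hU : UC A Q) (L : ℕ) {f g : X × X → X} (hf : Continuous f)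
    (hg : Continuous g) : Continuous fun z : X × X => Phi T A Q 1 1 L (f z) (g z) := by
  have hA := cp_cont hT hU
  unfold Phi Wt
  refine continuous_finsetSum _ fun a _ => continuous_finsetSum _ fun b _ => continuous_finsetSum _ fun c _ =>
    continuous_finsetSum _ fun e _ => ((continuous_const.mul (continuous_finsetSum _ fun l _ => ?_)).norm.pow 2)
  exact ((((hA (1 * l)).comp hf).matrix_elem a b).mul
    (Complex.continuous_conj.comp (((hA (1 * l)).comp hg).matrix_elem c e)))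

private theorem n2_iter (k : ℕ) (z : X × X) : (Prod.map T T)^[k] z = (T^[k] z.1, T^[k] z.2) := by
  rw [Prod.map_iterate]
  rfl

variable [CompactSpace X] [TopologicalSpace.MetrizableSpace X] [MeasurableSpace X] [BorelSpace X]

omit [MeasurableSpace X] [BorelSpace X] in
private theorem n2_sc : SecondCountableTopology X := by
  letI := TopologicalSpace.metrizableSpaceMetric X
  infer_instance

private theorem n2_int {E : Type} [NormedAddCommGroup E] {σ : Measure (X × X)} [IsFiniteMeasure σ] {f : X × X → E}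
    (hf : Continuous f) : Integrable f σ := by
  haveI : SecondCountableTopology X := n2_sc
  exact hf.integrable_of_hasCompactSupport (HasCompactSupport.of_compactSpace _)

private theorem n2_inv {E : Type} [NormedAddCommGroup E] [NormedSpace ℝ E] {σ : Measure (X × X)}
    (hσ : MeasurePreserving (Prod.map T T) σ σ) (k : ℕ) {g : X × X → E} (hg : Continuous g) :
    ∫ z, g (T^[k] z.1, T^[k] z.2) ∂σ = ∫ z, g z ∂σ := by
  haveI : SecondCountableTopology X := n2_sc
  have h := hσ.iterate k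
  have h1 : ∫ z, g z ∂σ = ∫ z, g z ∂(Measure.map (Prod.map T T)^[k] σ) := by rw [h.map_eq]
  rw [h1, integral_map h.measurable.aemeasurable]
  · refine integral_congr_ae (Eventually.of_forall fun z => ?_)
    simp only [n2_iter]
  · exact hg.stronglyMeasurable_of_hasCompactSupport
      (HasCompactSupport.of_compactSpace _) |>.aestronglyMeasurable

private theorem n2_pair_le {σ : Measure (X × X)} (hσ : MeasurePreserving (Prod.map T T) σ σ) (hT : Continuous T)
    (hU : UC A Q) {l l' : ℕ} (h : l' ≤ l) :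
    ∫ z, n2X T A Q l l' z.1 * conj (n2X T A Q l l' z.2) ∂σ = ee σ T A Q (l - l') := by
  have hc : Continuous fun w : X × X => trc T A Q (l - l') w.1 * conj (trc T A Q (l - l') w.2) :=
    ((trc_cont hT hU _).comp continuous_fst).mul
      (Complex.continuous_conj.comp ((trc_cont hT hU _).comp continuous_snd))
  rw [ee, ← n2_inv hσ l' hc]
  refine integral_congr_ae (Eventually.of_forall fun z => ?_)
  simp only
  rw [n2X_gt hU l l' h, n2X_gt hU l l' h]

private theorem n2_pair {σ : Measure (X × X)} (hσ : MeasurePreserving (Prod.map T T) σ σ) (hT : Continuous T)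
    (hU : UC A Q) (l l' : ℕ) :
    ∫ z, n2X T A Q l l' z.1 * conj (n2X T A Q l l' z.2) ∂σ =
      if l' ≤ l then ee σ T A Q (l - l') else conj (ee σ T A Q (l' - l)) := by
  split_ifs with h
  · exact n2_pair_le hσ hT hU h
  · rw [← n2_pair_le hσ hT hU (le_of_not_ge h), ← integral_conj]
    refine integral_congr_ae (Eventually.of_forall fun z => ?_)
    simp only
    rw [n2X_symm l' l z.1, n2X_symm l' l z.2, map_mul]

private theorem n2_pair_int {σ : Measure (X × X)} [IsProbabilityMeasure σ] (hT : Continuous T) (hU : UC A Q) (l l' : ℕ) :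
    Integrable (fun z : X × X => n2X T A Q l l' z.1 * conj (n2X T A Q l l' z.2)) σ := by
  apply n2_int
  exact ((n2X_cont hT hU l l').comp continuous_fst).mul
    (Complex.continuous_conj.comp ((n2X_cont hT hU l l').comp continuous_snd))

theorem phi_mono {σ : Measure (X × X)} [IsProbabilityMeasure σ] (hσ : MeasurePreserving (Prod.map T T) σ σ) (hT : Continuous T)
    (hU : UC A Q) (M R : ℕ) (hM : 0 < M) (hR : 0 < R) :
    ∫ z, Phi T A Q 1 1 (M * R) z.1 z.2 ∂σ ≤ ∫ z, Phi T A Q 1 1 M z.1 z.2 ∂σ := by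
  have hi : ∀ i : ℕ, Continuous fun z : X × X => Phi T A Q 1 1 M (T^[M * i] z.1) (T^[M * i] z.2) := fun i =>
    n2_cont2 hT hU M (f := fun z => T^[M * i] z.1) (g := fun z => T^[M * i] z.2)
      ((hT.iterate _).comp continuous_fst) ((hT.iterate _).comp continuous_snd)
  have hj : ∀ L : ℕ, Continuous fun z : X × X => Phi T A Q 1 1 L z.1 z.2 := fun L =>
    n2_cont2 hT hU L continuous_fst continuous_snd
  have h1 : ∫ z, Phi T A Q 1 1 (M * R) z.1 z.2 ∂σ ≤
      ∫ z, (1 / (R : ℝ)) * ∑ i ∈ range R, Phi T A Q 1 1 M (T^[M * i] z.1) (T^[M * i] z.2) ∂σ := by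
    have hc1 : Integrable (fun z : X × X => Phi T A Q 1 1 (M * R) z.1 z.2) σ := n2_int (hj _)
    have hc2 : Integrable (fun z : X × X => (1 / (R : ℝ)) * ∑ i ∈ range R,
        Phi T A Q 1 1 M (T^[M * i] z.1) (T^[M * i] z.2)) σ :=
      n2_int (continuous_const.mul (continuous_finsetSum _ fun i _ => hi i))
    have hle : ∀ z : X × X, Phi T A Q 1 1 (M * R) z.1 z.2 ≤ (1 / (R : ℝ)) * ∑ i ∈ range R,
        Phi T A Q 1 1 M (T^[M * i] z.1) (T^[M * i] z.2) := fun z => n2_pt hU M R hM hR z.1 z.2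
    exact integral_mono hc1 hc2 hle
  refine h1.trans ?_
  rw [integral_const_mul, integral_finsetSum _ fun i _ => n2_int (hi i)]
  have h2 : ∀ i : ℕ, ∫ z, Phi T A Q 1 1 M (T^[M * i] z.1) (T^[M * i] z.2) ∂σ =
      ∫ z, Phi T A Q 1 1 M z.1 z.2 ∂σ := fun i => n2_inv hσ (M * i) (hj M)
  rw [Finset.sum_congr rfl fun i _ => h2 i]
  rw [Finset.sum_const, Finset.card_range, nsmul_eq_mul]
  have hR' : (0 : ℝ) < R := by exact_mod_cast hR
  apply le_of_eq
  field_simp

theorem phi_expand {σ : Measure (X × X)} [IsProbabilityMeasure σ] (hσ : MeasurePreserving (Prod.map T T) σ σ) (hT : Continuous T)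
    (hU : UC A Q) (N : ℕ) (hN : 0 < N) :
    ∫ z, Phi T A Q 1 1 N z.1 z.2 ∂σ =
      (1 / (N : ℝ) ^ 2) * ∑ n ∈ range N, ∑ n' ∈ range N, (ee σ T A Q (if n' ≤ n then n - n' else n' - n)).re := by
  have h1 : ((∫ z, Phi T A Q 1 1 N z.1 z.2 ∂σ : ℝ) : ℂ) =
      (1 / (N : ℂ) ^ 2) * ∑ n ∈ range N, ∑ n' ∈ range N,
        (if n' ≤ n then ee σ T A Q (n - n') else conj (ee σ T A Q (n' - n))) := by
    rw [← integral_complex_ofReal]
    simp_rw [n2_phi]
    rw [integral_const_mul, integral_finsetSum _ fun l _ => integrable_finsetSum _ fun l' _ => n2_pair_int hT hU l l']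
    congr 1
    refine Finset.sum_congr rfl fun l _ => ?_
    rw [integral_finsetSum _ fun l' _ => n2_pair_int hT hU l l']
    exact Finset.sum_congr rfl fun l' _ => n2_pair hσ hT hU l l'
  have h2 : ∫ z, Phi T A Q 1 1 N z.1 z.2 ∂σ = (((∫ z, Phi T A Q 1 1 N z.1 z.2 ∂σ : ℝ) : ℂ)).re :=
    (Complex.ofReal_re _).symm
  have h3 : (1 / (N : ℂ) ^ 2) = ((1 / (N : ℝ) ^ 2 : ℝ) : ℂ) := by push_cast; rfl
  rw [h2, h1, h3, Complex.re_ofReal_mul, Complex.re_sum]
  congr 1
  refine Finset.sum_congr rfl fun l _ => ?_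
  rw [Complex.re_sum]
  refine Finset.sum_congr rfl fun l' _ => ?_
  split_ifs with h
  · rfl
  · rw [Complex.conj_re]

theorem ee_posDef {σ : Measure (X × X)} [IsProbabilityMeasure σ] (hσ : MeasurePreserving (Prod.map T T) σ σ) (hT : Continuous T)
    (hU : UC A Q) : HD.PosDef (ee σ T A Q) := by
  intro M z
  have h1 : (∑ m ∈ range M, ∑ m' ∈ range M, z m * conj (z m') *
      (if m' ≤ m then ee σ T A Q (m - m') else conj (ee σ T A Q (m' - m)))) =
      ∫ w, (((∑ a, ∑ b, ∑ c, ∑ f, ‖∑ m ∈ range M, z m *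
        (cp T A Q m w.1 a b * conj (cp T A Q m w.2 c f))‖ ^ 2 : ℝ)) : ℂ) ∂σ := by
    have h2 : ∀ w : X × X, (((∑ a, ∑ b, ∑ c, ∑ f, ‖∑ m ∈ range M, z m *
        (cp T A Q m w.1 a b * conj (cp T A Q m w.2 c f))‖ ^ 2 : ℝ)) : ℂ) =
        ∑ m ∈ range M, ∑ m' ∈ range M, z m * conj (z m') *
        (n2X T A Q m m' w.1 * conj (n2X T A Q m m' w.2)) := fun w => n2_gen z (fun m => m) M w.1 w.2
    simp_rw [h2]
    rw [integral_finsetSum _ fun m _ => integrable_finsetSum _ fun m' _ => (n2_pair_int hT hU m m').const_mul _]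
    refine Finset.sum_congr rfl fun m _ => ?_
    rw [integral_finsetSum _ fun m' _ => (n2_pair_int hT hU m m').const_mul _]
    refine Finset.sum_congr rfl fun m' _ => ?_
    rw [integral_const_mul, n2_pair hσ hT hU m m']
  rw [h1, integral_complex_ofReal, Complex.ofReal_re]
  exact integral_nonneg fun u => Finset.sum_nonneg fun a _ => Finset.sum_nonneg fun b _ =>
    Finset.sum_nonneg fun c _ => Finset.sum_nonneg fun f _ => sq_nonneg _

theorem ee_zero_im {σ : Measure (X × X)} [IsProbabilityMeasure σ] (hU : UC A Q) : (ee σ T A Q 0).im = 0 := by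
  have h0 : ee σ T A Q 0 = Q.trace * conj Q.trace := by
    unfold ee
    have h2 : ∀ z : X × X, trc T A Q 0 z.1 * conj (trc T A Q 0 z.2) = Q.trace * conj Q.trace := fun x => rfl
    simp only [h2]
    simp
  rw [h0, Complex.mul_conj, Complex.ofReal_im]

theorem ee_zero_le {σ : Measure (X × X)} [IsProbabilityMeasure σ] (hU : UC A Q) :
    (ee σ T A Q 0).re ≤ (Fintype.card ι : ℝ) ^ 2 := by
  have h1 : ‖ee σ T A Q 0‖ ≤ (Fintype.card ι : ℝ) ^ 2 := by
    unfold ee
    refine (norm_integral_le_of_norm_le_const (C := (Fintype.card ι : ℝ) ^ 2)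
      (ae_of_all _ fun x => ?_)).trans ?_
    · rw [norm_mul, RCLike.norm_conj, pow_two]
      exact mul_le_mul (trc_le hU 0 _) (trc_le hU 0 _) (norm_nonneg _) (Nat.cast_nonneg _)
    · simp
  exact (Complex.re_le_norm _).trans h1

end Pool.Agent.Lib.MP_9fe581_an.HT
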