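import Pool.Agent.Lib.MP_9fe581_an.HT.CBasic
import Pool.Agent.Lib.MP_9fe581_an.HT.Mono
import Pool.Agent.Lib.MP_9fe581_an.HD.AllInt

/-!
# HT, module A8: the averages of `Dl` over all integers
-/

set_option autoImplicit false
set_option linter.unusedSectionVars false

open Finset MeasureTheory Filter Topology
open scoped ComplexConjugate Matrix

namespace Pool.Agent.Lib.MP_9fe581_an.HT

variable {X : Type} {ι : Type} [Fintype ι] [DecidableEq ι] {T : X → X} {A : X → Matrix ι ι ℂ} {Q : Matrix ι ι ℂ}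
variable [TopologicalSpace X] [CompactSpace X] [TopologicalSpace.MetrizableSpace X] [MeasurableSpace X] [BorelSpace X]

/-- the mean of the expectations over `|n - n'|` -/
private noncomputable def A8_E (σ : Measure (X × X)) (T : X → X) (A : X → Matrix ι ι ℂ)
    (Q : Matrix ι ι ℂ) (N : ℕ) : ℝ :=
  (1 / (N : ℝ) ^ 2) * ∑ n ∈ range N, ∑ n' ∈ range N, (ee σ T A Q (HD.ai_d n n')).re

private theorem A8_E_eq {σ : Measure (X × X)} [IsProbabilityMeasure σ]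
    (hσ : MeasurePreserving (Prod.map T T) σ σ) (hT : Continuous T) (hU : UC A Q) (N : ℕ)
    (hN : 0 < N) : ∫ z, Phi T A Q 1 1 N z.1 z.2 ∂σ = A8_E σ T A Q N :=
  phi_expand hσ hT hU N hN

private theorem A8_mono {σ : Measure (X × X)} [IsProbabilityMeasure σ]
    (hσ : MeasurePreserving (Prod.map T T) σ σ) (hT : Continuous T) (hU : UC A Q) (M R : ℕ)
    (hM : 0 < M) (hR : 0 < R) : A8_E σ T A Q (M * R) ≤ A8_E σ T A Q M := by
  rw [← A8_E_eq hσ hT hU (M * R) (Nat.mul_pos hM hR), ← A8_E_eq hσ hT hU M hM]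
  exact phi_mono hσ hT hU M R hM hR

private theorem A8_nonneg {σ : Measure (X × X)} [IsProbabilityMeasure σ]
    (hσ : MeasurePreserving (Prod.map T T) σ σ) (hT : Continuous T) (hU : UC A Q) (N : ℕ)
    (hN : 0 < N) : 0 ≤ A8_E σ T A Q N := by
  rw [← A8_E_eq hσ hT hU N hN]
  refine integral_nonneg fun z => ?_
  unfold Phi
  positivity

private theorem A8_term {μ : Measure X} (g : Good T μ) (hU : UC A Q) (s : Fin g.h) (q n : ℕ)
    (hq : 0 < q) : 0 ≤ (ee (g.σ s q) T A Q n - ee (g.σi s) T A Q n).re :=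
  g.pos s q hq (trc T A Q n) (trc_cont g.cont hU n)

private theorem A8_core {μ : Measure X} (g : Good T μ) (hU : UC A Q) (s : Fin g.h) (ε : ℝ)
    (hε : 0 < ε) : ∃ i0 q1 : ℕ, ∀ q ≥ q1, ∀ k ≥ i0,
    ∑ h ∈ range (2 ^ k), (ee (g.σ s q) T A Q h - ee (g.σi s) T A Q h).re ≤ ε * 2 ^ k := by
  have hpi := g.probi s
  have hbdd : BddBelow (Set.range fun k : ℕ => A8_E (g.σi s) T A Q (2 ^ k)) :=
    ⟨0, by
      rintro _ ⟨k, rfl⟩
      exact A8_nonneg (g.invi s) g.cont hU _ (by positivity)⟩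
  obtain ⟨i0, hi0⟩ := exists_lt_of_ciInf_lt (f := fun k : ℕ => A8_E (g.σi s) T A Q (2 ^ k))
    (a := (⨅ k : ℕ, A8_E (g.σi s) T A Q (2 ^ k)) + ε / 8) (by linarith)
  have hinf : ∀ k : ℕ, A8_E (g.σi s) T A Q (2 ^ i0) ≤ A8_E (g.σi s) T A Q (2 ^ k) + ε / 8 := by
    intro k
    have := ciInf_le hbdd k
    linarith
  have hev : ∀ᶠ q : ℕ in atTop, ∀ n ∈ range (2 ^ i0), (ee (g.σ s q) T A Q n).re ≤
      (ee (g.σi s) T A Q n).re + ε / 8 := by
    rw [Filter.eventually_all_finset]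
    intro n _
    have hF : Continuous fun z : X × X => trc T A Q n z.1 * conj (trc T A Q n z.2) :=
      ((trc_cont g.cont hU n).comp continuous_fst).mul
        (Complex.continuous_conj.comp ((trc_cont g.cont hU n).comp continuous_snd))
    have h1 := (Complex.continuous_re.tendsto _).comp (g.lim s _ hF)
    have h2 : (ee (g.σi s) T A Q n).re < (ee (g.σi s) T A Q n).re + ε / 8 := by linarith
    exact (h1.eventually (gt_mem_nhds h2)).mono fun q hq => hq.le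
  obtain ⟨q1, hq1⟩ := Filter.eventually_atTop.1 hev
  refine ⟨i0, max q1 1, fun q hq k hk => ?_⟩
  have hq0 : 0 < q := lt_of_lt_of_le Nat.one_pos ((le_max_right _ _).trans hq)
  have hqq1 : q1 ≤ q := (le_max_left _ _).trans hq
  have hpq := g.probσ s q hq0
  -- the chain
  have c1 : A8_E (g.σ s q) T A Q (2 ^ (k + 1)) ≤ A8_E (g.σ s q) T A Q (2 ^ i0) := by
    have h1 := A8_mono (g.invσ s q hq0) g.cont hU (2 ^ i0) (2 ^ (k + 1 - i0)) (by positivity)
      (by positivity)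
    rwa [← pow_add, show i0 + (k + 1 - i0) = k + 1 by omega] at h1
  have c2 : A8_E (g.σ s q) T A Q (2 ^ i0) ≤ A8_E (g.σi s) T A Q (2 ^ i0) + ε / 8 := by
    unfold A8_E
    have hM : (0 : ℝ) < ((2 ^ i0 : ℕ) : ℝ) := by positivity
    have h1 : ∑ n ∈ range (2 ^ i0), ∑ n' ∈ range (2 ^ i0), (ee (g.σ s q) T A Q (HD.ai_d n n')).re ≤
        ∑ n ∈ range (2 ^ i0), ∑ n' ∈ range (2 ^ i0),
          ((ee (g.σi s) T A Q (HD.ai_d n n')).re + ε / 8) := by
      refine Finset.sum_le_sum fun n hn => Finset.sum_le_sum fun n' hn' => ?_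
      refine hq1 q hqq1 _ ?_
      rw [mem_range] at hn hn' ⊢
      unfold HD.ai_d
      split_ifs <;> omega
    have h2 : ∑ n ∈ range (2 ^ i0), ∑ n' ∈ range (2 ^ i0),
          ((ee (g.σi s) T A Q (HD.ai_d n n')).re + ε / 8) =
        (∑ n ∈ range (2 ^ i0), ∑ n' ∈ range (2 ^ i0), (ee (g.σi s) T A Q (HD.ai_d n n')).re) +
          ((2 ^ i0 : ℕ) : ℝ) ^ 2 * (ε / 8) := by
      simp only [Finset.sum_add_distrib, Finset.sum_const, card_range, nsmul_eq_mul]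
      ring
    rw [h2] at h1
    have h3 := mul_le_mul_of_nonneg_left h1
      (show (0 : ℝ) ≤ 1 / ((2 ^ i0 : ℕ) : ℝ) ^ 2 by positivity)
    refine h3.trans (le_of_eq ?_)
    field_simp
  have c3 := hinf (k + 1)
  have c4 : A8_E (g.σ s q) T A Q (2 ^ (k + 1)) - A8_E (g.σi s) T A Q (2 ^ (k + 1)) ≤ ε / 4 := by
    linarith
  -- the double sum
  have hN : (0 : ℝ) < ((2 ^ (k + 1) : ℕ) : ℝ) := by positivity
  have c5 : ∑ n ∈ range (2 ^ (k + 1)), ∑ n' ∈ range (2 ^ (k + 1)),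
      (ee (g.σ s q) T A Q (HD.ai_d n n') - ee (g.σi s) T A Q (HD.ai_d n n')).re ≤
        ε / 4 * ((2 ^ (k + 1) : ℕ) : ℝ) ^ 2 := by
    have e1 : A8_E (g.σ s q) T A Q (2 ^ (k + 1)) - A8_E (g.σi s) T A Q (2 ^ (k + 1)) =
        (1 / ((2 ^ (k + 1) : ℕ) : ℝ) ^ 2) * ∑ n ∈ range (2 ^ (k + 1)), ∑ n' ∈ range (2 ^ (k + 1)),
          (ee (g.σ s q) T A Q (HD.ai_d n n') - ee (g.σi s) T A Q (HD.ai_d n n')).re := by
      unfold A8_E
      simp only [Complex.sub_re, Finset.sum_sub_distrib]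
      ring
    rw [e1, one_div, inv_mul_le_iff₀ (by positivity)] at c4
    linarith
  have c6 := HD.ai_count (fun h => (ee (g.σ s q) T A Q h - ee (g.σi s) T A Q h).re)
    (fun n => A8_term g hU s q n hq0) (2 ^ k)
  rw [show 2 * 2 ^ k = 2 ^ (k + 1) by ring] at c6
  have c7 := c6.trans c5
  have hk0 : (0 : ℝ) < 2 ^ k := by positivity
  have e2 : ε / 4 * ((2 ^ (k + 1) : ℕ) : ℝ) ^ 2 = (2 : ℝ) ^ k * (ε * 2 ^ k) := by
    push_cast
    ring
  rw [e2] at c7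
  push_cast at c7
  exact le_of_mul_le_mul_left c7 hk0

private theorem A8_Qb {j q : ℕ} (hq : q ∈ HD.Qb j) : 2 ^ j ≤ q := by
  unfold HD.Qb at hq
  rw [mem_filter, mem_Ico] at hq
  exact hq.1.1

theorem Dl_nonneg {μ : Measure X} (g : Good T μ) (hU : UC A Q) (j n : ℕ) : 0 ≤ Dl g A Q j n := by
  unfold Dl
  refine mul_nonneg (by positivity) (Finset.sum_nonneg fun q hq => Finset.sum_nonneg fun s _ => ?_)
  exact A8_term g hU s q n (lt_of_lt_of_le (by positivity) (A8_Qb hq))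

theorem Dl_all {μ : Measure X} (g : Good T μ) (hU : UC A Q) (ε : ℝ) (hε : 0 < ε) :
    ∃ N0 j1 : ℕ, ∀ j ≥ j1, ∀ N ≥ N0, ∑ n ∈ range N, Dl g A Q j n ≤ ε * N := by
  obtain ⟨δ, hδ⟩ : ∃ δ : ℝ, δ = ε / (2 * (g.h + 1)) := ⟨_, rfl⟩
  have hh0 : (0 : ℝ) < 2 * (g.h + 1) := by positivity
  have hδ0 : 0 < δ := by
    rw [hδ]
    positivity
  have hδh : (g.h : ℝ) * δ ≤ ε / 2 := by
    rw [hδ, mul_div_assoc', div_le_div_iff₀ hh0 two_pos]
    nlinarith
  choose i0 q1 hcore using fun s => A8_core g hU s δ hδ0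
  obtain ⟨I, hI⟩ : ∃ I : ℕ, ∀ s, i0 s ≤ I := ⟨∑ s, i0 s, fun s =>
    Finset.single_le_sum (fun _ _ => Nat.zero_le _) (Finset.mem_univ s)⟩
  obtain ⟨q2, hq2⟩ : ∃ q2 : ℕ, ∀ s, q1 s ≤ q2 := ⟨∑ s, q1 s, fun s =>
    Finset.single_le_sum (fun _ _ => Nat.zero_le _) (Finset.mem_univ s)⟩
  refine ⟨2 ^ I, q2, fun j hj N hN => ?_⟩
  have hNpos : 0 < N := lt_of_lt_of_le (by positivity) hN
  obtain ⟨k, hk⟩ : ∃ k, k = Nat.clog 2 N := ⟨_, rfl⟩
  have hk1 : N ≤ 2 ^ k := by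
    rw [hk]
    exact Nat.le_pow_clog (by norm_num) N
  have hk2 : 2 ^ k ≤ 2 * N := by
    rcases Nat.lt_or_ge 1 N with h1 | h1
    · have h2 := Nat.pow_pred_clog_lt_self (b := 2) (by norm_num) h1
      have h3 : 0 < Nat.clog 2 N := Nat.clog_pos (by norm_num) h1
      rw [hk]
      have h4 : 2 ^ Nat.clog 2 N = 2 * 2 ^ (Nat.clog 2 N).pred := by
        rw [← pow_succ']
        congr 1
        exact (Nat.succ_pred_eq_of_pos h3).symm
      omega
    · have : N = 1 := by omega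
      rw [hk, this]
      simp
  have hki : I ≤ k := by
    have h1 : 2 ^ I ≤ 2 ^ k := hN.trans hk1
    exact (Nat.pow_le_pow_iff_right (by norm_num)).1 h1
  have hle : ∑ n ∈ range N, Dl g A Q j n ≤ ∑ n ∈ range (2 ^ k), Dl g A Q j n :=
    Finset.sum_le_sum_of_subset_of_nonneg (Finset.range_subset_range.2 hk1)
      fun n _ _ => Dl_nonneg g hU j n
  have hsw : ∑ n ∈ range (2 ^ k), Dl g A Q j n = (1 / ((HD.Qb j).card : ℝ)) * ∑ q ∈ HD.Qb j,
      ∑ s, ∑ n ∈ range (2 ^ k), (ee (g.σ s q) T A Q n - ee (g.σi s) T A Q n).re := by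
    unfold Dl
    rw [← Finset.mul_sum, Finset.sum_comm]
    congr 1
    exact Finset.sum_congr rfl fun q _ => Finset.sum_comm
  have hq : ∑ q ∈ HD.Qb j, ∑ s, ∑ n ∈ range (2 ^ k),
      (ee (g.σ s q) T A Q n - ee (g.σi s) T A Q n).re ≤
      ((HD.Qb j).card : ℝ) * (ε / 2 * 2 ^ k) := by
    rw [← nsmul_eq_mul]
    refine Finset.sum_le_card_nsmul _ _ _ fun q hq => ?_
    have h1 : ∀ s ∈ (Finset.univ : Finset (Fin g.h)), ∑ n ∈ range (2 ^ k),
        (ee (g.σ s q) T A Q n - ee (g.σi s) T A Q n).re ≤ δ * 2 ^ k := by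
      intro s _
      refine hcore s q ?_ k ((hI s).trans hki)
      have h2 := A8_Qb hq
      have h3 : j < 2 ^ j := Nat.lt_two_pow_self
      have h4 := hq2 s
      omega
    refine (Finset.sum_le_card_nsmul _ _ _ h1).trans ?_
    rw [Finset.card_univ, Fintype.card_fin, nsmul_eq_mul, ← mul_assoc]
    exact mul_le_mul_of_nonneg_right hδh (by positivity)
  have hK : (1 / ((HD.Qb j).card : ℝ)) * (((HD.Qb j).card : ℝ) * (ε / 2 * 2 ^ k)) ≤ ε / 2 * 2 ^ k := by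
    rcases Nat.eq_zero_or_pos (HD.Qb j).card with h0 | h0
    · rw [h0]
      simp
      positivity
    · have : (0 : ℝ) < ((HD.Qb j).card : ℝ) := by exact_mod_cast h0
      rw [← mul_assoc, one_div, inv_mul_cancel₀ this.ne', one_mul]
  have hk2' : (2 : ℝ) ^ k ≤ 2 * N := by exact_mod_cast hk2
  calc ∑ n ∈ range N, Dl g A Q j n ≤ _ := hle
    _ = _ := hsw
    _ ≤ (1 / ((HD.Qb j).card : ℝ)) * (((HD.Qb j).card : ℝ) * (ε / 2 * 2 ^ k)) :=
        mul_le_mul_of_nonneg_left hq (by positivity)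
    _ ≤ ε / 2 * 2 ^ k := hK
    _ ≤ ε / 2 * (2 * N) := mul_le_mul_of_nonneg_left hk2' (by positivity)
    _ = ε * N := by ring

end Pool.Agent.Lib.MP_9fe581_an.HT
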