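import Pool.Agent.Lib.MP_9fe581_an.HT.Char

/-!
# HT / Base: an ergodic extension of a tower map has an ergodic rotation at the bottom
-/

open Finset MeasureTheory Filter Topology
open scoped ComplexConjugate Matrix

namespace Pool.Agent.Lib.MP_9fe581_an.HT

/-- no nonconstant character of the base is invariant if an extension is ergodic -/
theorem not_inv_of_erg {κ : Type} [Fintype κ] [DecidableEq κ] {F : Type} [MeasurableSpace F] {ν : Measure F}
    [IsProbabilityMeasure ν] {S : TX κ → TX κ} {T : TX κ × F → TX κ × F} (hT : ∀ z, (T z).1 = S z.1)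
    (hE : Ergodic T ((mX κ).prod ν)) (m : κ →₀ ℤ) (hm : m ≠ 0) (h : ∀ x, ch m (S x) = ch m x) : False := by
  obtain ⟨c, hc⟩ := hE.toPreErgodic.ae_eq_const_of_ae_eq_comp (g := fun z : TX κ × F => ch m z.1)
    ((ch_cont m).measurable.comp measurable_fst) (by
      funext z
      show ch m (T z).1 = ch m z.1
      rw [hT, h])
  have h1 : ∫ z, ch m z.1 ∂(mX κ).prod ν = c := by
    rw [integral_congr_ae hc]
    simp
  have h2 : ∫ z : TX κ × F, ch m z.1 ∂(mX κ).prod ν = 0 := by
    have e : ∫ z : TX κ × F, ch m z.1 ∂(mX κ).prod ν = ∫ z : TX κ × F, ch m z.1 * 1 ∂(mX κ).prod ν := by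
      simp
    rw [e, integral_prod_mul (fun x : TX κ => ch m x) (fun _ : F => (1 : ℂ)), ch_int, if_neg hm, zero_mul]
  have h3 : c = 0 := h1.symm.trans h2
  have h4 : ∀ᵐ z : TX κ × F ∂(mX κ).prod ν, False := by
    filter_upwards [hc] with z hz
    have h5 : ‖ch m z.1‖ = 1 := ch_norm m z.1
    have h6 : ch m z.1 = c := hz
    rw [h6, h3, norm_zero] at h5
    exact zero_ne_one h5
  rw [eventually_false_iff_eq_bot, ae_eq_bot] at h4
  exact (IsProbabilityMeasure.ne_zero ((mX κ).prod ν)) h4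

/-- the data of a tower, without a hypothesis on the rotation, and an ergodic extension -/
theorem tower_of_erg {κ : Type} [Fintype κ] [DecidableEq κ] (lev : κ → ℕ) (a : κ → (κ →₀ ℤ)) (ψ : κ → (κ → UnitAddCircle) → ℝ)
    (hsup : ∀ i l, a i l ≠ 0 → lev l < lev i)
    (hdep : ∀ i x y, (∀ l, lev l < lev i → x l = y l) → ψ i x = ψ i y)
    (hcont : ∀ i, Continuous (ψ i))
    (hlip : ∀ i l, lev l + 1 = lev i → ∃ L : ℝ, ∀ (x y : κ → UnitAddCircle) (s : ℝ),
      (∀ k, k ≠ l → y k = x k) → y l = x l + (s : UnitAddCircle) → |ψ i y - ψ i x| ≤ L * |s|)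
    (hdeg : ∀ j : ℕ, ∀ m : κ →₀ ℤ, m ≠ 0 → (∀ i, m i ≠ 0 → lev i = j + 1) →
      ∃ l, lev l = j ∧ (m.sum fun i c => c * a i l) ≠ 0)
    {S : (κ → UnitAddCircle) → (κ → UnitAddCircle)}
    (hS : ∀ x i, S x i = x i + ((a i).sum fun l k => k • x l) + (ψ i x : UnitAddCircle))
    {F : Type} [MeasurableSpace F] {ν : Measure F} [IsProbabilityMeasure ν]
    {T : TX κ × F → TX κ × F} (hT : ∀ z, (T z).1 = S z.1) (hE : Ergodic T ((mX κ).prod ν)) :
    ∃ W : FT.Tower κ, FT.T W = S := by
  refine ⟨{ lev := lev, a := a, ψ := ψ, sup := hsup, dep := hdep, cont := hcont, lip := hlip, base := ?_, deg := hdeg }, ?_⟩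
  · intro m hm h0 k hk
    refine not_inv_of_erg hT hE m hm fun x => ?_
    have e1 : ∀ i, m i ≠ 0 → S x i = x i + (ψ i 0 : UnitAddCircle) := by
      intro i hi
      have hl : lev i = 0 := h0 i hi
      have e2 : a i = 0 := by
        ext l
        by_contra hne
        have := hsup i l hne
        omega
      have e3 : ψ i x = ψ i 0 := hdep i x 0 fun l hl' => by omega
      rw [hS, e2, e3]
      simp
    have e4 : FT.pr m (S x) = FT.pr m x := by
      have e5 : FT.pr m (S x) = FT.pr m (x + fun i => (ψ i 0 : UnitAddCircle)) :=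
        FT.pr_congr m _ _ fun i hi => by rw [e1 i hi]; rfl
      rw [e5, FT.pr_add_right]
      have e6 : FT.pr m (fun i => (ψ i 0 : UnitAddCircle)) = 0 := by
        have e7 : FT.pr m (fun i => (ψ i 0 : UnitAddCircle)) = ((m.sum fun i c => (c : ℝ) * ψ i 0 : ℝ) : UnitAddCircle) := by
          unfold FT.pr Finsupp.sum
          rw [show ((∑ i ∈ m.support, ((m i : ℤ) : ℝ) * ψ i 0 : ℝ) : UnitAddCircle) =
            ∑ i ∈ m.support, ((((m i : ℤ) : ℝ) * ψ i 0 : ℝ) : UnitAddCircle) from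
              map_sum (QuotientAddGroup.mk' (AddSubgroup.zmultiples (1 : ℝ))) _ _]
          exact sum_congr rfl fun i _ => by
            rw [← zsmul_eq_mul, AddCircle.coe_zsmul]
        rw [e7, hk]
        exact (AddCircle.coe_eq_zero_iff (1 : ℝ)).2 ⟨k, by simp⟩
      rw [e6, add_zero]
    unfold ch
    rw [e4]
  · funext x i
    rw [hS, add_assoc]
    rfl

end Pool.Agent.Lib.MP_9fe581_an.HT
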