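import Pool.Agent.Lib.MP_9fe581_an.HT.Defs

/-!
# HT, module A1: algebra of the products of a unitary matrix cocycle
-/

set_option linter.unusedSectionVars false

open Finset MeasureTheory Filter Topology
open scoped ComplexConjugate Matrix

namespace Pool.Agent.Lib.MP_9fe581_an.HT

variable {X : Type} {ι : Type} [Fintype ι] [DecidableEq ι] {T : X → X} {A : X → Matrix ι ι ℂ} {Q : Matrix ι ι ℂ}

theorem cp_cont [TopologicalSpace X] (hT : Continuous T) (hU : UC A Q) (n : ℕ) :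
    Continuous (cp T A Q n) := by
  induction n with
  | zero => exact continuous_const
  | succ n ih =>
    change Continuous fun x => A (T^[n] x) * cp T A Q n x
    exact (hU.cont.comp (hT.iterate n)).matrix_mul ih

theorem cp_QA [TopologicalSpace X] (hU : UC A Q) (n : ℕ) (x : X) : Q * cp T A Q n x = cp T A Q n x := by
  cases n with
  | zero => exact hU.QQ
  | succ n =>
    change Q * (A (T^[n] x) * cp T A Q n x) = A (T^[n] x) * cp T A Q n x
    rw [← mul_assoc, hU.QA]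

theorem cp_AQ [TopologicalSpace X] (hU : UC A Q) (n : ℕ) (x : X) : cp T A Q n x * Q = cp T A Q n x := by
  induction n with
  | zero => exact hU.QQ
  | succ n ih =>
    change (A (T^[n] x) * cp T A Q n x) * Q = A (T^[n] x) * cp T A Q n x
    rw [mul_assoc, ih]

theorem cp_add [TopologicalSpace X] (hU : UC A Q) (n m : ℕ) (x : X) :
    cp T A Q (n + m) x = cp T A Q n (T^[m] x) * cp T A Q m x := by
  induction n with
  | zero =>
    rw [Nat.zero_add]
    exact (cp_QA hU m x).symm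
  | succ n ih =>
    have h1 : n + 1 + m = (n + m) + 1 := by ring
    have h2 : T^[n + m] x = T^[n] (T^[m] x) := Function.iterate_add_apply T n m x
    rw [h1]
    change A (T^[n + m] x) * cp T A Q (n + m) x =
      (A (T^[n] (T^[m] x)) * cp T A Q n (T^[m] x)) * cp T A Q m x
    rw [ih, h2, mul_assoc]

theorem cp_AAH [TopologicalSpace X] (hU : UC A Q) (n : ℕ) (x : X) : cp T A Q n x * (cp T A Q n x)ᴴ = Q := by
  induction n with
  | zero =>
    change Q * Qᴴ = Q
    rw [hU.QH, hU.QQ]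
  | succ n ih =>
    change (A (T^[n] x) * cp T A Q n x) * (A (T^[n] x) * cp T A Q n x)ᴴ = Q
    rw [Matrix.conjTranspose_mul, mul_assoc, ← mul_assoc (cp T A Q n x), ih, ← mul_assoc, hU.AQ,
      hU.AAH]

theorem cp_AHA [TopologicalSpace X] (hU : UC A Q) (n : ℕ) (x : X) : (cp T A Q n x)ᴴ * cp T A Q n x = Q := by
  induction n with
  | zero =>
    change Qᴴ * Q = Q
    rw [hU.QH, hU.QQ]
  | succ n ih =>
    change (A (T^[n] x) * cp T A Q n x)ᴴ * (A (T^[n] x) * cp T A Q n x) = Q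
    rw [Matrix.conjTranspose_mul, mul_assoc, ← mul_assoc (A (T^[n] x))ᴴ, hU.AHA, cp_QA hU, ih]

private theorem A1_mul_conj (X : Matrix ι ι ℂ) (i : ι) :
    (X * Xᴴ) i i = ((∑ j, ‖X i j‖ ^ 2 : ℝ) : ℂ) := by
  rw [Matrix.mul_apply, Complex.ofReal_sum]
  refine Finset.sum_congr rfl fun j _ => ?_
  rw [Matrix.conjTranspose_apply]
  change X i j * conj (X i j) = _
  rw [Complex.mul_conj, Complex.normSq_eq_norm_sq]

private theorem A1_row (hH : Qᴴ = Q) (hQ : Q * Q = Q) (X : Matrix ι ι ℂ) (hX : X * Xᴴ = Q)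
    (i : ι) : ∑ j, ‖X i j‖ ^ 2 ≤ 1 := by
  have h1 : Q i i = ((∑ j, ‖X i j‖ ^ 2 : ℝ) : ℂ) := by rw [← A1_mul_conj, hX]
  have h2 : Q i i = ((∑ j, ‖Q i j‖ ^ 2 : ℝ) : ℂ) := by
    rw [← A1_mul_conj, hH, hQ]
  set s : ℝ := ∑ j, ‖X i j‖ ^ 2 with hs
  have h3 : s = ∑ j, ‖Q i j‖ ^ 2 := by
    rw [h1] at h2
    exact_mod_cast h2
  have h4 : ‖Q i i‖ ^ 2 ≤ s := by
    rw [h3]
    exact Finset.single_le_sum (f := fun j => ‖Q i j‖ ^ 2) (fun j _ => by positivity)
      (Finset.mem_univ i)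
  have hs0 : 0 ≤ s := Finset.sum_nonneg fun j _ => by positivity
  rw [h1, Complex.norm_real, Real.norm_eq_abs, abs_of_nonneg hs0] at h4
  nlinarith

theorem cp_row [TopologicalSpace X] (hU : UC A Q) (n : ℕ) (x : X) (i : ι) :
    ∑ j, ‖cp T A Q n x i j‖ ^ 2 ≤ 1 :=
  A1_row hU.QH hU.QQ _ (cp_AAH hU n x) i

theorem cp_col [TopologicalSpace X] (hU : UC A Q) (n : ℕ) (x : X) (j : ι) :
    ∑ i, ‖cp T A Q n x i j‖ ^ 2 ≤ 1 := by
  have h := A1_row hU.QH hU.QQ (cp T A Q n x)ᴴ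
    (by rw [Matrix.conjTranspose_conjTranspose]; exact cp_AHA hU n x) j
  simpa [Matrix.conjTranspose_apply] using h

theorem cp_entry [TopologicalSpace X] (hU : UC A Q) (n : ℕ) (x : X) (i j : ι) : ‖cp T A Q n x i j‖ ≤ 1 := by
  have h := (Finset.single_le_sum (f := fun j => ‖cp T A Q n x i j‖ ^ 2)
    (fun j _ => by positivity) (Finset.mem_univ j)).trans (cp_row hU n x i)
  nlinarith [norm_nonneg (cp T A Q n x i j)]

theorem trc_le [TopologicalSpace X] (hU : UC A Q) (n : ℕ) (x : X) : ‖trc T A Q n x‖ ≤ Fintype.card ι := by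
  rw [trc, Matrix.trace]
  refine (norm_sum_le _ _).trans ?_
  refine (Finset.sum_le_sum fun i _ => cp_entry hU n x i i).trans ?_
  simp

theorem trc_cont [TopologicalSpace X] (hT : Continuous T) (hU : UC A Q) (n : ℕ) :
    Continuous (trc T A Q n) := by
  unfold trc
  exact (cp_cont hT hU n).matrix_trace

/-- `A_l(u) A_{l'}(u)^* = A_{l - l'}(T^{l'} u)` -/
theorem cp_shift [TopologicalSpace X] (hU : UC A Q) (l l' : ℕ) (h : l' ≤ l) (u : X) :
    cp T A Q l u * (cp T A Q l' u)ᴴ = cp T A Q (l - l') (T^[l'] u) := by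
  have h1 : cp T A Q l u = cp T A Q (l - l') (T^[l'] u) * cp T A Q l' u := by
    rw [← cp_add hU, Nat.sub_add_cancel h]
  rw [h1, mul_assoc, cp_AAH hU, cp_AQ hU]

theorem aa_le [TopologicalSpace X] [MeasurableSpace X] {μ : Measure X} [IsProbabilityMeasure μ] (hU : UC A Q) (n : ℕ) :
    ‖aa μ T A Q n‖ ≤ Fintype.card ι := by
  unfold aa
  refine (norm_integral_le_of_norm_le_const (C := (Fintype.card ι : ℝ))
    (ae_of_all _ fun x => trc_le hU n x)).trans ?_
  simp

end Pool.Agent.Lib.MP_9fe581_an.HT
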