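import Pool.Agent.Lib.MP_9fe581_an.HT.CBasic

/-!
# HT, A3: the integrated traces of the cocycle products are a positive definite sequence
-/

open Finset MeasureTheory Filter Topology
open scoped ComplexConjugate Matrix

namespace Pool.Agent.Lib.MP_9fe581_an.HT

variable {X : Type} {ι : Type} [Fintype ι] [DecidableEq ι] {T : X → X} {A : X → Matrix ι ι ℂ} {Q : Matrix ι ι ℂ}
variable [TopologicalSpace X] [CompactSpace X] [TopologicalSpace.MetrizableSpace X] [MeasurableSpace X] [BorelSpace X]
variable {μ : Measure X} [IsProbabilityMeasure μ]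

omit [TopologicalSpace.MetrizableSpace X] in
private theorem a3_int {f : X → ℂ} (hf : Continuous f) : Integrable f μ :=
  hf.integrable_of_hasCompactSupport (HasCompactSupport.of_compactSpace f)

omit [CompactSpace X] [TopologicalSpace.MetrizableSpace X] [MeasurableSpace X] [BorelSpace X] in
private theorem a3_cont (hT : Continuous T) (hU : UC A Q) (m m' : ℕ) :
    Continuous fun x => (cp T A Q m x * (cp T A Q m' x)ᴴ).trace := by
  have h1 : Continuous fun x => cp T A Q m x * (cp T A Q m' x)ᴴ :=
    (cp_cont hT hU m).matrix_mul (cp_cont hT hU m').matrix_conjTranspose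
  exact h1.matrix_trace

omit [CompactSpace X] [TopologicalSpace.MetrizableSpace X] [IsProbabilityMeasure μ] in
private theorem a3_le (hT : Continuous T) (hμ : MeasurePreserving T μ μ) (hU : UC A Q) {m m' : ℕ} (h : m' ≤ m) :
    ∫ x, (cp T A Q m x * (cp T A Q m' x)ᴴ).trace ∂μ = aa μ T A Q (m - m') := by
  have h1 : ∀ x, (cp T A Q m x * (cp T A Q m' x)ᴴ).trace =
      (fun y => trc T A Q (m - m') y) (T^[m'] x) := by
    intro x
    rw [cp_shift hU m m' h x]
    rfl
  simp only [h1]
  have h2 := (hμ.iterate m').map_eq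
  have h3 : ∫ y, trc T A Q (m - m') y ∂(Measure.map T^[m'] μ) = ∫ x, trc T A Q (m - m') (T^[m'] x) ∂μ :=
    integral_map (hμ.iterate m').measurable.aemeasurable (trc_cont hT hU (m - m')).aestronglyMeasurable
  rw [h2] at h3
  exact h3.symm

omit [CompactSpace X] [TopologicalSpace.MetrizableSpace X] [IsProbabilityMeasure μ] in
private theorem a3_eq (hT : Continuous T) (hμ : MeasurePreserving T μ μ) (hU : UC A Q) (m m' : ℕ) :
    (if m' ≤ m then aa μ T A Q (m - m') else conj (aa μ T A Q (m' - m))) =
      ∫ x, (cp T A Q m x * (cp T A Q m' x)ᴴ).trace ∂μ := by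
  split_ifs with h
  · exact (a3_le hT hμ hU h).symm
  · rw [← a3_le hT hμ hU (le_of_not_ge h), ← integral_conj]
    congr 1
    funext x
    have h1 : conj ((cp T A Q m' x * (cp T A Q m x)ᴴ).trace) =
        ((cp T A Q m' x * (cp T A Q m x)ᴴ)ᴴ).trace := by
      rw [Matrix.trace_conjTranspose]
      rfl
    rw [h1, Matrix.conjTranspose_mul, Matrix.conjTranspose_conjTranspose]

omit [TopologicalSpace.MetrizableSpace X] in
theorem aa_posDef (hT : Continuous T) (hμ : MeasurePreserving T μ μ) (hU : UC A Q) : HD.PosDef (aa μ T A Q) := by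
  intro M z
  have h1 : (∑ m ∈ range M, ∑ m' ∈ range M, z m * conj (z m') *
      (if m' ≤ m then aa μ T A Q (m - m') else conj (aa μ T A Q (m' - m)))) =
      ∫ x, (∑ m ∈ range M, ∑ m' ∈ range M, z m * conj (z m') *
        (cp T A Q m x * (cp T A Q m' x)ᴴ).trace) ∂μ := by
    rw [integral_finsetSum]
    · refine Finset.sum_congr rfl fun m _ => ?_
      rw [integral_finsetSum]
      · refine Finset.sum_congr rfl fun m' _ => ?_
        rw [a3_eq hT hμ hU, integral_const_mul]
      · intro m' _
        exact (a3_int (a3_cont hT hU m m')).const_mul _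
    · intro m _
      exact integrable_finsetSum _ fun m' _ => (a3_int (a3_cont hT hU m m')).const_mul _
  have h2 : ∀ x, (∑ m ∈ range M, ∑ m' ∈ range M, z m * conj (z m') *
      (cp T A Q m x * (cp T A Q m' x)ᴴ).trace) =
      ((∑ i, ∑ j, ‖(∑ m ∈ range M, z m • cp T A Q m x) i j‖ ^ 2 : ℝ) : ℂ) := by
    intro x
    set B : Matrix ι ι ℂ := ∑ m ∈ range M, z m • cp T A Q m x with hB
    have h3 : (B * Bᴴ).trace = ∑ m ∈ range M, ∑ m' ∈ range M, z m * conj (z m') *
        (cp T A Q m x * (cp T A Q m' x)ᴴ).trace := by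
      rw [hB, Matrix.conjTranspose_sum, Finset.sum_mul_sum, Matrix.trace_sum]
      refine Finset.sum_congr rfl fun m _ => ?_
      rw [Matrix.trace_sum]
      refine Finset.sum_congr rfl fun m' _ => ?_
      rw [Matrix.conjTranspose_smul, smul_mul_assoc, mul_smul_comm, Matrix.trace_smul,
        Matrix.trace_smul, smul_eq_mul, smul_eq_mul, ← mul_assoc]
      rfl
    rw [← h3]
    unfold Matrix.trace
    push_cast
    refine Finset.sum_congr rfl fun i _ => ?_
    rw [Matrix.diag_apply, Matrix.mul_apply]
    refine Finset.sum_congr rfl fun j _ => ?_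
    rw [Matrix.conjTranspose_apply]
    exact Complex.mul_conj' _
  rw [h1]
  simp only [h2]
  rw [integral_complex_ofReal]
  rw [Complex.ofReal_re]
  exact integral_nonneg fun x => Finset.sum_nonneg fun i _ => Finset.sum_nonneg fun j _ =>
    sq_nonneg _

omit [CompactSpace X] [TopologicalSpace.MetrizableSpace X] [BorelSpace X] in
theorem aa_zero_re_le (hU : UC A Q) : (aa μ T A Q 0).re ≤ Fintype.card ι :=
  (Complex.re_le_norm _).trans (aa_le hU 0)

omit [DecidableEq ι] [CompactSpace X] [TopologicalSpace.MetrizableSpace X] [BorelSpace X] in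
/-- `aa 0` is the trace of the projection, which is real. -/
theorem aa_zero_im (hU : UC A Q) : (aa μ T A Q 0).im = 0 := by
  have h1 : aa μ T A Q 0 = Q.trace := by
    unfold aa
    have h2 : ∀ x : X, trc T A Q 0 x = Q.trace := fun x => rfl
    simp only [h2]
    simp
  have h3 : conj Q.trace = Q.trace := by
    have h4 := Matrix.trace_conjTranspose Q
    rw [hU.QH] at h4
    exact h4.symm
  rw [h1]
  exact Complex.conj_eq_iff_im.mp h3

end Pool.Agent.Lib.MP_9fe581_an.HT
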