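import Pool.Agent.Lib.MP_9fe581_an.HT.Vdc
import Pool.Agent.Lib.MP_9fe581_an.HT.MaxMeas
import Pool.Agent.Lib.MP_9fe581_an.HD.Corr

/-!
# HT, module A6: the correlations are bounded by an integral, uniformly in the point
-/

open Finset MeasureTheory Filter Topology
open scoped ComplexConjugate Matrix

namespace Pool.Agent.Lib.MP_9fe581_an.HT

variable {X : Type} {ι : Type} [Fintype ι] [DecidableEq ι] {T : X → X} {A : X → Matrix ι ι ℂ} {Q : Matrix ι ι ℂ}

variable [TopologicalSpace X]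

theorem phi_cont (hT : Continuous T) (hU : UC A Q) (p q L : ℕ) :
    Continuous fun z : X × X => Phi T A Q p q L z.1 z.2 := by
  have h1 : ∀ (n : ℕ) (a b : ι), Continuous fun z : X × X => cp T A Q n z.1 a b :=
    fun n a b => ((cp_cont hT hU n).matrix_elem a b).comp continuous_fst
  have h2 : ∀ (n : ℕ) (a b : ι), Continuous fun z : X × X => cp T A Q n z.2 a b :=
    fun n a b => ((cp_cont hT hU n).matrix_elem a b).comp continuous_snd
  unfold Phi Wt
  refine continuous_finsetSum _ fun a _ => continuous_finsetSum _ fun b _ =>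
    continuous_finsetSum _ fun c _ => continuous_finsetSum _ fun f _ => ?_
  refine Continuous.pow (Continuous.norm ?_) 2
  refine continuous_const.mul (continuous_finsetSum _ fun l _ => ?_)
  exact (h1 _ a b).mul (Complex.continuous_conj.comp (h2 _ c f))

omit [DecidableEq ι] [TopologicalSpace X] in
theorem phi_nonneg (p q L : ℕ) (u v : X) : 0 ≤ Phi T A Q p q L u v := by
  unfold Phi
  exact Finset.sum_nonneg fun a _ => Finset.sum_nonneg fun b _ => Finset.sum_nonneg fun c _ =>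
    Finset.sum_nonneg fun f _ => by positivity

variable [CompactSpace X] [TopologicalSpace.MetrizableSpace X] [MeasurableSpace X] [BorelSpace X]

theorem corr_le [Nonempty X] (hT : Continuous T) (hU : UC A Q) (p q L : ℕ) (hL : 0 < L) :
    ∃ ρ : Measure (X × X), IsProbabilityMeasure ρ ∧ MeasurePreserving (Prod.map T^[p] T^[q]) ρ ρ ∧
      ∀ ε : ℝ, 0 < ε → ∃ M0 : ℕ, ∀ M ≥ M0, ∀ (x : X) (i j : ι),
        ‖∑ m ∈ Icc 1 M, cp T A Q (p * m) x i j * conj (cp T A Q (q * m) x i j)‖ ≤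
          (Real.sqrt (∫ z, Phi T A Q p q L z.1 z.2 ∂ρ) + ε) * M := by
  have hS : Continuous (Prod.map T^[p] T^[q]) := (hT.iterate p).prodMap (hT.iterate q)
  obtain ⟨ρ, hρ1, hρ2, hρ3⟩ := max_meas (Prod.map T^[p] T^[q]) hS
    (fun z : X × X => Phi T A Q p q L z.1 z.2) (phi_cont hT hU p q L)
  refine ⟨ρ, hρ1, hρ2, fun ε hε => ?_⟩
  obtain ⟨M1, hM1⟩ := hρ3 ((ε / 2) ^ 2) (by positivity)
  obtain ⟨M2, hM2⟩ := exists_nat_ge (4 * L / ε)
  refine ⟨max (max M1 M2) 1, fun M hM x i j => ?_⟩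
  have hMM1 : M1 ≤ M := (le_max_left M1 M2).trans ((le_max_left _ _).trans hM)
  have hMM2 : M2 ≤ M := (le_max_right M1 M2).trans ((le_max_left _ _).trans hM)
  have hM0 : 0 < M := (le_max_right _ _).trans hM
  have hM' : (0 : ℝ) < M := Nat.cast_pos.2 hM0
  set I : ℝ := ∫ z, Phi T A Q p q L z.1 z.2 ∂ρ with hI
  set S : ℝ := (1 / M) * ∑ m ∈ Icc 1 M,
    Phi T A Q p q L (T^[p * m] x) (T^[q * m] x) with hSd
  have hI0 : 0 ≤ I := integral_nonneg fun z => phi_nonneg p q L _ _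
  have h2 : S ≤ I + (ε / 2) ^ 2 := by
    have h := hM1 M hMM1 (x, x)
    have h3 : ∀ m : ℕ, (Prod.map T^[p] T^[q])^[m] (x, x) = (T^[p * m] x, T^[q * m] x) := by
      intro m
      rw [Prod.map_iterate, Function.iterate_mul, Function.iterate_mul]
      rfl
    simp only [h3] at h
    exact h
  have h3 : Real.sqrt S ≤ Real.sqrt I + ε / 2 := by
    rw [← Real.sqrt_sq (show 0 ≤ Real.sqrt I + ε / 2 by positivity)]
    refine Real.sqrt_le_sqrt (h2.trans ?_)
    have h4 := Real.sq_sqrt hI0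
    have h5 := Real.sqrt_nonneg I
    nlinarith
  have h4 := vdc (T := T) hU p q L M hL x i j
  have h5 : ∑ m ∈ Icc 1 M, Real.sqrt (Phi T A Q p q L (T^[p * m] x) (T^[q * m] x)) ≤
      M * Real.sqrt S := HD.corr_sqrt_sum
    (fun m => Phi T A Q p q L (T^[p * m] x) (T^[q * m] x))
    (fun m => phi_nonneg (T := T) (A := A) (Q := Q) p q L _ _) M hM0
  have h6 : 2 * (L : ℝ) ≤ ε / 2 * M := by
    have h7 : 4 * L / ε ≤ (M : ℝ) := hM2.trans (by exact_mod_cast hMM2)
    rw [div_le_iff₀ hε] at h7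
    linarith
  calc ‖∑ m ∈ Icc 1 M, cp T A Q (p * m) x i j * conj (cp T A Q (q * m) x i j)‖
      ≤ (∑ m ∈ Icc 1 M, Real.sqrt (Phi T A Q p q L (T^[p * m] x) (T^[q * m] x))) + 2 * L := h4
    _ ≤ M * Real.sqrt S + 2 * L := by linarith
    _ ≤ M * (Real.sqrt I + ε / 2) + ε / 2 * M :=
        add_le_add (mul_le_mul_of_nonneg_left h3 hM'.le) h6
    _ = (Real.sqrt I + ε) * M := by ring

end Pool.Agent.Lib.MP_9fe581_an.HT
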