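import Pool.Agent.Lib.MP_9fe581_an.HT.Defs
import Pool.Agent.Lib.MP_9fe581_an.FT.Emp
import Pool.Agent.Lib.MP_9fe581_an.HT.Char

set_option linter.unusedSectionVars false

/-!
# HT, module B2: Fourier coefficients of the invariant measures of `T^p × T^q`
-/

open Finset MeasureTheory Filter Topology
open scoped ComplexConjugate Matrix

namespace Pool.Agent.Lib.MP_9fe581_an.HT

section Tower

variable {κ : Type} [Fintype κ] [DecidableEq κ]

local instance c2_borel : BorelSpace (TX κ × TX κ) := Prod.borelSpace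

theorem tower_corr (W : FT.Tower κ) (p q : ℕ) (ρ : Measure (TX κ × TX κ)) [IsFiniteMeasure ρ]
    (hρ : MeasurePreserving (Prod.map (FT.T W)^[p] (FT.T W)^[q]) ρ ρ) (m m' : κ →₀ ℤ) (s : ℕ)
    (hm : ∀ i, m i ≠ 0 → W.lev i ≤ s) (hm' : ∀ i, m' i ≠ 0 → W.lev i ≤ s)
    (h : ∃ l, W.lev l = s ∧ (p : ℤ) ^ (s + 1) * m l ≠ (q : ℤ) ^ (s + 1) * m' l) :
    ∫ z, ch m z.1 * conj (ch m' z.2) ∂ρ = 0 := by
  set c : TX κ × TX κ → TX κ × TX κ := Prod.map (FT.cut W (s + 1)) (FT.cut W (s + 1)) with hc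
  have hcc : Continuous c := (FT.continuous_cut W (s + 1)).prodMap (FT.continuous_cut W (s + 1))
  have hfin' : IsFiniteMeasure (Measure.map c ρ) := Measure.isFiniteMeasure_map ρ c
  have hSp : Measurable (FT.Sp W p q (s + 1)) := (FT.continuous_Sp W p q (s + 1)).measurable
  have hinv : MeasurePreserving (FT.Sp W p q (s + 1)) (Measure.map c ρ) (Measure.map c ρ) := by
    refine ⟨hSp, ?_⟩
    rw [Measure.map_map hSp hcc.measurable]
    have h1 : FT.Sp W p q (s + 1) ∘ c = c ∘ (Prod.map (FT.T W)^[p] (FT.T W)^[q]) := by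
      funext z
      refine Prod.ext ?_ ?_
      · exact (FT.cut_iter_T W (s + 1) p z.1).symm
      · exact (FT.cut_iter_T W (s + 1) q z.2).symm
    rw [h1, ← Measure.map_map hcc.measurable hρ.measurable, hρ.map_eq]
  obtain ⟨l, hl, hne⟩ := h
  have h2 := FT.HH_all W p q s (Measure.map c ρ) hfin' hinv m (-m') ⟨l, hl, by
    rw [Finsupp.neg_apply, mul_neg, ← sub_eq_add_neg]
    exact sub_ne_zero.2 hne⟩
  rw [integral_map hcc.measurable.aemeasurable
    (FT.continuous_ch m (-m')).measurable.aestronglyMeasurable] at h2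
  rw [← h2]
  refine integral_congr_ae (Eventually.of_forall fun z => ?_)
  change FT.ec (FT.pr m z.1) * conj (FT.ec (FT.pr m' z.2)) =
    FT.ec (FT.pr m (FT.cut W (s + 1) z.1) + FT.pr (-m') (FT.cut W (s + 1) z.2))
  have h3 : ∀ (k : κ →₀ ℤ), (∀ i, k i ≠ 0 → W.lev i ≤ s) → ∀ y, FT.pr k (FT.cut W (s + 1) y) = FT.pr k y := by
    intro k hk y
    refine FT.pr_congr _ _ _ fun i hi => FT.cut_lt W ?_ y
    have := hk i hi
    omega
  rw [h3 m hm, h3 (-m') (fun i hi => hm' i (by simpa using hi)), FT.ec_add, FT.pr_neg, FT.ec_neg]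

theorem tower_uniq (W : FT.Tower κ) (q : ℕ) (hq : 0 < q) (ν : Measure (TX κ)) [IsProbabilityMeasure ν]
    (hν : MeasurePreserving (FT.T W)^[q] ν ν) : ν = mX κ := by
  refine ch_ext ν (mX κ) fun m => ?_
  rw [ch_int]
  by_cases hm : m = 0
  · subst hm
    rw [if_pos rfl]
    simp_rw [ch_zero]
    simp
  · rw [if_neg hm]
    have hd : Measurable fun x : TX κ => (x, x) := (continuous_id.prodMk continuous_id).measurable
    have hpm : IsProbabilityMeasure (Measure.map (fun x : TX κ => (x, x)) ν) := Measure.isProbabilityMeasure_map hd.aemeasurable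
    have hinv : MeasurePreserving (Prod.map (FT.T W)^[q] (FT.T W)^[q]) (Measure.map (fun x : TX κ => (x, x)) ν)
        (Measure.map (fun x : TX κ => (x, x)) ν) := by
      have hTm : Measurable (Prod.map (FT.T W)^[q] (FT.T W)^[q]) := hν.measurable.prodMap hν.measurable
      refine ⟨hTm, ?_⟩
      rw [Measure.map_map hTm hd]
      have h1 : (Prod.map (FT.T W)^[q] (FT.T W)^[q]) ∘ (fun x : TX κ => (x, x)) = (fun x : TX κ => (x, x)) ∘ (FT.T W)^[q] := rfl
      rw [h1, ← Measure.map_map hd hν.measurable, hν.map_eq]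
    obtain ⟨l, hl, hmax⟩ := Finset.exists_max_image m.support W.lev (Finsupp.support_nonempty_iff.mpr hm)
    have h2 := tower_corr W q q _ hinv m 0 (W.lev l) (fun i hi => hmax i (Finsupp.mem_support_iff.2 hi)) (fun i hi => absurd rfl hi)
      ⟨l, rfl, by
        simp only [Finsupp.coe_zero, Pi.zero_apply, mul_zero]
        exact mul_ne_zero (by positivity) (Finsupp.mem_support_iff.1 hl)⟩
    rw [integral_map hd.aemeasurable] at h2
    · simpa [ch_zero] using h2
    · exact (((ch_cont m).comp continuous_fst).mul (Complex.continuous_conj.comp ((ch_cont 0).comp continuous_snd))).aestronglyMeasurable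

theorem tower_marg (W : FT.Tower κ) (p q : ℕ) (hp : 0 < p) (hq : 0 < q) (ρ : Measure (TX κ × TX κ)) [IsProbabilityMeasure ρ]
    (hρ : MeasurePreserving (Prod.map (FT.T W)^[p] (FT.T W)^[q]) ρ ρ) :
    Measure.map Prod.fst ρ = mX κ ∧ Measure.map Prod.snd ρ = mX κ := by
  have hTp : Measurable (FT.T W)^[p] := ((FT.continuous_T W).iterate p).measurable
  have hTq : Measurable (FT.T W)^[q] := ((FT.continuous_T W).iterate q).measurable
  have i1 : IsProbabilityMeasure (Measure.map Prod.fst ρ) := Measure.isProbabilityMeasure_map measurable_fst.aemeasurable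
  have i2 : IsProbabilityMeasure (Measure.map Prod.snd ρ) := Measure.isProbabilityMeasure_map measurable_snd.aemeasurable
  refine ⟨tower_uniq W p hp _ ⟨hTp, ?_⟩, tower_uniq W q hq _ ⟨hTq, ?_⟩⟩
  · rw [Measure.map_map hTp measurable_fst]
    have h1 : (FT.T W)^[p] ∘ Prod.fst = Prod.fst ∘ (Prod.map (FT.T W)^[p] (FT.T W)^[q]) := rfl
    rw [h1, ← Measure.map_map measurable_fst hρ.measurable, hρ.map_eq]
  · rw [Measure.map_map hTq measurable_snd]
    have h1 : (FT.T W)^[q] ∘ Prod.snd = Prod.snd ∘ (Prod.map (FT.T W)^[p] (FT.T W)^[q]) := rfl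
    rw [h1, ← Measure.map_map measurable_snd hρ.measurable, hρ.map_eq]

end Tower

end Pool.Agent.Lib.MP_9fe581_an.HT
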