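import Pool.Agent.Lib.MP_9fe581_an.HT.Defs
import Pool.Agent.Lib.MP_9fe581_an.HD.VonNeumann
import Pool.Agent.Lib.MP_9fe581_an.HT.Mono

/-!
# HT, module A9: the sequences `Dl j` satisfy von Neumann's inequality
-/

set_option autoImplicit false

open Finset MeasureTheory Filter Topology
open scoped ComplexConjugate Matrix

namespace Pool.Agent.Lib.MP_9fe581_an.HT

variable {X : Type} {ι : Type} [Fintype ι] [DecidableEq ι] {T : X → X} {A : X → Matrix ι ι ℂ}
  {Q : Matrix ι ι ℂ}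
variable [TopologicalSpace X] [CompactSpace X] [TopologicalSpace.MetrizableSpace X]
  [MeasurableSpace X] [BorelSpace X]

/-- the conjugate of `e` -/
private theorem dlvn_conj (x : ℝ) : conj (GT.e x) = GT.e (-x) := by
  unfold GT.e
  rw [← Complex.exp_conj]
  congr 1
  simp only [map_mul, Complex.conj_I, Complex.conj_ofReal, map_ofNat]
  push_cast
  ring

/-- von Neumann's inequality passes to the conjugate sequence -/
private theorem dlvn_star {a : ℕ → ℂ} {C : ℝ} (h : HD.VN a C) : HD.VN (fun n => conj (a n)) C := by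
  intro c N r B hB
  have h1 := h (fun n => conj (c n)) N r B (by
    intro θ
    have h2 : ∑ n ∈ Icc 1 N, conj (c n) * GT.e (n * θ) =
        conj (∑ n ∈ Icc 1 N, c n * GT.e (n * (-θ))) := by
      rw [map_sum]
      refine Finset.sum_congr rfl fun n _ => ?_
      rw [map_mul, dlvn_conj]
      congr 2
      ring
    rw [h2, Complex.norm_conj]
    exact hB (-θ))
  have h3 : ∑ n ∈ Icc 1 N, c n * conj (a (r * n)) =
      conj (∑ n ∈ Icc 1 N, conj (c n) * a (r * n)) := by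
    rw [map_sum]
    refine Finset.sum_congr rfl fun n _ => ?_
    rw [map_mul, Complex.conj_conj]
  show ‖∑ n ∈ Icc 1 N, c n * conj (a (r * n))‖ ≤ C * B
  rw [h3, Complex.norm_conj]
  exact h1

/-- von Neumann's inequality passes to the real parts -/
private theorem dlvn_re {a : ℕ → ℂ} {C : ℝ} (h : HD.VN a C) :
    HD.VN (fun n => (((a n).re : ℝ) : ℂ)) C := by
  intro c N r B hB
  have h1 := h c N r B hB
  have h2 := dlvn_star h c N r B hB
  have h3 : ∑ n ∈ Icc 1 N, c n * (((a (r * n)).re : ℝ) : ℂ) =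
      (1 / 2 : ℂ) * (∑ n ∈ Icc 1 N, c n * a (r * n) + ∑ n ∈ Icc 1 N, c n * conj (a (r * n))) := by
    rw [← Finset.sum_add_distrib, Finset.mul_sum]
    refine Finset.sum_congr rfl fun n _ => ?_
    rw [Complex.re_eq_add_conj]
    ring
  show ‖∑ n ∈ Icc 1 N, c n * (((a (r * n)).re : ℝ) : ℂ)‖ ≤ C * B
  rw [h3, norm_mul]
  have h4 : ‖(1 / 2 : ℂ)‖ = 1 / 2 := by norm_num
  rw [h4]
  have h5 := norm_add_le (∑ n ∈ Icc 1 N, c n * a (r * n)) (∑ n ∈ Icc 1 N, c n * conj (a (r * n)))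
  have h2' : ‖∑ n ∈ Icc 1 N, c n * conj (a (r * n))‖ ≤ C * B := h2
  linarith

/-- von Neumann's inequality for one measure -/
private theorem dlvn_ee {σ : Measure (X × X)} [IsProbabilityMeasure σ]
    (hσ : MeasurePreserving (Prod.map T T) σ σ) (hT : Continuous T) (hU : UC A Q) (c : ℕ → ℂ)
    (N r : ℕ) (B : ℝ) (hB : ∀ θ : ℝ, ‖∑ n ∈ Icc 1 N, c n * GT.e (n * θ)‖ ≤ B) :
    ‖∑ n ∈ Icc 1 N, c n * (((ee σ T A Q (r * n)).re : ℝ) : ℂ)‖ ≤ (Fintype.card ι : ℝ) ^ 2 * B := by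
  have hB0 : 0 ≤ B := (norm_nonneg _).trans (hB 0)
  refine (dlvn_re (HD.vn_of_posDef _ (ee_posDef hσ hT hU) (ee_zero_im hU)) c N r B hB).trans ?_
  exact mul_le_mul_of_nonneg_right (ee_zero_le hU) hB0

theorem Dl_vn {μ : Measure X} (g : Good T μ) (hU : UC A Q) (j : ℕ) :
    HD.VN (fun n => ((Dl g A Q j n : ℝ) : ℂ)) (2 * g.h * (Fintype.card ι : ℝ) ^ 2) := by
  intro c N r B hB
  have hB0 : 0 ≤ B := (norm_nonneg _).trans (hB 0)
  have h1 : ∑ n ∈ Icc 1 N, c n * ((Dl g A Q j (r * n) : ℝ) : ℂ) =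
      (1 / ((HD.Qb j).card : ℂ)) * ∑ q ∈ HD.Qb j, ∑ s,
        (∑ n ∈ Icc 1 N, c n * (((ee (g.σ s q) T A Q (r * n)).re : ℝ) : ℂ) -
          ∑ n ∈ Icc 1 N, c n * (((ee (g.σi s) T A Q (r * n)).re : ℝ) : ℂ)) := by
    unfold Dl
    simp only [← Finset.sum_sub_distrib]
    have h2 : ∀ q : ℕ, ∑ s, ∑ n ∈ Icc 1 N, (c n * (((ee (g.σ s q) T A Q (r * n)).re : ℝ) : ℂ) -
        c n * (((ee (g.σi s) T A Q (r * n)).re : ℝ) : ℂ)) =
        ∑ n ∈ Icc 1 N, ∑ s, (c n * (((ee (g.σ s q) T A Q (r * n)).re : ℝ) : ℂ) -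
        c n * (((ee (g.σi s) T A Q (r * n)).re : ℝ) : ℂ)) := fun q => Finset.sum_comm
    simp only [h2]
    rw [Finset.sum_comm, Finset.mul_sum]
    refine Finset.sum_congr rfl fun n _ => ?_
    push_cast
    simp only [← mul_sub, Complex.sub_re, Complex.ofReal_sub]
    simp only [← Finset.mul_sum]
    ring
  show ‖∑ n ∈ Icc 1 N, c n * ((Dl g A Q j (r * n) : ℝ) : ℂ)‖ ≤ _
  rw [h1, norm_mul, norm_div, norm_one, Complex.norm_natCast]
  rcases Nat.eq_zero_or_pos (HD.Qb j).card with h0 | h0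
  · rw [h0]
    simp only [Nat.cast_zero, div_zero, zero_mul]
    positivity
  have h0' : (0 : ℝ) < (HD.Qb j).card := by exact_mod_cast h0
  rw [one_div, inv_mul_le_iff₀ h0']
  calc _ ≤ ∑ q ∈ HD.Qb j, ∑ s : Fin g.h,
          ‖∑ n ∈ Icc 1 N, c n * (((ee (g.σ s q) T A Q (r * n)).re : ℝ) : ℂ) -
          ∑ n ∈ Icc 1 N, c n * (((ee (g.σi s) T A Q (r * n)).re : ℝ) : ℂ)‖ :=
        (norm_sum_le _ _).trans (Finset.sum_le_sum fun q _ => norm_sum_le _ _)
    _ ≤ ∑ q ∈ HD.Qb j, ∑ _s : Fin g.h, (2 * (Fintype.card ι : ℝ) ^ 2 * B) := by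
      refine Finset.sum_le_sum fun q hq => Finset.sum_le_sum fun s _ => ?_
      have hq0 : 0 < q := by
        unfold HD.Qb at hq
        exact (mem_filter.1 hq).2.pos
      have := g.probσ s q hq0
      have := g.probi s
      calc _ ≤ _ := norm_sub_le _ _
        _ ≤ (Fintype.card ι : ℝ) ^ 2 * B + (Fintype.card ι : ℝ) ^ 2 * B :=
          add_le_add (dlvn_ee (g.invσ s q hq0) g.cont hU c N r B hB)
            (dlvn_ee (g.invi s) g.cont hU c N r B hB)
        _ = _ := by ring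
    _ = _ := by
      rw [Finset.sum_const, Finset.sum_const, nsmul_eq_mul, nsmul_eq_mul, Finset.card_univ,
        Fintype.card_fin]
      ring

end Pool.Agent.Lib.MP_9fe581_an.HT
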