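import Pool.Agent.Lib.MP_9fe581_an.HT.Defs
import Pool.Agent.Lib.MP_9fe581_an.HD.Fix

/-!
# HT / Iter: iterates of the skew product and of the cocycle of matrix coefficients
-/

set_option autoImplicit false
set_option linter.unusedSectionVars false

open Finset MeasureTheory Filter Topology
open scoped ComplexConjugate Matrix

namespace Pool.Agent.Lib.MP_9fe581_an.HT

theorem it_unit {w : ℂ} (h : ‖w‖ = 1) : w * conj w = 1 := by
  rw [Complex.mul_conj, Complex.normSq_eq_norm_sq, h]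
  norm_num

theorem it_unit' {w : ℂ} (h : ‖w‖ = 1) : conj w * w = 1 := by
  rw [mul_comm, it_unit h]

/-- the factor of `AG` is unimodular -/
theorem it_fac {v w : ℂ} (hv : ‖v‖ = 1) (hw : ‖w‖ = 1) :
    (v * conj w) * conj (v * conj w) = 1 := by
  apply it_unit
  rw [norm_mul, RCLike.norm_conj, hv, hw, one_mul]

variable {X : Type} {ι : Type} [Fintype ι] [DecidableEq ι] {T : X → X}
  {G : Type} [Group G] [TopologicalSpace G] [IsTopologicalGroup G]
  [CompactSpace G] [T2Space G] [SecondCountableTopology G] [MeasurableSpace G] [BorelSpace G]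
  {μ : Measure G} [μ.IsHaarMeasure] [IsProbabilityMeasure μ] {φ : X → G}

theorem AG_uc [TopologicalSpace X] {π : G → Matrix ι ι ℂ} (hπ : HD.URep π) {χ : X → ℂ} (hχ : Continuous χ) (hχ1 : ∀ x, ‖χ x‖ = 1)
    (hT : Continuous T) (hφ : Continuous φ) : UC (AG μ π T χ φ) (1 - HD.fixP μ π) where
  cont := by
    have h : Continuous fun x => (1 - HD.fixP μ π) * π (φ x) :=
      Continuous.matrix_mul continuous_const (hπ.cont.comp hφ)
    have h2 : Continuous fun x => χ (T x) * conj (χ x) :=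
      (hχ.comp hT).mul (Complex.continuous_conj.comp hχ)
    exact h2.smul h
  QH := by rw [Matrix.conjTranspose_sub, Matrix.conjTranspose_one, HD.fixP_H hπ]
  QQ := HD.fx_QQ hπ
  QA x := by
    rw [AG, Matrix.mul_smul, ← Matrix.mul_assoc, HD.fx_QQ hπ]
  AQ x := by
    rw [AG, Matrix.smul_mul, HD.fx_cut hπ]
  AAH x := by
    rw [AG, Matrix.conjTranspose_smul, Matrix.smul_mul, Matrix.mul_smul, smul_smul,
      Matrix.conjTranspose_mul, Matrix.conjTranspose_sub, Matrix.conjTranspose_one, HD.fixP_H hπ,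
      Matrix.mul_assoc, ← Matrix.mul_assoc (π (φ x)), hπ.uni, one_mul, HD.fx_QQ hπ]
    rw [show (χ (T x) * conj (χ x)) * star (χ (T x) * conj (χ x)) = 1 from
      it_fac (hχ1 _) (hχ1 _), one_smul]
  AHA x := by
    rw [AG, Matrix.conjTranspose_smul, Matrix.smul_mul, Matrix.mul_smul, smul_smul,
      Matrix.conjTranspose_mul, Matrix.conjTranspose_sub, Matrix.conjTranspose_one, HD.fixP_H hπ,
      Matrix.mul_assoc, ← Matrix.mul_assoc (1 - HD.fixP μ π), HD.fx_QQ hπ, sub_mul, one_mul,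
      HD.fixP_pi hπ, mul_sub, HD.fx_uni' hπ, ← HD.fx_inv hπ, HD.pi_fixP hπ]
    rw [mul_comm, show (χ (T x) * conj (χ x)) * star (χ (T x) * conj (χ x)) = 1 from
      it_fac (hχ1 _) (hχ1 _), one_smul]

theorem skew_iter (T : X → X) (φ : X → G) (n : ℕ) (z : X × G) :
    (skew T φ)^[n] z = (T^[n] z.1, pr T φ n z.1 * z.2) := by
  induction n with
  | zero => simp [pr]
  | succ n ih =>
    rw [Function.iterate_succ_apply', ih]
    simp only [skew, pr]
    rw [Function.iterate_succ_apply', mul_assoc]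

theorem cp_AG {π : G → Matrix ι ι ℂ} (hπ : HD.URep π) {χ : X → ℂ} (hχ1 : ∀ x, ‖χ x‖ = 1) (n : ℕ) (x : X) :
    cp T (AG μ π T χ φ) (1 - HD.fixP μ π) n x =
      (χ (T^[n] x) * conj (χ x)) • ((1 - HD.fixP μ π) * π (pr T φ n x)) := by
  induction n with
  | zero =>
    rw [cp, pr, hπ.one, mul_one, Function.iterate_zero_apply, it_unit (hχ1 x), one_smul]
  | succ n ih =>
    rw [cp, ih, AG, pr, Matrix.smul_mul, Matrix.mul_smul, smul_smul, ← Matrix.mul_assoc, HD.fx_cut hπ,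
      Matrix.mul_assoc, ← hπ.mul, Function.iterate_succ_apply']
    congr 1
    calc χ (T (T^[n] x)) * conj (χ (T^[n] x)) * (χ (T^[n] x) * conj (χ x))
        = (conj (χ (T^[n] x)) * χ (T^[n] x)) * (χ (T (T^[n] x)) * conj (χ x)) := by ring
      _ = _ := by rw [it_unit' (hχ1 _), one_mul]

/-- value along the orbit of the coefficient `χ x * ((1 - P) * π y) i j` -/
theorem coef_orbit {π : G → Matrix ι ι ℂ} (hπ : HD.URep π) {χ : X → ℂ} (hχ1 : ∀ x, ‖χ x‖ = 1) (n : ℕ) (z : X × G) (i j : ι) :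
    χ ((skew T φ)^[n] z).1 * ((1 - HD.fixP μ π) * π ((skew T φ)^[n] z).2) i j =
      ∑ a, χ z.1 * π z.2 a j * cp T (AG μ π T χ φ) (1 - HD.fixP μ π) n z.1 i a := by
  rw [skew_iter]
  simp only [cp_AG hπ hχ1]
  rw [hπ.mul, ← Matrix.mul_assoc, Matrix.mul_apply, Finset.mul_sum]
  refine Finset.sum_congr rfl fun a _ => ?_
  rw [Matrix.smul_apply, smul_eq_mul]
  calc χ (T^[n] z.1) * (((1 - HD.fixP μ π) * π (pr T φ n z.1)) i a * π z.2 a j)
      = (χ z.1 * conj (χ z.1)) *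
        (χ (T^[n] z.1) * (((1 - HD.fixP μ π) * π (pr T φ n z.1)) i a * π z.2 a j)) := by
        rw [it_unit (hχ1 _), one_mul]
    _ = _ := by ring

/-- same, for the trace -/
theorem coef_trace {π : G → Matrix ι ι ℂ} (hπ : HD.URep π) {χ : X → ℂ} (hχ1 : ∀ x, ‖χ x‖ = 1) (n : ℕ) (z : X × G) :
    ∑ i, ∑ j, (χ ((skew T φ)^[n] z).1 * ((1 - HD.fixP μ π) * π ((skew T φ)^[n] z).2) i j) *
      conj (χ z.1 * ((1 - HD.fixP μ π) * π z.2) i j) = (cp T (AG μ π T χ φ) (1 - HD.fixP μ π) n z.1).trace := by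
  set F : Matrix ι ι ℂ := (1 - HD.fixP μ π) * π z.2 with hF
  set H : Matrix ι ι ℂ := (1 - HD.fixP μ π) * π ((skew T φ)^[n] z).2 with hH
  have h1 : ∀ i j, (χ ((skew T φ)^[n] z).1 * H i j) * conj (χ z.1 * F i j) =
      (χ (T^[n] z.1) * conj (χ z.1)) * (H i j * (Fᴴ) j i) := by
    intro i j
    have e1 : χ ((skew T φ)^[n] z).1 = χ (T^[n] z.1) := by
      rw [skew_iter]
    rw [e1, map_mul, Matrix.conjTranspose_apply]
    calc χ (T^[n] z.1) * H i j * (conj (χ z.1) * conj (F i j))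
        = (χ (T^[n] z.1) * conj (χ z.1)) * (H i j * conj (F i j)) := by
          ring
      _ = _ := rfl
  rw [Finset.sum_congr rfl fun i _ => Finset.sum_congr rfl fun j _ => h1 i j]
  have h2 : H * Fᴴ = (1 - HD.fixP μ π) * π (pr T φ n z.1) := by
    rw [hH, hF, skew_iter, hπ.mul, Matrix.conjTranspose_mul, Matrix.conjTranspose_sub,
      Matrix.conjTranspose_one, HD.fixP_H hπ]
    calc (1 - HD.fixP μ π) * (π (pr T φ n z.1) * π z.2) * ((π z.2)ᴴ * (1 - HD.fixP μ π))
        = (1 - HD.fixP μ π) * π (pr T φ n z.1) * (π z.2 * (π z.2)ᴴ) * (1 - HD.fixP μ π) := by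
          simp only [Matrix.mul_assoc]
      _ = _ := by rw [hπ.uni, mul_one, HD.fx_cut hπ]
  rw [cp_AG hπ hχ1, ← h2, Matrix.trace_smul, smul_eq_mul, Matrix.trace]
  simp only [Matrix.diag_apply, Matrix.mul_apply, Finset.mul_sum]

end Pool.Agent.Lib.MP_9fe581_an.HT
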