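import Pool.Agent.Lib.MP_9fe581_an.HD.RightInv
import Pool.Agent.Lib.MP_9fe581_an.HD.Simple
import Pool.Agent.Lib.MP_9fe581_an.HD.MeanErg
import Pool.Agent.Lib.MP_9fe581_an.HT.Iter

set_option autoImplicit false
set_option linter.unusedSectionVars false

/-!
# HT / ErgRep: ergodic extensions by a connected group have no rational eigenvalues off the fixed vectors
-/

open Finset MeasureTheory Filter Topology
open scoped ComplexConjugate Matrix

namespace Pool.Agent.Lib.MP_9fe581_an.HT

/-! ### Preliminaries -/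

section prelim

/-- composition of the class of a continuous function -/
private theorem er_comp {X : Type} [TopologicalSpace X] [CompactSpace X] [MeasurableSpace X]
    [BorelSpace X] {ν : Measure X} [IsFiniteMeasure ν] {R : X → X}
    (hR : MeasurePreserving R ν ν) (f f' : C(X, ℂ)) (hf : ∀ z, f' z = f (R z)) :
    Lp.compMeasurePreserving R hR (ContinuousMap.toLp (E := ℂ) 2 ν ℂ f) =
      ContinuousMap.toLp (E := ℂ) 2 ν ℂ f' := by
  apply Lp.ext
  filter_upwards [Lp.coeFn_compMeasurePreserving (ContinuousMap.toLp (E := ℂ) 2 ν ℂ f) hR,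
    hR.quasiMeasurePreserving.ae_eq_comp (ContinuousMap.coeFn_toLp (𝕜 := ℂ) ν (p := 2) f),
    ContinuousMap.coeFn_toLp (𝕜 := ℂ) ν (p := 2) f'] with z h1 h2 h3
  rw [h1, h2, h3, hf]
  rfl

/-- a continuous function on a connected space with values in the `q`-th roots of unity is constant -/
private theorem er_const {Y : Type} [TopologicalSpace Y] [ConnectedSpace Y] {χ : Y → ℂ}
    (hχ : Continuous χ) {q : ℕ} (hq : 0 < q) (h : ∀ y, χ y ^ q = 1) (x y : Y) : χ x = χ y := by
  have hfin : ({z : ℂ | z ^ q = 1} : Set ℂ).Finite := by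
    have h1 : ({z : ℂ | z ^ q = 1} : Set ℂ) ⊆ (Polynomial.nthRootsFinset q (1 : ℂ) : Set ℂ) := by
      intro z hz
      rw [Finset.mem_coe, Polynomial.mem_nthRootsFinset hq]
      exact hz
    exact (Finset.finite_toSet _).subset h1
  exact (isPreconnected_univ (α := Y)).constant_of_mapsTo (T := {z : ℂ | z ^ q = 1})
    hfin.isDiscrete hχ.continuousOn (fun y _ => h y) (Set.mem_univ x) (Set.mem_univ y)

end prelim

/-! ### The classes of the coefficients -/

section main

variable {X : Type} [TopologicalSpace X] [CompactSpace X] [TopologicalSpace.MetrizableSpace X] [MeasurableSpace X] [BorelSpace X]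
  {ν : Measure X} [IsProbabilityMeasure ν]
  {ι : Type} [Fintype ι] [DecidableEq ι] {G : Type} [Group G] [TopologicalSpace G] [IsTopologicalGroup G]
  [CompactSpace G] [T2Space G] [SecondCountableTopology G] [MeasurableSpace G] [BorelSpace G]
  {μ : Measure G} [μ.IsHaarMeasure] [IsProbabilityMeasure μ] {T : X → X} {φ : X → G}
  {π : G → Matrix ι ι ℂ} {χ : X → ℂ}

/-- the coefficient as a continuous function -/
private noncomputable def erF (μ : Measure G) (hπ : HD.URep π) (hχ : Continuous χ) (i j : ι) :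
    C(X × G, ℂ) where
  toFun z := χ z.1 * ((1 - HD.fixP μ π) * π z.2) i j
  continuous_toFun := by
    refine (hχ.comp continuous_fst).mul ?_
    exact (continuous_const.matrix_mul (hπ.cont.comp continuous_snd)).matrix_elem i j

private theorem erF_apply (hπ : HD.URep π) (hχ : Continuous χ) (i j : ι) (z : X × G) :
    erF μ hπ hχ i j z = χ z.1 * ((1 - HD.fixP μ π) * π z.2) i j := rfl

/-- the class in `L²` -/
private noncomputable def erL (ν : Measure X) [IsProbabilityMeasure ν] (μ : Measure G) [IsProbabilityMeasure μ]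
    (hπ : HD.URep π) (hχ : Continuous χ) (i j : ι) : Lp ℂ 2 (ν.prod μ) :=
  ContinuousMap.toLp (E := ℂ) 2 (ν.prod μ) ℂ (erF μ hπ hχ i j)

/-- right translation -/
private def erR (X : Type) (g : G) (z : X × G) : X × G := (z.1, z.2 * g)

private theorem erR_mp (g : G) :
    MeasurePreserving (erR X g) (ν.prod μ) (ν.prod μ) := by
  have := HD.haar_right μ
  exact (MeasurePreserving.id ν).prod (measurePreserving_mul_right μ g)

private theorem erR_comm (g : G) (z : X × G) :
    erR X g (skew T φ z) = skew T φ (erR X g z) := by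
  simp only [erR, skew, mul_assoc]

/-- right translation of the coefficients -/
private theorem er_trans (hπ : HD.URep π) (hχ : Continuous χ) (i j : ι) (g : G) :
    Lp.compMeasurePreserving (erR X g) (erR_mp g) (erL ν μ hπ hχ i j) =
      ∑ a, π g a j • erL ν μ hπ hχ i a := by
  have h1 := er_comp (erR_mp (X := X) (ν := ν) (μ := μ) g) (erF μ hπ hχ i j)
    (∑ a, π g a j • erF μ hπ hχ i a) (by
      intro z
      rw [erF_apply]
      simp only [ContinuousMap.coe_sum, ContinuousMap.coe_smul, Finset.sum_apply, Pi.smul_apply,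
        smul_eq_mul, erF_apply, erR]
      rw [hπ.mul, ← Matrix.mul_assoc, Matrix.mul_apply, mul_sum]
      refine sum_congr rfl fun a _ => ?_
      ring)
  unfold erL
  rw [h1, map_sum]
  simp only [map_smul]

/-- the fixed vectors are annihilated -/
private theorem er_fix (hπ : HD.URep π) (hχ : Continuous χ) (i j : ι) :
    ∑ a, HD.fixP μ π a j • erL ν μ hπ hχ i a = 0 := by
  have h1 : ∑ a, HD.fixP μ π a j • erF μ hπ hχ i a = 0 := by
    ext z
    simp only [ContinuousMap.coe_sum, ContinuousMap.coe_smul, Finset.sum_apply, Pi.smul_apply,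
      smul_eq_mul, erF_apply, ContinuousMap.coe_zero, Pi.zero_apply]
    have h2 : ((1 - HD.fixP μ π) * π z.2) * HD.fixP μ π = 0 := by
      rw [Matrix.mul_assoc, HD.pi_fixP hπ, Matrix.sub_mul, Matrix.one_mul, HD.fixP_sq hπ, sub_self]
    have h3 := congrFun (congrFun h2 i) j
    rw [Matrix.mul_apply, Matrix.zero_apply] at h3
    rw [← mul_zero (χ z.1), ← h3, mul_sum]
    refine sum_congr rfl fun a _ => ?_
    ring
  have h2 : ∑ a, HD.fixP μ π a j • erL ν μ hπ hχ i a =
      ContinuousMap.toLp (E := ℂ) 2 (ν.prod μ) ℂ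
        (∑ a, HD.fixP μ π a j • erF μ hπ hχ i a) := by
    rw [map_sum]
    simp only [map_smul]
    rfl
  rw [h2, h1, map_zero]

/-- the projections on the eigenfunctions of finite order are zero -/
private theorem er_proj [ConnectedSpace G] (hπ : HD.URep π) (hχ : Continuous χ)
    (hT : Ergodic (skew T φ) (ν.prod μ)) (w : ℂ) (hw : ‖w‖ = 1) (q : ℕ) (hq : 0 < q)
    (hwq : w ^ q = 1) (P : Lp ℂ 2 (ν.prod μ) →L[ℂ] Lp ℂ 2 (ν.prod μ))
    (h1 : ∀ f : Lp ℂ 2 (ν.prod μ), ∀ᵐ z ∂(ν.prod μ), (P f) (skew T φ z) = w * (P f) z)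
    (h3 : ∀ (R : X × G → X × G) (hR : MeasurePreserving R (ν.prod μ) (ν.prod μ)),
      (∀ z, R (skew T φ z) = skew T φ (R z)) → ∀ f : Lp ℂ 2 (ν.prod μ),
        P (Lp.compMeasurePreserving R hR f) = Lp.compMeasurePreserving R hR (P f))
    (i j : ι) : P (erL ν μ hπ hχ i j) = 0 := by
  by_contra hne
  set h : ι → Lp ℂ 2 (ν.prod μ) := fun a => P (erL ν μ hπ hχ i a) with hh
  have hj : h j ≠ 0 := hne
  have hj0 : ¬ ((h j : X × G → ℂ) =ᵐ[ν.prod μ] 0) := by
    intro h0
    exact hj ((Lp.eq_zero_iff_ae_eq_zero).mpr h0)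
  -- the coefficients are multiples of one of them
  have hc : ∀ a, ∃ c : ℂ, h a = c • h j := by
    intro a
    obtain ⟨c, hc⟩ := HD.eig_simple hT w hw (Lp.aestronglyMeasurable (h j))
      (Lp.aestronglyMeasurable (h a)) (h1 _) (h1 _) hj0
    refine ⟨c, Lp.ext ?_⟩
    filter_upwards [hc, Lp.coeFn_smul c (h j)] with z e1 e2
    rw [e1, e2, Pi.smul_apply, smul_eq_mul]
  choose c hc using hc
  set ψ : G → ℂ := fun g => ∑ a, π g a j * c a with hψ
  have hψc : Continuous ψ := by
    refine continuous_finsetSum _ fun a _ => ?_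
    exact (hπ.cont.matrix_elem a j).mul continuous_const
  have htr : ∀ g, Lp.compMeasurePreserving (erR X g) (erR_mp g) (h j) = ψ g • h j := by
    intro g
    have e1 := h3 (erR X g) (erR_mp g) (erR_comm g) (erL ν μ hπ hχ i j)
    rw [← e1, er_trans, map_sum]
    have e2 : ∀ a, P (π g a j • erL ν μ hπ hχ i a) = (π g a j * c a) • h j := by
      intro a
      rw [map_smul, mul_smul, ← hc a]
    rw [sum_congr rfl fun a _ => e2 a, ← sum_smul]
  -- the character has finite order
  obtain ⟨κ, hκ0, hκ⟩ := HD.eig_pow hT w hw q hwq (Lp.aestronglyMeasurable (h j)) (h1 _) hj0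
  have hroot : ∀ g, ψ g ^ q = 1 := by
    intro g
    have e1 : (Lp.compMeasurePreserving (erR X g) (erR_mp g) (h j) : X × G → ℂ)
        =ᵐ[ν.prod μ] (ψ g • h j : Lp ℂ 2 (ν.prod μ)) := by rw [htr g]
    have hae : ∀ᵐ z ∂(ν.prod μ), ψ g ^ q * κ = κ := by
      filter_upwards [hκ, (erR_mp (X := X) (ν := ν) (μ := μ) g).quasiMeasurePreserving.ae hκ,
        Lp.coeFn_compMeasurePreserving (h j) (erR_mp g), e1, Lp.coeFn_smul (ψ g) (h j)] with z
        f1 f2 f3 f4 f5
      have f6 : (h j : X × G → ℂ) (erR X g z) = ψ g * (h j : X × G → ℂ) z := by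
        have f7 : (h j : X × G → ℂ) (erR X g z) =
            (Lp.compMeasurePreserving (erR X g) (erR_mp g) (h j) : X × G → ℂ) z := by
          rw [f3]; rfl
        rw [f7, f4, f5, Pi.smul_apply, smul_eq_mul]
      rw [f6, mul_pow, f1] at f2
      exact f2
    obtain ⟨z, hz⟩ := hae.exists
    exact mul_right_cancel₀ hκ0 (hz.trans (one_mul κ).symm)
  have hcj : c j = 1 := by
    have e1 := hc j
    have e2 : (c j - 1) • h j = 0 := by
      rw [sub_smul, one_smul, ← e1, sub_self]
    rcases smul_eq_zero.mp e2 with e3 | e3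
    · exact sub_eq_zero.mp e3
    · exact absurd e3 hj
  have hψ1 : ψ 1 = 1 := by
    rw [hψ]
    simp only [hπ.one]
    rw [Finset.sum_eq_single j]
    · rw [Matrix.one_apply_eq, one_mul, hcj]
    · intro a _ haj
      rw [Matrix.one_apply_ne haj, zero_mul]
    · intro h0
      exact absurd (mem_univ j) h0
  have hψ2 : ∀ g, ψ g = 1 := fun g => (er_const hψc hq hroot g 1).trans hψ1
  -- integrate over the group
  have hint : ∑ a, HD.fixP μ π a j * c a = 1 := by
    have e1 : ∫ g, ψ g ∂μ = 1 := by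
      simp only [hψ2]
      simp
    rw [← e1, hψ, integral_finsetSum]
    · refine sum_congr rfl fun a _ => ?_
      rw [integral_mul_const]
      rfl
    · intro a _
      exact ((hπ.cont.matrix_elem a j).mul continuous_const).integrable_of_hasCompactSupport
        (HasCompactSupport.of_compactSpace _)
  have hz : h j = 0 := by
    have e1 : h j = (∑ a, HD.fixP μ π a j * c a) • h j := by rw [hint, one_smul]
    rw [e1, sum_smul]
    have e2 : ∀ a, (HD.fixP μ π a j * c a) • h j = P (HD.fixP μ π a j • erL ν μ hπ hχ i a) := by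
      intro a
      rw [map_smul, mul_smul, ← hc a]
    rw [sum_congr rfl fun a _ => e2 a, ← map_sum, er_fix, map_zero]
  exact hj hz

/-- the inner product of a coefficient with its translate -/
private theorem er_inner (hπ : HD.URep π) (hχ : Continuous χ) {S : X × G → X × G}
    (hS : MeasurePreserving S (ν.prod μ) (ν.prod μ)) (i j : ι) :
    inner ℂ (erL ν μ hπ hχ i j) (Lp.compMeasurePreserving S hS (erL ν μ hπ hχ i j)) =
      ∫ z, erF μ hπ hχ i j (S z) * conj (erF μ hπ hχ i j z) ∂(ν.prod μ) := by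
  rw [L2.inner_def]
  apply integral_congr_ae
  filter_upwards [Lp.coeFn_compMeasurePreserving (erL ν μ hπ hχ i j) hS,
    hS.quasiMeasurePreserving.ae_eq_comp
      (ContinuousMap.coeFn_toLp (𝕜 := ℂ) (ν.prod μ) (p := 2) (erF μ hπ hχ i j)),
    ContinuousMap.coeFn_toLp (𝕜 := ℂ) (ν.prod μ) (p := 2) (erF μ hπ hχ i j)] with z e1 e2 e3
  have e4 : (erL ν μ hπ hχ i j : X × G → ℂ) z = erF μ hπ hχ i j z := e3
  have e5 : (Lp.compMeasurePreserving S hS (erL ν μ hπ hχ i j) : X × G → ℂ) z =
      erF μ hπ hχ i j (S z) := by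
    rw [e1]
    exact e2
  rw [e4, e5]
  simp [mul_comm]

end main

variable {X : Type} {ι : Type} [Fintype ι] [DecidableEq ι] {T : X → X}
  {G : Type} [Group G] [TopologicalSpace G] [IsTopologicalGroup G]
  [CompactSpace G] [T2Space G] [SecondCountableTopology G] [MeasurableSpace G] [BorelSpace G]
  {μ : Measure G} [μ.IsHaarMeasure] [IsProbabilityMeasure μ] {φ : X → G}

theorem noRat_AG [TopologicalSpace X] [CompactSpace X] [TopologicalSpace.MetrizableSpace X] [MeasurableSpace X] [BorelSpace X]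
    {ν : Measure X} [IsProbabilityMeasure ν] (hT : Continuous T) [ConnectedSpace G]
    {π : G → Matrix ι ι ℂ} (hπ : HD.URep π) {χ : X → ℂ} (hχ : Continuous χ) (hχ1 : ∀ x, ‖χ x‖ = 1) (hφ : Continuous φ)
    (hE : Ergodic (skew T φ) (ν.prod μ)) : HD.NoRat (aa ν T (AG μ π T χ φ) (1 - HD.fixP μ π)) := by
  intro b q hq
  set w : ℂ := GT.e ((b : ℝ) / q) with hw
  have hw1 : ‖w‖ = 1 := GT.norm_e _
  have hwn : ∀ n : ℕ, (conj w) ^ n = GT.e (-(n * ((b : ℝ) / q))) := by
    intro n
    have e1 : conj w = GT.e (-((b : ℝ) / q)) := by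
      rw [hw, GT.e, GT.e, ← Complex.exp_conj]
      congr 1
      rw [map_mul, Complex.conj_I, map_mul, map_mul, Complex.conj_ofReal, Complex.conj_ofReal,
        map_ofNat, Complex.ofReal_neg]
      ring
    rw [e1]
    induction n with
    | zero => simp [GT.e]
    | succ n ih =>
      rw [pow_succ, ih, ← GT.e_add]
      congr 1
      push_cast
      ring
  have hwq : w ^ q = 1 := by
    have e1 := hwn q
    have e2 : -((q : ℝ) * ((b : ℝ) / q)) = -(b : ℝ) := by
      have : (q : ℝ) ≠ 0 := by exact_mod_cast hq.ne'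
      field_simp
    rw [e2] at e1
    have e3 : GT.e (-(b : ℝ)) = 1 := by
      have e4 := GT.e_add (-(b : ℝ)) b
      rw [neg_add_cancel, GT.e_nat, mul_one] at e4
      rw [← e4]
      simp [GT.e]
    rw [e3] at e1
    have e5 := congrArg conj e1
    rw [map_pow, map_one, Complex.conj_conj] at e5
    exact e5
  obtain ⟨P, h1, h2, h3⟩ := HD.mean_erg hE.toMeasurePreserving w hw1
  have hP : ∀ i j, P (erL ν μ hπ hχ i j) = 0 :=
    fun i j => er_proj hπ hχ hE w hw1 q hq hwq P h1 h3 i j
  -- the correlations as inner products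
  have haa : ∀ n, aa ν T (AG μ π T χ φ) (1 - HD.fixP μ π) n = ∑ i, ∑ j,
      inner ℂ (erL ν μ hπ hχ i j) (Lp.compMeasurePreserving ((skew T φ)^[n])
        (hE.toMeasurePreserving.iterate n) (erL ν μ hπ hχ i j)) := by
    intro n
    have hS := hE.toMeasurePreserving.iterate n
    have hskew : Continuous (skew T φ) := by
      refine (hT.comp continuous_fst).prodMk ?_
      exact (hφ.comp continuous_fst).mul continuous_snd
    have e1 : aa ν T (AG μ π T χ φ) (1 - HD.fixP μ π) n =
        ∫ z, (cp T (AG μ π T χ φ) (1 - HD.fixP μ π) n z.1).trace ∂(ν.prod μ) := by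
      rw [integral_fun_fst (fun x => (cp T (AG μ π T χ φ) (1 - HD.fixP μ π) n x).trace)]
      simp [aa, trc]
    have hScont : Continuous ((skew T φ)^[n]) := hskew.iterate n
    have hInt : ∀ i j, Integrable (fun z => erF μ hπ hχ i j ((skew T φ)^[n] z) *
        conj (erF μ hπ hχ i j z)) (ν.prod μ) := by
      intro i j
      refine Continuous.integrable_of_hasCompactSupport ?_ (HasCompactSupport.of_compactSpace _)
      exact ((erF μ hπ hχ i j).continuous.comp hScont).mul
        (Complex.continuous_conj.comp (erF μ hπ hχ i j).continuous)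
    have e2 : (fun z : X × G => (cp T (AG μ π T χ φ) (1 - HD.fixP μ π) n z.1).trace) =
        fun z => ∑ i, ∑ j, erF μ hπ hχ i j ((skew T φ)^[n] z) * conj (erF μ hπ hχ i j z) := by
      funext z
      exact (coef_trace (μ := μ) (T := T) (φ := φ) hπ hχ1 n z).symm
    rw [e1, e2, integral_finsetSum _ fun i _ => integrable_finsetSum _ fun j _ => hInt i j]
    refine sum_congr rfl fun i _ => ?_
    rw [integral_finsetSum _ fun j _ => hInt i j]
    refine sum_congr rfl fun j _ => ?_
    exact (er_inner hπ hχ hS i j).symm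
  -- the averages
  have hlim : Tendsto (fun N : ℕ => ∑ i, ∑ j, inner ℂ (erL ν μ hπ hχ i j)
      ((1 / (N : ℂ)) • ∑ n ∈ Icc 1 N, (conj w) ^ n •
        Lp.compMeasurePreserving ((skew T φ)^[n]) (hE.toMeasurePreserving.iterate n)
          (erL ν μ hπ hχ i j))) atTop (𝓝 (∑ i : ι, ∑ j : ι, 0)) := by
    refine tendsto_finsetSum _ fun i _ => tendsto_finsetSum _ fun j _ => ?_
    have e1 := (tendsto_const_nhds (x := erL ν μ hπ hχ i j)).inner (𝕜 := ℂ) (h2 (erL ν μ hπ hχ i j))
    rw [hP i j, inner_zero_right] at e1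
    exact e1
  simp only [sum_const_zero] at hlim
  refine hlim.congr fun N => ?_
  simp only [inner_smul_right, inner_sum, haa]
  rw [mul_sum]
  simp only [sum_mul, mul_sum]
  rw [sum_congr rfl fun i _ => sum_comm, sum_comm]
  refine sum_congr rfl fun n _ => sum_congr rfl fun i _ => sum_congr rfl fun j _ => ?_
  rw [hwn n]
  ring

end Pool.Agent.Lib.MP_9fe581_an.HT
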