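import Pool.Agent.Lib.MP_9fe581_an.HT.SuInv
import Pool.Agent.Lib.MP_9fe581_an.FT.Dens
import Pool.Agent.Lib.MP_9fe581_an.FT.Emp

/-!
# HT / SqSi: `sq` and `si` are averages of `su`
-/

open Finset MeasureTheory Filter Topology
open scoped ComplexConjugate Matrix

namespace Pool.Agent.Lib.MP_9fe581_an.HT

/-- parametric integrals over compact spaces -/
theorem sqsi_cont {A B : Type} [TopologicalSpace A] [CompactSpace A] [FirstCountableTopology A] [TopologicalSpace B]
    [CompactSpace B] [MeasurableSpace B] [OpensMeasurableSpace B] {F : A × B → ℂ} (hF : Continuous F) (ν : Measure B)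
    [IsFiniteMeasure ν] [SecondCountableTopologyEither B ℂ] : Continuous fun a => ∫ b, F (a, b) ∂ν := by
  refine continuous_of_dominated (bound := fun _ => ‖(⟨F, hF⟩ : C(A × B, ℂ))‖) ?_ ?_ ?_ ?_
  · intro a
    exact (hF.comp (Continuous.prodMk_right a)).aestronglyMeasurable
  · intro a
    exact Eventually.of_forall fun b => ContinuousMap.norm_coe_le_norm (⟨F, hF⟩ : C(A × B, ℂ)) (a, b)
  · exact integrable_const _
  · exact Eventually.of_forall fun b => hF.comp (Continuous.prodMk_left b)

theorem sqsi_int {A : Type} [TopologicalSpace A] [CompactSpace A] [MeasurableSpace A] [OpensMeasurableSpace A]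
    [SecondCountableTopologyEither A ℂ] {F : A → ℂ} (hF : Continuous F) (ν : Measure A) [IsFiniteMeasure ν] :
    Integrable F ν :=
  Integrable.of_bound hF.aestronglyMeasurable ‖(⟨F, hF⟩ : C(A, ℂ))‖
    (Eventually.of_forall fun a => ContinuousMap.norm_coe_le_norm (⟨F, hF⟩ : C(A, ℂ)) a)

section Tower

variable {κ : Type} [Fintype κ] [DecidableEq κ]

omit [DecidableEq κ] in
theorem borel2 : BorelSpace (TX κ × TX κ) := Prod.borelSpace

omit [DecidableEq κ] in
theorem borel3 : BorelSpace (TX κ × TX κ × TX κ) := by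
  have := borel2 (κ := κ)
  exact Prod.borelSpace

omit [DecidableEq κ] in
theorem borel3b : BorelSpace ((TX κ × TX κ) × TX κ) := by
  have := borel2 (κ := κ)
  exact Prod.borelSpace

theorem su_map_cont (lev : κ → ℕ) (s : ℕ) :
    Continuous fun y : TX κ × TX κ × TX κ => (y.2.1, mix lev s y.1 y.2.1 y.2.2) := by
  have h := mix_cont lev s
  exact continuous_snd.fst.prodMk h

theorem su_int (lev : κ → ℕ) (s : ℕ) (u : TX κ) (F : TX κ × TX κ → ℂ) (hF : Continuous F) :
    ∫ z, F z ∂su lev s u = ∫ y, F (y.1, mix lev s u y.1 y.2) ∂((mX κ).prod (mX κ)) := by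
  have hb2 := borel2 (κ := κ)
  unfold su
  have hc : Continuous fun y : TX κ × TX κ => (y.1, mix lev s u y.1 y.2) :=
    (su_map_cont lev s).comp (Continuous.prodMk_right u)
  rw [integral_map hc.aemeasurable hF.aestronglyMeasurable]

/-- `u ↦ ∫ F d(su u)` is continuous -/
theorem su_int_cont (lev : κ → ℕ) (s : ℕ) (F : TX κ × TX κ → ℂ) (hF : Continuous F) :
    Continuous fun u => ∫ z, F z ∂su lev s u := by
  have hb2 := borel2 (κ := κ)
  simp only [su_int lev s _ F hF]
  exact sqsi_cont (F := fun y : TX κ × TX κ × TX κ => F (y.2.1, mix lev s y.1 y.2.1 y.2.2))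
    (hF.comp (su_map_cont lev s)) ((mX κ).prod (mX κ))

theorem sq_int (lev : κ → ℕ) (s q : ℕ) (hq : 0 < q) (F : TX κ × TX κ → ℂ) (hF : Continuous F) :
    ∫ z, F z ∂sq lev s q = (1 / (q : ℂ) ^ Fintype.card κ) * ∑ i : κ → Fin q, ∫ z, F z ∂su lev s (ptq q i) := by
  have hb2 := borel2 (κ := κ)
  unfold sq
  rw [integral_smul_measure, integral_finsetSum_measure]
  · rw [ENNReal.toReal_inv, ENNReal.toReal_pow, ENNReal.toReal_natCast, Complex.real_smul]
    push_cast
    rw [one_div]
  · intro i _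
    have := su_prob lev s (ptq q i)
    exact sqsi_int hF _

theorem si_int (lev : κ → ℕ) (s : ℕ) (F : TX κ × TX κ → ℂ) (hF : Continuous F) :
    ∫ z, F z ∂si lev s = ∫ u, (∫ z, F z ∂su lev s u) ∂mX κ := by
  have hb2 := borel2 (κ := κ)
  have hb3 := borel3 (κ := κ)
  have hc : Continuous fun y : TX κ × TX κ × TX κ => (y.1, mix lev s y.2.1 y.1 y.2.2) := by
    have h1 : Continuous fun y : TX κ × TX κ × TX κ => (y.2.1, y.1, y.2.2) := by fun_prop
    exact (su_map_cont lev s).comp h1
  have hH : Continuous fun y : TX κ × TX κ × TX κ => F (y.1, mix lev s y.2.1 y.1 y.2.2) := hF.comp hc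
  have h1 : ∫ z, F z ∂si lev s = ∫ y, F (y.1, mix lev s y.2.1 y.1 y.2.2) ∂((mX κ).prod ((mX κ).prod (mX κ))) := by
    unfold si
    rw [integral_map hc.aemeasurable hF.aestronglyMeasurable]
  rw [h1, integral_prod _ (sqsi_int hH _)]
  have h2 : ∀ z : TX κ, ∫ y : TX κ × TX κ, F (z, mix lev s y.1 z y.2) ∂((mX κ).prod (mX κ)) =
      ∫ u, ∫ w, F (z, mix lev s u z w) ∂mX κ ∂mX κ := by
    intro z
    exact integral_prod _ (sqsi_int (hH.comp (Continuous.prodMk_right z)) _)
  simp only [h2]
  have hG : Continuous fun p : TX κ × TX κ => ∫ w, F (p.1, mix lev s p.2 p.1 w) ∂mX κ := by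
    refine sqsi_cont (F := fun y : (TX κ × TX κ) × TX κ => F (y.1.1, mix lev s y.1.2 y.1.1 y.2)) ?_ (mX κ)
    have h3 : Continuous fun y : (TX κ × TX κ) × TX κ => (y.1.1, y.1.2, y.2) := by fun_prop
    exact hH.comp h3
  rw [integral_integral_swap (f := fun z u => ∫ w, F (z, mix lev s u z w) ∂mX κ) (sqsi_int hG _)]
  refine integral_congr_ae (Eventually.of_forall fun u => ?_)
  simp only
  rw [su_int lev s u F hF]
  have h4 : Continuous fun y : TX κ × TX κ => F (y.1, mix lev s u y.1 y.2) :=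
    (hF.comp (su_map_cont lev s)).comp (Continuous.prodMk_right u)
  exact (integral_prod _ (sqsi_int h4 _)).symm

theorem sq_prob (lev : κ → ℕ) (s q : ℕ) (hq : 0 < q) : IsProbabilityMeasure (sq lev s q) := by
  refine ⟨?_⟩
  unfold sq
  rw [Measure.smul_apply, Measure.finsetSum_apply]
  have h1 : ∀ i : κ → Fin q, su lev s (ptq q i) Set.univ = 1 := fun i =>
    (su_prob lev s (ptq q i)).measure_univ
  simp only [h1, sum_const, card_univ, Fintype.card_fun, Fintype.card_fin, smul_eq_mul, nsmul_eq_mul,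
    mul_one]
  push_cast
  refine ENNReal.inv_mul_cancel ?_ ?_
  · exact pow_ne_zero _ (by exact_mod_cast hq.ne')
  · exact ENNReal.pow_ne_top (ENNReal.natCast_ne_top q)

theorem si_prob (lev : κ → ℕ) (s : ℕ) : IsProbabilityMeasure (si lev s) := by
  have hb2 := borel2 (κ := κ)
  have hb3 := borel3 (κ := κ)
  unfold si
  refine Measure.isProbabilityMeasure_map ?_
  have h1 : Continuous fun y : TX κ × TX κ × TX κ => (y.2.1, y.1, y.2.2) := by fun_prop
  exact ((su_map_cont lev s).comp h1).aemeasurable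

theorem sq_inv (W : FT.Tower κ) (s q : ℕ) (hq : 0 < q) :
    MeasurePreserving (Prod.map (FT.T W) (FT.T W)) (sq W.lev s q) (sq W.lev s q) := by
  have hb2 := borel2 (κ := κ)
  have hS : Measurable (Prod.map (FT.T W) (FT.T W)) :=
    ((FT.continuous_T W).prodMap (FT.continuous_T W)).measurable
  refine ⟨hS, ?_⟩
  unfold sq
  rw [Measure.map_smul, ← Measure.mapₗ_apply_of_measurable hS, map_sum]
  congr 1
  refine sum_congr rfl fun i _ => ?_
  rw [Measure.mapₗ_apply_of_measurable hS]
  exact (su_inv W s (ptq q i)).map_eq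

theorem si_inv (W : FT.Tower κ) (s : ℕ) :
    MeasurePreserving (Prod.map (FT.T W) (FT.T W)) (si W.lev s) (si W.lev s) := by
  have hb2 := borel2 (κ := κ)
  have hSc : Continuous (Prod.map (FT.T W) (FT.T W)) := (FT.continuous_T W).prodMap (FT.continuous_T W)
  have hS : Measurable (Prod.map (FT.T W) (FT.T W)) := hSc.measurable
  have hp := si_prob W.lev s
  have hp' : IsProbabilityMeasure (Measure.map (Prod.map (FT.T W) (FT.T W)) (si W.lev s)) :=
    Measure.isProbabilityMeasure_map hS.aemeasurable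
  refine ⟨hS, FT.meas_ext (FT.chZ κ) (FT.chZ_star κ) (FT.chZ_sep κ) _ _ fun f _ => ?_⟩
  rw [integral_map hS.aemeasurable f.continuous.aestronglyMeasurable,
    si_int W.lev s (fun z => f (Prod.map (FT.T W) (FT.T W) z)) (f.continuous.comp hSc),
    si_int W.lev s (fun z => f z) f.continuous]
  refine integral_congr_ae (Eventually.of_forall fun u => ?_)
  simp only
  have h1 := (su_inv W s u).map_eq
  rw [← integral_map hS.aemeasurable f.continuous.aestronglyMeasurable, h1]

end Tower

end Pool.Agent.Lib.MP_9fe581_an.HT
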