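import Pool.Agent.Lib.MP_9fe581_an.HT.Char
import Pool.Agent.Lib.MP_9fe581_an.HT.SqSi

/-!
# HT / Lim: `q → ∞`
-/

open Finset MeasureTheory Filter Topology
open scoped ComplexConjugate Matrix

namespace Pool.Agent.Lib.MP_9fe581_an.HT

/-- sum of the `q`-th roots of unity -/
theorem lim_geom (q : ℕ) (hq : 0 < q) (k : ℤ) (hk : ¬ (q : ℤ) ∣ k) :
    ∑ a : Fin q, FT.ec (k • ((((a : ℕ) : ℝ) / (q : ℝ) : ℝ) : UnitAddCircle)) = 0 := by
  have hq' : (q : ℝ) ≠ 0 := by exact_mod_cast hq.ne'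
  set ζ : ℂ := FT.ec (((k : ℝ) / (q : ℝ) : ℝ) : UnitAddCircle) with hζ
  have h1 : ∀ a : Fin q, FT.ec (k • ((((a : ℕ) : ℝ) / (q : ℝ) : ℝ) : UnitAddCircle)) = ζ ^ (a : ℕ) := by
    intro a
    rw [hζ, ← AddCircle.coe_zsmul, FT.ec_coe, FT.ec_coe, ← Complex.exp_nat_mul]
    congr 1
    rw [zsmul_eq_mul]
    push_cast
    ring
  simp only [h1]
  have hne : ζ ≠ 1 := by
    intro h
    have h2 := FT.ec_eq_one h
    rw [AddCircle.coe_eq_zero_iff] at h2
    obtain ⟨n, hn⟩ := h2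
    apply hk
    refine ⟨n, ?_⟩
    rw [zsmul_eq_mul, mul_one, eq_div_iff hq'] at hn
    have : ((k : ℤ) : ℝ) = ((q * n : ℤ) : ℝ) := by
      push_cast
      linarith
    exact_mod_cast this
  have hpow : ζ ^ q = 1 := by
    rw [hζ, FT.ec_coe, ← Complex.exp_nat_mul, Complex.exp_eq_one_iff]
    refine ⟨k, ?_⟩
    push_cast
    have : (q : ℂ) ≠ 0 := by exact_mod_cast hq.ne'
    field_simp
  have h3 := geom_sum_eq hne q
  rw [Fin.sum_univ_eq_sum_range (fun n => ζ ^ n) q, h3, hpow, sub_self, zero_div]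

section Tower

variable {κ : Type} [Fintype κ] [DecidableEq κ]

/-- the average of a character over the `q`-torsion points -/
theorem lim_avg (q : ℕ) (hq : 0 < q) (m : κ →₀ ℤ) (k : κ) (hk : ¬ (q : ℤ) ∣ m k) :
    ∑ i : κ → Fin q, ch m (ptq q i) = 0 := by
  have h1 : ∀ i : κ → Fin q, ch m (ptq q i) =
      ∏ l, FT.ec (m l • ((((i l : ℕ) : ℝ) / (q : ℝ) : ℝ) : UnitAddCircle)) := by
    intro i
    unfold ch FT.pr ptq
    rw [Finsupp.sum_fintype m (fun l k => k • ((((i l : ℕ) : ℝ) / (q : ℝ) : ℝ) : UnitAddCircle))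
      (fun _ => zero_smul ℤ _)]
    have h2 : ∀ (s : Finset κ) (g : κ → UnitAddCircle), FT.ec (∑ l ∈ s, g l) = ∏ l ∈ s, FT.ec (g l) := by
      intro s g
      induction s using Finset.induction_on with
      | empty => simp [FT.ec_zero]
      | insert a s ha ih => rw [sum_insert ha, prod_insert ha, FT.ec_add, ih]
    exact h2 _ _
  simp only [h1]
  rw [← Fintype.piFinset_univ, ← Finset.prod_univ_sum (fun _ => (Finset.univ : Finset (Fin q)))
    (fun l a => FT.ec (m l • ((((a : ℕ) : ℝ) / (q : ℝ) : ℝ) : UnitAddCircle)))]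
  exact Finset.prod_eq_zero (mem_univ k) (lim_geom q hq (m k) hk)

theorem riemann (F : TX κ → ℂ) (hF : Continuous F) :
    Tendsto (fun q : ℕ => (1 / (q : ℂ) ^ Fintype.card κ) * ∑ i : κ → Fin q, F (ptq q i)) atTop (𝓝 (∫ u, F u ∂mX κ)) := by
  -- characters
  have hch : ∀ m : κ →₀ ℤ, Tendsto (fun q : ℕ => (1 / (q : ℂ) ^ Fintype.card κ) * ∑ i : κ → Fin q, ch m (ptq q i))
      atTop (𝓝 (∫ u, ch m u ∂mX κ)) := by
    intro m
    rw [ch_int]
    split_ifs with h
    · subst h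
      refine tendsto_const_nhds.congr' ?_
      filter_upwards [eventually_gt_atTop 0] with q hq
      simp only [ch_zero, sum_const, card_univ, Fintype.card_fun, Fintype.card_fin, nsmul_eq_mul, mul_one]
      push_cast
      have : (q : ℂ) ^ Fintype.card κ ≠ 0 := pow_ne_zero _ (by exact_mod_cast hq.ne')
      field_simp
    · obtain ⟨k, hk⟩ : ∃ k, m k ≠ 0 := by
        by_contra hcon
        push Not at hcon
        exact h (Finsupp.ext hcon)
      refine tendsto_const_nhds.congr' ?_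
      filter_upwards [eventually_gt_atTop (m k).natAbs] with q hq
      have hndvd : ¬ (q : ℤ) ∣ m k := by
        intro hd
        have h1 := Int.le_of_dvd (abs_pos.mpr hk) ((dvd_abs _ _).mpr hd)
        rw [Int.abs_eq_natAbs] at h1
        omega
      rw [lim_avg q (by omega) m k hndvd, mul_zero]
  -- trigonometric polynomials
  have htr : ∀ (S : Finset (κ →₀ ℤ)) (c : (κ →₀ ℤ) → ℂ),
      Tendsto (fun q : ℕ => (1 / (q : ℂ) ^ Fintype.card κ) * ∑ i : κ → Fin q, ∑ m ∈ S, c m * ch m (ptq q i))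
      atTop (𝓝 (∫ u, ∑ m ∈ S, c m * ch m u ∂mX κ)) := by
    intro S c
    have h1 : ∫ u, ∑ m ∈ S, c m * ch m u ∂mX κ = ∑ m ∈ S, c m * ∫ u, ch m u ∂mX κ := by
      rw [integral_finsetSum]
      · exact sum_congr rfl fun m _ => integral_const_mul _ _
      · intro m _
        exact (sqsi_int (ch_cont m) _).const_mul _
    rw [h1]
    have h2 : ∀ q : ℕ, (1 / (q : ℂ) ^ Fintype.card κ) * ∑ i : κ → Fin q, ∑ m ∈ S, c m * ch m (ptq q i) =
        ∑ m ∈ S, c m * ((1 / (q : ℂ) ^ Fintype.card κ) * ∑ i : κ → Fin q, ch m (ptq q i)) := by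
      intro q
      rw [sum_comm, mul_sum]
      refine sum_congr rfl fun m _ => ?_
      rw [← mul_sum]
      ring
    simp only [h2]
    exact tendsto_finsetSum _ fun m _ => (hch m).const_mul _
  -- approximation
  rw [Metric.tendsto_nhds]
  intro ε hε
  obtain ⟨S, c, -, happ⟩ := ch_dense F hF (ε / 4) (by positivity)
  have h3 := (Metric.tendsto_nhds.mp (htr S c)) (ε / 4) (by positivity)
  filter_upwards [h3, eventually_gt_atTop 0] with q hq hq0
  have hqc : (0 : ℝ) < (q : ℝ) ^ Fintype.card κ := pow_pos (by exact_mod_cast hq0) _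
  have e1 : dist ((1 / (q : ℂ) ^ Fintype.card κ) * ∑ i : κ → Fin q, F (ptq q i))
      ((1 / (q : ℂ) ^ Fintype.card κ) * ∑ i : κ → Fin q, ∑ m ∈ S, c m * ch m (ptq q i)) ≤ ε / 4 := by
    rw [dist_eq_norm, ← mul_sub, ← sum_sub_distrib, norm_mul]
    have h4 : ‖∑ i : κ → Fin q, (F (ptq q i) - ∑ m ∈ S, c m * ch m (ptq q i))‖ ≤
        (q : ℝ) ^ Fintype.card κ * (ε / 4) := by
      refine (norm_sum_le _ _).trans ((sum_le_sum fun i _ => happ (ptq q i)).trans (le_of_eq ?_))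
      rw [sum_const, card_univ, Fintype.card_fun, Fintype.card_fin, nsmul_eq_mul]
      push_cast
      ring
    have h5 : ‖(1 / (q : ℂ) ^ Fintype.card κ)‖ = 1 / (q : ℝ) ^ Fintype.card κ := by
      rw [norm_div, norm_one, norm_pow, Complex.norm_natCast]
    rw [h5]
    calc 1 / (q : ℝ) ^ Fintype.card κ * ‖∑ i : κ → Fin q, (F (ptq q i) - ∑ m ∈ S, c m * ch m (ptq q i))‖
        ≤ 1 / (q : ℝ) ^ Fintype.card κ * ((q : ℝ) ^ Fintype.card κ * (ε / 4)) :=
          mul_le_mul_of_nonneg_left h4 (by positivity)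
      _ = ε / 4 := by field_simp
  have e2 : dist (∫ u, ∑ m ∈ S, c m * ch m u ∂mX κ) (∫ u, F u ∂mX κ) ≤ ε / 4 := by
    have hg : Continuous fun x : TX κ => ∑ m ∈ S, c m * ch m x :=
      continuous_finsetSum _ fun m _ => continuous_const.mul (ch_cont m)
    rw [dist_eq_norm, norm_sub_rev, ← integral_sub (sqsi_int hF _) (sqsi_int hg _)]
    refine (norm_integral_le_of_norm_le_const (Eventually.of_forall happ)).trans (le_of_eq ?_)
    simp
  have h6 := dist_triangle4 ((1 / (q : ℂ) ^ Fintype.card κ) * ∑ i : κ → Fin q, F (ptq q i))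
    ((1 / (q : ℂ) ^ Fintype.card κ) * ∑ i : κ → Fin q, ∑ m ∈ S, c m * ch m (ptq q i))
    (∫ u, ∑ m ∈ S, c m * ch m u ∂mX κ) (∫ u, F u ∂mX κ)
  linarith

theorem sq_lim (lev : κ → ℕ) (s : ℕ) (F : TX κ × TX κ → ℂ) (hF : Continuous F) :
    Tendsto (fun q => ∫ z, F z ∂sq lev s q) atTop (𝓝 (∫ z, F z ∂si lev s)) := by
  rw [si_int lev s F hF]
  refine (riemann _ (su_int_cont lev s F hF)).congr' ?_
  filter_upwards [eventually_gt_atTop 0] with q hq
  rw [sq_int lev s q hq F hF]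

end Tower

end Pool.Agent.Lib.MP_9fe581_an.HT
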