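import Pool.Agent.Lib.MP_9fe581_an.HT.Char
import Pool.Agent.Lib.MP_9fe581_an.HT.SqSi

/-!
# HT, B5: the Fourier coefficients of the measures `su`, `sq`, `si`
-/

open Finset MeasureTheory Filter Topology
open scoped ComplexConjugate Matrix

namespace Pool.Agent.Lib.MP_9fe581_an.HT

section Tower

variable {κ : Type} [Fintype κ] [DecidableEq κ]

omit [DecidableEq κ] in
private theorem sc_pr (m : κ →₀ ℤ) (x : TX κ) : FT.pr m x = ∑ i, m i • x i := by
  unfold FT.pr
  exact Finsupp.sum_fintype m _ fun i => zero_smul ℤ _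

omit [DecidableEq κ] in
private theorem sc_mix (lev : κ → ℕ) (s : ℕ) (u z w : TX κ) (m : κ →₀ ℤ) :
    ch m (mix lev s u z w) = ch (m.filter fun i => lev i ≤ s) z *
      (ch (m.filter fun i => s < lev i) w * ch (m.filter fun i => lev i = s) u) := by
  unfold ch
  rw [← FT.ec_add, ← FT.ec_add]
  congr 1
  rw [sc_pr, sc_pr, sc_pr, sc_pr, ← Finset.sum_add_distrib, ← Finset.sum_add_distrib]
  refine Finset.sum_congr rfl fun i _ => ?_
  simp only [Finsupp.filter_apply, mix]
  rcases lt_trichotomy (lev i) s with h | h | h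
  · rw [if_pos h, if_pos h.le, if_neg (not_lt.mpr h.le), if_neg h.ne]
    simp
  · rw [if_neg (by omega), if_pos h, if_pos h.le, if_neg (by omega), if_pos h]
    simp
  · rw [if_neg (by omega), if_neg (by omega), if_neg (by omega), if_pos h, if_neg (by omega)]
    simp

omit [Fintype κ] [DecidableEq κ] in
private theorem sc_mixc (lev : κ → ℕ) (s : ℕ) (u : TX κ) :
    Continuous fun y : TX κ × TX κ => (y.1, mix lev s u y.1 y.2) := by
  refine continuous_fst.prodMk (continuous_pi fun i => ?_)
  unfold mix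
  split_ifs
  · exact (continuous_apply i).comp continuous_fst
  · exact ((continuous_apply i).comp continuous_fst).add continuous_const
  · exact (continuous_apply i).comp continuous_snd

private theorem sc_F (m m' : κ →₀ ℤ) :
    Continuous fun z : TX κ × TX κ => ch m z.1 * conj (ch m' z.2) :=
  ((ch_cont m).comp continuous_fst).mul (Complex.continuous_conj.comp ((ch_cont m').comp continuous_snd))

private theorem sc_sub (m m' : κ →₀ ℤ) (x : TX κ) : ch m x * conj (ch m' x) = ch (m - m') x := by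
  rw [sub_eq_add_neg, ch_add, ch_neg]

/-- Fourier coefficients of `su` -/
theorem su_ch (lev : κ → ℕ) (s : ℕ) (u : TX κ) (m m' : κ →₀ ℤ) :
    ∫ z, ch m z.1 * conj (ch m' z.2) ∂su lev s u =
      if m = m' ∧ ∀ i, m i ≠ 0 → lev i ≤ s then conj (ch (m.filter fun i => lev i = s) u) else 0 := by
  have hB : BorelSpace (TX κ × TX κ) := Prod.borelSpace
  unfold su
  rw [integral_map (sc_mixc lev s u).measurable.aemeasurable
    (sc_F m m').measurable.aestronglyMeasurable]
  have h1 : ∀ y : TX κ × TX κ, ch m y.1 * conj (ch m' (mix lev s u y.1 y.2)) =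
      (ch (m - m'.filter fun i => lev i ≤ s) y.1) *
        (conj (ch (m'.filter fun i => lev i = s) u) * ch (-(m'.filter fun i => s < lev i)) y.2) := by
    intro y
    rw [sc_mix, map_mul, map_mul, ← sc_sub, ch_neg]
    ring
  simp only [h1]
  rw [integral_prod_mul (fun y : TX κ => ch (m - m'.filter fun i => lev i ≤ s) y)
    (fun y : TX κ => conj (ch (m'.filter fun i => lev i = s) u) *
      ch (-(m'.filter fun i => s < lev i)) y), integral_const_mul, ch_int, ch_int]
  by_cases hC : m = m' ∧ ∀ i, m i ≠ 0 → lev i ≤ s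
  · obtain ⟨rfl, h2⟩ := hC
    have e1 : (m.filter fun i => lev i ≤ s) = m := by
      rw [Finsupp.filter_eq_self_iff]
      exact h2
    have e2 : (m.filter fun i => s < lev i) = 0 := by
      ext i
      rw [Finsupp.filter_apply, Finsupp.zero_apply]
      split_ifs with h3
      · by_contra h4
        have := h2 i h4
        omega
      · rfl
    rw [if_pos (by rw [e1, sub_self]), if_pos (by rw [e2, neg_zero]), if_pos ⟨rfl, h2⟩]
    ring
  · rw [if_neg hC]
    by_cases h2 : m - (m'.filter fun i => lev i ≤ s) = 0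
    · by_cases h3 : -(m'.filter fun i => s < lev i) = 0
      · exfalso
        apply hC
        have h4 : ∀ i, m' i ≠ 0 → lev i ≤ s := by
          intro i hi
          by_contra h5
          push Not at h5
          have h6 := DFunLike.congr_fun h3 i
          rw [Finsupp.neg_apply, Finsupp.filter_apply, if_pos h5, Finsupp.zero_apply,
            neg_eq_zero] at h6
          exact hi h6
        have e1 : (m'.filter fun i => lev i ≤ s) = m' := by
          rw [Finsupp.filter_eq_self_iff]
          exact h4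
        rw [e1, sub_eq_zero] at h2
        exact ⟨h2, by rw [h2]; exact h4⟩
      · rw [if_neg h3]
        ring
    · rw [if_neg h2]
      ring

private theorem sc_root (k : ℤ) (q : ℕ) (hq : 0 < q) :
    ∑ a : Fin q, FT.ec (k • ((((a : ℕ) : ℝ) / (q : ℝ) : ℝ) : UnitAddCircle)) =
      if (q : ℤ) ∣ k then (q : ℂ) else 0 := by
  have hq0 : (q : ℝ) ≠ 0 := by exact_mod_cast hq.ne'
  set ζ : ℂ := FT.ec (((k : ℝ) / (q : ℝ) : ℝ) : UnitAddCircle) with hζ
  have hpow : ∀ n : ℕ, FT.ec (k • ((((n : ℕ) : ℝ) / (q : ℝ) : ℝ) : UnitAddCircle)) = ζ ^ n := by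
    intro n
    rw [hζ, FT.ec_coe, ← Complex.exp_nat_mul, ← AddCircle.coe_zsmul, FT.ec_coe]
    congr 1
    rw [zsmul_eq_mul]
    push_cast
    ring
  have h1 : ∑ a : Fin q, FT.ec (k • ((((a : ℕ) : ℝ) / (q : ℝ) : ℝ) : UnitAddCircle)) =
      ∑ n ∈ range q, ζ ^ n := by
    rw [Finset.sum_range]
    exact Finset.sum_congr rfl fun a _ => hpow a
  rw [h1]
  by_cases hk : (q : ℤ) ∣ k
  · rw [if_pos hk]
    obtain ⟨c, rfl⟩ := hk
    have h2 : ζ = 1 := by
      rw [hζ, ← FT.ec_zero]
      congr 1
      have h3 : (((q : ℤ) * c : ℤ) : ℝ) / (q : ℝ) = (c : ℝ) * 1 := by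
        push_cast
        field_simp
      rw [h3, ← zsmul_eq_mul, AddCircle.coe_zsmul, AddCircle.coe_period, smul_zero]
    rw [h2]
    simp
  · rw [if_neg hk]
    have h2 : ζ ≠ 1 := by
      intro h3
      have h4 := FT.ec_eq_one h3
      rw [AddCircle.coe_eq_zero_iff] at h4
      obtain ⟨c, hc⟩ := h4
      apply hk
      refine ⟨c, ?_⟩
      rw [zsmul_eq_mul, mul_one] at hc
      have h5 : (k : ℝ) = (q : ℝ) * (c : ℝ) := by
        rw [hc]
        field_simp
      exact_mod_cast h5
    have h3 : ζ ^ q = 1 := by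
      rw [hζ, FT.ec_coe, ← Complex.exp_nat_mul]
      rw [Complex.exp_eq_one_iff]
      refine ⟨k, ?_⟩
      have hqc : (q : ℂ) ≠ 0 := by exact_mod_cast hq.ne'
      push_cast
      field_simp
    have h4 := geom_sum_mul ζ q
    rw [h3, sub_self] at h4
    exact (mul_eq_zero.mp h4).resolve_right (sub_ne_zero.mpr h2)

private theorem sc_tor (m : κ →₀ ℤ) (q : ℕ) (hq : 0 < q) :
    ∑ i : κ → Fin q, ch m (ptq q i) = if ∀ k, (q : ℤ) ∣ m k then (q : ℂ) ^ Fintype.card κ else 0 := by
  have h1 : ∀ i : κ → Fin q, ch m (ptq q i) =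
      ∏ k, FT.ec (m k • ((((i k : ℕ) : ℝ) / (q : ℝ) : ℝ) : UnitAddCircle)) := by
    intro i
    unfold ch
    rw [sc_pr]
    have h2 : ∀ (S : Finset κ), FT.ec (∑ k ∈ S, m k • ptq q i k) =
        ∏ k ∈ S, FT.ec (m k • ((((i k : ℕ) : ℝ) / (q : ℝ) : ℝ) : UnitAddCircle)) := by
      intro S
      induction S using Finset.induction_on with
      | empty => rw [Finset.sum_empty, Finset.prod_empty, FT.ec_zero]
      | insert a S ha ih =>
        rw [Finset.sum_insert ha, Finset.prod_insert ha, FT.ec_add, ih]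
        rfl
    exact h2 Finset.univ
  rw [Finset.sum_congr rfl fun i _ => h1 i]
  have h3 := Finset.prod_univ_sum (fun _ : κ => (Finset.univ : Finset (Fin q)))
    (fun k a => FT.ec (m k • ((((a : ℕ) : ℝ) / (q : ℝ) : ℝ) : UnitAddCircle)))
  rw [Fintype.piFinset_univ] at h3
  rw [← h3, Finset.prod_congr rfl fun k _ => sc_root (m k) q hq]
  by_cases h4 : ∀ k, (q : ℤ) ∣ m k
  · rw [if_pos h4, Finset.prod_congr rfl fun k _ => if_pos (h4 k), Finset.prod_const,
      Finset.card_univ]
  · rw [if_neg h4]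
    push Not at h4
    obtain ⟨k, hk⟩ := h4
    exact Finset.prod_eq_zero (Finset.mem_univ k) (if_neg hk)

/-- Fourier coefficients of `sq` -/
theorem sq_ch (lev : κ → ℕ) (s q : ℕ) (hq : 0 < q) (m m' : κ →₀ ℤ) :
    ∫ z, ch m z.1 * conj (ch m' z.2) ∂sq lev s q =
      if m = m' ∧ (∀ i, m i ≠ 0 → lev i ≤ s) ∧ ∀ i, lev i = s → (q : ℤ) ∣ m i then 1 else 0 := by
  rw [sq_int lev s q hq _ (sc_F m m')]
  simp only [su_ch]
  have hqc : ((q : ℂ) ^ Fintype.card κ) ≠ 0 := pow_ne_zero _ (by exact_mod_cast hq.ne')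
  by_cases hC : m = m' ∧ ∀ i, m i ≠ 0 → lev i ≤ s
  · simp only [if_pos hC]
    rw [← map_sum, sc_tor _ q hq]
    have h1 : (∀ k, (q : ℤ) ∣ (m.filter fun i => lev i = s) k) ↔ ∀ i, lev i = s → (q : ℤ) ∣ m i := by
      constructor
      · intro h i hi
        have := h i
        rwa [Finsupp.filter_apply, if_pos hi] at this
      · intro h i
        rw [Finsupp.filter_apply]
        split_ifs with hi
        · exact h i hi
        · exact dvd_zero _
    by_cases h2 : ∀ i, lev i = s → (q : ℤ) ∣ m i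
    · rw [if_pos (h1.mpr h2), if_pos ⟨hC.1, hC.2, h2⟩, map_pow, Complex.conj_natCast,
        one_div, inv_mul_cancel₀ hqc]
    · rw [if_neg (fun h => h2 (h1.mp h)), if_neg (fun h => h2 h.2.2), map_zero, mul_zero]
  · simp only [if_neg hC]
    rw [if_neg (fun h => hC ⟨h.1, h.2.1⟩), Finset.sum_const_zero, mul_zero]

/-- Fourier coefficients of `si` -/
theorem si_ch (lev : κ → ℕ) (s : ℕ) (m m' : κ →₀ ℤ) :
    ∫ z, ch m z.1 * conj (ch m' z.2) ∂si lev s = if m = m' ∧ ∀ i, m i ≠ 0 → lev i < s then 1 else 0 := by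
  rw [si_int lev s _ (sc_F m m')]
  simp only [su_ch]
  by_cases hC : m = m' ∧ ∀ i, m i ≠ 0 → lev i ≤ s
  · simp only [if_pos hC]
    have h1 : ∀ u : TX κ, conj (ch (m.filter fun i => lev i = s) u) =
        ch (-(m.filter fun i => lev i = s)) u := fun u => (ch_neg _ _).symm
    simp only [h1]
    rw [ch_int]
    have h2 : (-(m.filter fun i => lev i = s) = 0) ↔ ∀ i, m i ≠ 0 → lev i < s := by
      rw [neg_eq_zero]
      constructor
      · intro h i hi
        have h3 := hC.2 i hi
        rcases lt_or_eq_of_le h3 with h4 | h4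
        · exact h4
        · exfalso
          have h5 := DFunLike.congr_fun h i
          rw [Finsupp.filter_apply, if_pos h4, Finsupp.zero_apply] at h5
          exact hi h5
      · intro h
        ext i
        rw [Finsupp.filter_apply, Finsupp.zero_apply]
        split_ifs with h3
        · by_contra h4
          have := h i h4
          omega
        · rfl
    by_cases h3 : ∀ i, m i ≠ 0 → lev i < s
    · rw [if_pos (h2.mpr h3), if_pos ⟨hC.1, h3⟩]
    · rw [if_neg (fun h => h3 (h2.mp h)), if_neg (fun h => h3 h.2)]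
  · simp only [if_neg hC]
    rw [if_neg (fun h => hC ⟨h.1, fun i hi => (h.2 i hi).le⟩), integral_zero]

end Tower

end Pool.Agent.Lib.MP_9fe581_an.HT
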