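import Pool.Agent.Lib.MP_9fe581_an.HT.Char
import Pool.Agent.Lib.MP_9fe581_an.HT.SqSi
import Pool.Agent.Lib.MP_9fe581_an.HT.SuChar

/-!
# HT / Pos: the difference of the two quadratic forms is nonnegative
-/

open Finset MeasureTheory Filter Topology
open scoped ComplexConjugate Matrix

namespace Pool.Agent.Lib.MP_9fe581_an.HT

section Tower

variable {κ : Type} [Fintype κ] [DecidableEq κ]

/-- `m ≠ 0` has top level `s` and its part of level `s` is divisible by `q` -/
def tdiv (lev : κ → ℕ) (s q : ℕ) (m : κ →₀ ℤ) : Prop :=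
  (∀ i, m i ≠ 0 → lev i ≤ s) ∧ (∃ i, m i ≠ 0 ∧ lev i = s) ∧ ∀ i, lev i = s → (q : ℤ) ∣ m i

/-- expansion of the quadratic form of a trigonometric polynomial -/
private theorem pos_expand (P : Measure (TX κ × TX κ)) [IsProbabilityMeasure P] (S : Finset (κ →₀ ℤ))
    (c : (κ →₀ ℤ) → ℂ) :
    ∫ z, (∑ m ∈ S, c m * ch m z.1) * conj (∑ m ∈ S, c m * ch m z.2) ∂P =
      ∑ m ∈ S, ∑ m' ∈ S, c m * conj (c m') * ∫ z, ch m z.1 * conj (ch m' z.2) ∂P := by
  have hb2 := borel2 (κ := κ)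
  have hcont : ∀ m m' : κ →₀ ℤ, Continuous fun z : TX κ × TX κ => ch m z.1 * conj (ch m' z.2) := fun m m' =>
    ((ch_cont m).comp continuous_fst).mul (Complex.continuous_conj.comp ((ch_cont m').comp continuous_snd))
  have h1 : ∀ z : TX κ × TX κ, (∑ m ∈ S, c m * ch m z.1) * conj (∑ m ∈ S, c m * ch m z.2) =
      ∑ m ∈ S, ∑ m' ∈ S, c m * conj (c m') * (ch m z.1 * conj (ch m' z.2)) := by
    intro z
    rw [map_sum, sum_mul_sum]
    refine sum_congr rfl fun m _ => sum_congr rfl fun m' _ => ?_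
    rw [map_mul]
    ring
  simp only [h1]
  rw [integral_finsetSum]
  · refine sum_congr rfl fun m _ => ?_
    rw [integral_finsetSum]
    · exact sum_congr rfl fun m' _ => integral_const_mul _ _
    · intro m' _
      exact (sqsi_int (hcont m m') P).const_mul _
  · intro m _
    exact integrable_finsetSum _ fun m' _ => (sqsi_int (hcont m m') P).const_mul _

open Classical in
theorem form_trig (lev : κ → ℕ) (s q : ℕ) (hq : 0 < q) (S : Finset (κ →₀ ℤ)) (c : (κ →₀ ℤ) → ℂ) :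
    (∫ z, (∑ m ∈ S, c m * ch m z.1) * conj (∑ m ∈ S, c m * ch m z.2) ∂sq lev s q -
      ∫ z, (∑ m ∈ S, c m * ch m z.1) * conj (∑ m ∈ S, c m * ch m z.2) ∂si lev s) =
      ((∑ m ∈ S with tdiv lev s q m, ‖c m‖ ^ 2 : ℝ) : ℂ) := by
  have hp1 := sq_prob lev s q hq
  have hp2 := si_prob lev s
  rw [pos_expand, pos_expand, ← sum_sub_distrib, Complex.ofReal_sum, sum_filter]
  refine sum_congr rfl fun m hm => ?_
  rw [← sum_sub_distrib]
  simp only [sq_ch lev s q hq, si_ch lev s]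
  rw [sum_eq_single_of_mem m hm]
  · have h1 : c m * conj (c m) = ((‖c m‖ ^ 2 : ℝ) : ℂ) := by
      rw [Complex.mul_conj, Complex.normSq_eq_norm_sq]
    rw [← mul_sub, h1]
    by_cases hB : ∀ i, m i ≠ 0 → lev i < s
    · have hA : (∀ i, m i ≠ 0 → lev i ≤ s) ∧ ∀ i, lev i = s → (q : ℤ) ∣ m i := by
        refine ⟨fun i hi => (hB i hi).le, fun i hi => ?_⟩
        by_cases h0 : m i = 0
        · rw [h0]
          exact dvd_zero _
        · exact absurd hi (hB i h0).ne
      have hnt : ¬ tdiv lev s q m := by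
        rintro ⟨-, ⟨i, hi, his⟩, -⟩
        exact (hB i hi).ne his
      rw [if_pos ⟨rfl, hA⟩, if_pos ⟨rfl, hB⟩, if_neg hnt]
      simp
    · by_cases hA : (∀ i, m i ≠ 0 → lev i ≤ s) ∧ ∀ i, lev i = s → (q : ℤ) ∣ m i
      · have ht : tdiv lev s q m := by
          refine ⟨hA.1, ?_, hA.2⟩
          push Not at hB
          obtain ⟨i, hi, his⟩ := hB
          exact ⟨i, hi, le_antisymm (hA.1 i hi) his⟩
        rw [if_pos ⟨rfl, hA⟩, if_neg (fun h => hB h.2), if_pos ht]
        simp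
      · have ht : ¬ tdiv lev s q m := fun h => hA ⟨h.1, h.2.2⟩
        rw [if_neg (fun h => hA h.2), if_neg (fun h => hB h.2), if_neg ht]
        simp
  · intro m' _ hne
    rw [if_neg (fun h => hne h.1.symm), if_neg (fun h => hne h.1.symm)]
    simp

/-- approximation of the quadratic form -/
private theorem pos_approx (P : Measure (TX κ × TX κ)) [IsProbabilityMeasure P] {f g : TX κ → ℂ}
    (hf : Continuous f) (hg : Continuous g) {C ε : ℝ} (hfC : ∀ x, ‖f x‖ ≤ C) (hgC : ∀ x, ‖g x‖ ≤ C)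
    (h : ∀ x, ‖f x - g x‖ ≤ ε) :
    ‖∫ z, f z.1 * conj (f z.2) ∂P - ∫ z, g z.1 * conj (g z.2) ∂P‖ ≤ 2 * C * ε := by
  have hb2 := borel2 (κ := κ)
  have hcont : ∀ f : TX κ → ℂ, Continuous f → Continuous fun z : TX κ × TX κ => f z.1 * conj (f z.2) :=
    fun f hf => (hf.comp continuous_fst).mul (Complex.continuous_conj.comp (hf.comp continuous_snd))
  rw [← integral_sub (sqsi_int (hcont f hf) P) (sqsi_int (hcont g hg) P)]
  refine (norm_integral_le_of_norm_le_const (C := 2 * C * ε) (Eventually.of_forall fun z => ?_)).trans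
    (le_of_eq (by simp))
  have e : f z.1 * conj (f z.2) - g z.1 * conj (g z.2) =
      (f z.1 - g z.1) * conj (f z.2) + g z.1 * conj (f z.2 - g z.2) := by
    rw [map_sub]
    ring
  rw [e]
  have hC : 0 ≤ C := (norm_nonneg _).trans (hfC z.1)
  have hε : 0 ≤ ε := (norm_nonneg _).trans (h z.1)
  calc ‖(f z.1 - g z.1) * conj (f z.2) + g z.1 * conj (f z.2 - g z.2)‖
      ≤ ‖(f z.1 - g z.1) * conj (f z.2)‖ + ‖g z.1 * conj (f z.2 - g z.2)‖ := norm_add_le _ _
    _ ≤ ε * C + C * ε := by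
        rw [norm_mul, norm_mul, Complex.norm_conj, Complex.norm_conj]
        exact add_le_add (mul_le_mul (h _) (hfC _) (norm_nonneg _) hε)
          (mul_le_mul (hgC _) (h _) (norm_nonneg _) hC)
    _ = 2 * C * ε := by ring

theorem form_pos (lev : κ → ℕ) (s q : ℕ) (hq : 0 < q) (f : TX κ → ℂ) (hf : Continuous f) :
    0 ≤ (∫ z, f z.1 * conj (f z.2) ∂sq lev s q - ∫ z, f z.1 * conj (f z.2) ∂si lev s).re := by
  classical
  have hp1 := sq_prob lev s q hq
  have hp2 := si_prob lev s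
  set C : ℝ := ‖(⟨f, hf⟩ : C(TX κ, ℂ))‖ + 1 with hC
  have hfC : ∀ x, ‖f x‖ ≤ C := fun x => by
    have := ContinuousMap.norm_coe_le_norm (⟨f, hf⟩ : C(TX κ, ℂ)) x
    simp only [ContinuousMap.coe_mk] at this
    linarith
  have hC0 : 0 ≤ C := by positivity
  refine le_of_forall_pos_le_add fun η hη => ?_
  obtain ⟨S, c, -, happ⟩ := ch_dense f hf (min 1 (η / (4 * C + 4))) (lt_min one_pos (by positivity))
  set g : TX κ → ℂ := fun x => ∑ m ∈ S, c m * ch m x with hg
  have hgc : Continuous g := continuous_finsetSum _ fun m _ => continuous_const.mul (ch_cont m)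
  have hgC : ∀ x, ‖g x‖ ≤ C := by
    intro x
    have h1 := (happ x).trans (min_le_left _ _)
    have h2 : ‖g x‖ ≤ ‖f x‖ + ‖f x - g x‖ := by
      have := norm_sub_le (f x) (f x - g x)
      rwa [sub_sub_cancel] at this
    have h3 := ContinuousMap.norm_coe_le_norm (⟨f, hf⟩ : C(TX κ, ℂ)) x
    simp only [ContinuousMap.coe_mk] at h3
    linarith
  have hε : ∀ x, ‖f x - g x‖ ≤ η / (4 * C + 4) := fun x => (happ x).trans (min_le_right _ _)
  have a1 := pos_approx (sq lev s q) hf hgc hfC hgC hε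
  have a2 := pos_approx (si lev s) hf hgc hfC hgC hε
  have ht := form_trig lev s q hq S c
  have hb : 2 * C * (η / (4 * C + 4)) ≤ η / 2 := by
    rw [mul_div_assoc', div_le_div_iff₀ (by positivity) (by norm_num)]
    nlinarith
  have hre : 0 ≤ (∫ z, g z.1 * conj (g z.2) ∂sq lev s q - ∫ z, g z.1 * conj (g z.2) ∂si lev s).re := by
    have : (∫ z, g z.1 * conj (g z.2) ∂sq lev s q - ∫ z, g z.1 * conj (g z.2) ∂si lev s) =
        ((∑ m ∈ S with tdiv lev s q m, ‖c m‖ ^ 2 : ℝ) : ℂ) := ht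
    rw [this, Complex.ofReal_re]
    positivity
  have b1 := (Complex.abs_re_le_norm _).trans a1
  have b2 := (Complex.abs_re_le_norm _).trans a2
  rw [Complex.sub_re] at b1 b2 hre ⊢
  have c1 := (abs_le.mp b1).1
  have c2 := (abs_le.mp b2).2
  linarith

end Tower

end Pool.Agent.Lib.MP_9fe581_an.HT
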