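import Pool.Agent.Lib.MP_9fe581_an.HT.Char
import Pool.Agent.Lib.MP_9fe581_an.HT.Corr2
import Pool.Agent.Lib.MP_9fe581_an.HT.Pos

/-! B8: the sieve for trigonometric polynomials. -/

open Finset MeasureTheory Filter Topology
open scoped ComplexConjugate Matrix

namespace Pool.Agent.Lib.MP_9fe581_an.HT

namespace SvT

section Abs

/-! ### the counting, abstractly -/

open Classical in
theorem sum_ite_le {τ : Type*} (A : Finset τ) (R : τ → Prop) (x : ℝ) (hx : 0 ≤ x)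
    (h : ∀ a b, R a → R b → a = b) : ∑ a ∈ A, (if R a then x else 0) ≤ x := by
  rw [← Finset.sum_filter, Finset.sum_const, nsmul_eq_mul]
  have h1 : (A.filter R).card ≤ 1 := by
    rw [Finset.card_le_one]
    intro a ha b hb
    exact h a b (Finset.mem_filter.mp ha).2 (Finset.mem_filter.mp hb).2
  calc ((A.filter R).card : ℝ) * x ≤ 1 * x := by
        refine mul_le_mul_of_nonneg_right ?_ hx
        exact_mod_cast h1
    _ = x := one_mul x

open Classical in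
theorem sum_ite_le' {τ : Type*} (A : Finset τ) (R : τ → Prop) (D : Prop) (x : ℝ) (hx : 0 ≤ x)
    (h : ∀ a b, R a → R b → a = b) (hD : ∀ a, R a → D) :
    ∑ a ∈ A, (if R a then x else 0) ≤ if D then x else 0 := by
  by_cases hd : D
  · rw [if_pos hd]
    exact sum_ite_le A R x hx h
  · rw [if_neg hd]
    refine le_of_eq (Finset.sum_eq_zero fun a _ => ?_)
    rw [if_neg]
    exact fun hr => hd (hD a hr)

open Classical in
theorem count {τ : Type*} (P : Finset ℕ) (A : Finset τ) (I : ℕ → ℕ → τ → τ → ℝ) (n : ℕ → τ → ℝ)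
    (R : ℕ → ℕ → τ → τ → Prop) (D : ℕ → τ → Prop) (hn : ∀ p M, 0 ≤ n p M)
    (h0 : ∀ p ∈ P, ∀ q ∈ P, ∀ M ∈ A, ∀ M' ∈ A, ¬ R p q M M' → I p q M M' ≤ 0)
    (h1 : ∀ p ∈ P, ∀ q ∈ P, ∀ M ∈ A, ∀ M' ∈ A, I p q M M' ≤ (n p M + n q M') / 2)
    (hr : ∀ p ∈ P, ∀ q ∈ P, ∀ M M' N', R p q M M' → R p q M N' → M' = N')
    (hl : ∀ p ∈ P, ∀ q ∈ P, ∀ M N M', R p q M M' → R p q N M' → M = N)
    (hD : ∀ p ∈ P, ∀ q ∈ P, p ≠ q → ∀ M M', R p q M M' → D q M ∧ D p M') :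
    ∑ p ∈ P, ∑ q ∈ P, ∑ M ∈ A, ∑ M' ∈ A, I p q M M' ≤
      ∑ p ∈ P, ∑ M ∈ A, n p M + ∑ p ∈ P, ∑ q ∈ P, ∑ M ∈ A, (if D q M then n p M else 0) := by
  have key : ∀ p ∈ P, ∀ q ∈ P, ∑ M ∈ A, ∑ M' ∈ A, I p q M M' ≤
      (if p = q then ∑ M ∈ A, n p M else 0) +
        ((∑ M ∈ A, (if D q M then n p M else 0)) + ∑ M ∈ A, (if D p M then n q M else 0)) / 2 := by
    intro p hp q hq
    have a1 : ∑ M ∈ A, ∑ M' ∈ A, I p q M M' ≤
        ∑ M ∈ A, ∑ M' ∈ A, ((if R p q M M' then n p M else 0) / 2 + (if R p q M M' then n q M' else 0) / 2) := by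
      refine Finset.sum_le_sum fun M hM => Finset.sum_le_sum fun M' hM' => ?_
      by_cases hR : R p q M M'
      · rw [if_pos hR, if_pos hR]
        have := h1 p hp q hq M hM M' hM'
        linarith
      · rw [if_neg hR, if_neg hR]
        have := h0 p hp q hq M hM M' hM' hR
        linarith
    have a2 : ∑ M ∈ A, ∑ M' ∈ A, ((if R p q M M' then n p M else 0) / 2 + (if R p q M M' then n q M' else 0) / 2) =
        (∑ M ∈ A, ∑ M' ∈ A, (if R p q M M' then n p M else 0)) / 2 +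
          (∑ M' ∈ A, ∑ M ∈ A, (if R p q M M' then n q M' else 0)) / 2 := by
      rw [Finset.sum_comm (s := A) (t := A) (f := fun M' M => if R p q M M' then n q M' else 0)]
      simp only [Finset.sum_add_distrib, Finset.sum_div]
    rw [a2] at a1
    refine a1.trans ?_
    by_cases hpq : p = q
    · subst hpq
      rw [if_pos rfl]
      have b1 : ∑ M ∈ A, ∑ M' ∈ A, (if R p p M M' then n p M else 0) ≤ ∑ M ∈ A, n p M :=
        Finset.sum_le_sum fun M _ => sum_ite_le A (R p p M) _ (hn p M) fun a b ha hb => hr p hp p hp M a b ha hb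
      have b2 : ∑ M' ∈ A, ∑ M ∈ A, (if R p p M M' then n p M' else 0) ≤ ∑ M ∈ A, n p M :=
        Finset.sum_le_sum fun M' _ => sum_ite_le A (fun M => R p p M M') _ (hn p M')
          fun a b ha hb => hl p hp p hp a b M' ha hb
      have b3 : 0 ≤ ∑ M ∈ A, (if D p M then n p M else 0) :=
        Finset.sum_nonneg fun M _ => by split_ifs; exacts [hn p M, le_rfl]
      linarith
    · rw [if_neg hpq]
      have b1 : ∑ M ∈ A, ∑ M' ∈ A, (if R p q M M' then n p M else 0) ≤ ∑ M ∈ A, (if D q M then n p M else 0) :=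
        Finset.sum_le_sum fun M _ => sum_ite_le' A (R p q M) _ _ (hn p M)
          (fun a b ha hb => hr p hp q hq M a b ha hb) fun a ha => (hD p hp q hq hpq M a ha).1
      have b2 : ∑ M' ∈ A, ∑ M ∈ A, (if R p q M M' then n q M' else 0) ≤ ∑ M ∈ A, (if D p M then n q M else 0) :=
        Finset.sum_le_sum fun M' _ => sum_ite_le' A (fun M => R p q M M') _ _ (hn q M')
          (fun a b ha hb => hl p hp q hq a b M' ha hb) fun a ha => (hD p hp q hq hpq a M' ha).2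
      linarith
  refine (Finset.sum_le_sum fun p hp => Finset.sum_le_sum fun q hq => key p hp q hq).trans (le_of_eq ?_)
  simp only [Finset.sum_add_distrib, ← Finset.sum_div]
  have c1 : ∑ p ∈ P, ∑ q ∈ P, (if p = q then ∑ M ∈ A, n p M else 0) = ∑ p ∈ P, ∑ M ∈ A, n p M := by
    refine Finset.sum_congr rfl fun p hp => ?_
    rw [Finset.sum_ite_eq, if_pos hp]
  have c2 : ∑ p ∈ P, ∑ q ∈ P, ∑ M ∈ A, (if D p M then n q M else 0) =
      ∑ p ∈ P, ∑ q ∈ P, ∑ M ∈ A, (if D q M then n p M else 0) := Finset.sum_comm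
  rw [c1, c2]
  ring

end Abs

section Top

variable {κ : Type}

/-- the top level -/
noncomputable def lv (lev : κ → ℕ) (m : κ →₀ ℤ) : ℕ := m.support.sup lev

open Classical in
/-- the part of the top level -/
noncomputable def top (lev : κ → ℕ) (m : κ →₀ ℤ) : κ →₀ ℤ := m.filter fun i => lev i = lv lev m

theorem le_lv (lev : κ → ℕ) (m : κ →₀ ℤ) (i : κ) (h : m i ≠ 0) : lev i ≤ lv lev m :=
  Finset.le_sup (f := lev) (Finsupp.mem_support_iff.mpr h)

theorem exists_lv (lev : κ → ℕ) (m : κ →₀ ℤ) (h : m ≠ 0) : ∃ i, m i ≠ 0 ∧ lev i = lv lev m := by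
  obtain ⟨i, hi, h2⟩ := Finset.exists_mem_eq_sup m.support (Finsupp.support_nonempty_iff.mpr h) lev
  exact ⟨i, Finsupp.mem_support_iff.mp hi, h2.symm⟩

theorem top_pos (lev : κ → ℕ) (m : κ →₀ ℤ) (i : κ) (h : lev i = lv lev m) : top lev m i = m i :=
  Finsupp.filter_apply_pos _ _ h

theorem top_neg (lev : κ → ℕ) (m : κ →₀ ℤ) (i : κ) (h : lev i ≠ lv lev m) : top lev m i = 0 :=
  Finsupp.filter_apply_neg _ _ h

theorem lv_top (lev : κ → ℕ) (m : κ →₀ ℤ) (h : m ≠ 0) : lv lev (top lev m) = lv lev m := by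
  refine le_antisymm ?_ ?_
  · refine Finset.sup_le fun i hi => ?_
    have h1 := Finsupp.mem_support_iff.mp hi
    by_contra h2
    exact h1 (top_neg lev m i fun h3 => h2 h3.le)
  · obtain ⟨i, hi, h2⟩ := exists_lv lev m h
    rw [← h2]
    refine le_lv lev _ i ?_
    rwa [top_pos lev m i h2]

theorem lv_zero (lev : κ → ℕ) : lv lev 0 = 0 := by
  unfold lv
  rw [Finsupp.support_zero, Finset.sup_empty]
  rfl

/-- the relation between the tops -/
def Rel (lev : κ → ℕ) (p q : ℕ) (M M' : κ →₀ ℤ) : Prop :=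
  lv lev M = lv lev M' ∧ ∀ l, (p : ℤ) ^ (lv lev M + 1) * M l = (q : ℤ) ^ (lv lev M + 1) * M' l

theorem rel_right (lev : κ → ℕ) {p q : ℕ} (hq : q.Prime) (M M' N' : κ →₀ ℤ)
    (h1 : Rel lev p q M M') (h2 : Rel lev p q M N') : M' = N' := by
  ext l
  have h3 := (h1.2 l).symm.trans (h2.2 l)
  exact mul_left_cancel₀ (pow_ne_zero _ (by exact_mod_cast hq.ne_zero)) h3

theorem rel_left (lev : κ → ℕ) {p q : ℕ} (hp : p.Prime) (M N M' : κ →₀ ℤ)
    (h1 : Rel lev p q M M') (h2 : Rel lev p q N M') : M = N := by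
  ext l
  have e : lv lev M = lv lev N := h1.1.trans h2.1.symm
  have h3 := (h1.2 l)
  rw [e, ← h2.2 l] at h3
  exact mul_left_cancel₀ (pow_ne_zero _ (by exact_mod_cast hp.ne_zero)) h3

theorem rel_div (lev : κ → ℕ) {p q : ℕ} (hp : p.Prime) (hq : q.Prime) (hpq : p ≠ q) (M M' : κ →₀ ℤ)
    (h1 : Rel lev p q M M') : (∀ l, (q : ℤ) ∣ M l) ∧ ∀ l, (p : ℤ) ∣ M' l := by
  have hc : IsCoprime (q : ℤ) (p : ℤ) := by
    rw [Nat.isCoprime_iff_coprime]
    exact (Nat.coprime_primes hq hp).mpr (Ne.symm hpq)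
  refine ⟨fun l => ?_, fun l => ?_⟩
  · have h2 : (q : ℤ) ∣ (p : ℤ) ^ (lv lev M + 1) * M l := by
      rw [h1.2 l]
      exact (dvd_pow_self _ (Nat.succ_ne_zero _)).mul_right _
    exact (hc.pow_right).dvd_of_dvd_mul_left h2
  · have h2 : (p : ℤ) ∣ (q : ℤ) ^ (lv lev M + 1) * M' l := by
      rw [← h1.2 l]
      exact (dvd_pow_self _ (Nat.succ_ne_zero _)).mul_right _
    exact (hc.symm.pow_right).dvd_of_dvd_mul_left h2

end Top

section Int

variable {κ : Type} [Fintype κ] [DecidableEq κ]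

theorem J_zero (W : FT.Tower κ) {p q : ℕ} (hp : p.Prime) (hq : q.Prime) (ρ : Measure (TX κ × TX κ)) [IsFiniteMeasure ρ]
    (hρ : MeasurePreserving (Prod.map (FT.T W)^[p] (FT.T W)^[q]) ρ ρ) (m m' : κ →₀ ℤ)
    (h0 : m ≠ 0 ∨ m' ≠ 0) (hR : m ≠ 0 → m' ≠ 0 → ¬ Rel W.lev p q (top W.lev m) (top W.lev m')) :
    ∫ z, ch m z.1 * conj (ch m' z.2) ∂ρ = 0 := by
  have hp0 : ∀ k : ℕ, (p : ℤ) ^ k ≠ 0 := fun k => pow_ne_zero _ (by exact_mod_cast hp.ne_zero)
  have hq0 : ∀ k : ℕ, (q : ℤ) ^ k ≠ 0 := fun k => pow_ne_zero _ (by exact_mod_cast hq.ne_zero)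
  have case1 : ∀ i, m' i ≠ 0 → m i = 0 → W.lev i = lv W.lev m' → lv W.lev m ≤ lv W.lev m' →
      ∫ z, ch m z.1 * conj (ch m' z.2) ∂ρ = 0 := by
    intro i h1 h2 h3 h4
    refine tower_corr W p q ρ hρ m m' (lv W.lev m') (fun i hi => (le_lv _ _ i hi).trans h4)
      (fun i hi => le_lv _ _ i hi) ⟨i, h3, ?_⟩
    rw [h2, mul_zero]
    exact (mul_ne_zero (hq0 _) h1).symm
  have case2 : ∀ i, m i ≠ 0 → m' i = 0 → W.lev i = lv W.lev m → lv W.lev m' ≤ lv W.lev m →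
      ∫ z, ch m z.1 * conj (ch m' z.2) ∂ρ = 0 := by
    intro i h1 h2 h3 h4
    refine tower_corr W p q ρ hρ m m' (lv W.lev m) (fun i hi => le_lv _ _ i hi)
      (fun i hi => (le_lv _ _ i hi).trans h4) ⟨i, h3, ?_⟩
    rw [h2, mul_zero]
    exact mul_ne_zero (hp0 _) h1
  rcases lt_trichotomy (lv W.lev m) (lv W.lev m') with hlt | heq | hgt
  · have hm' : m' ≠ 0 := by
      rintro rfl
      rw [lv_zero] at hlt
      exact Nat.not_lt_zero _ hlt
    obtain ⟨i, h1, h2⟩ := exists_lv W.lev m' hm'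
    refine case1 i h1 ?_ h2 hlt.le
    by_contra h3
    have := le_lv W.lev m i h3
    omega
  · by_cases hm : m = 0
    · have hm' : m' ≠ 0 := by
        rcases h0 with h | h
        · exact absurd hm h
        · exact h
      obtain ⟨i, h1, h2⟩ := exists_lv W.lev m' hm'
      exact case1 i h1 (by rw [hm]; rfl) h2 heq.le
    · by_cases hm' : m' = 0
      · obtain ⟨i, h1, h2⟩ := exists_lv W.lev m hm
        exact case2 i h1 (by rw [hm']; rfl) h2 heq.ge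
      · have h1 := hR hm hm'
        unfold Rel at h1
        rw [lv_top _ _ hm, lv_top _ _ hm'] at h1
        push Not at h1
        obtain ⟨l, hl⟩ := h1 heq
        have h2 : W.lev l = lv W.lev m := by
          by_contra h3
          rw [top_neg _ _ _ h3, top_neg _ _ _ (heq ▸ h3), mul_zero, mul_zero] at hl
          exact hl rfl
        rw [top_pos _ _ _ h2, top_pos _ _ _ (heq ▸ h2)] at hl
        exact tower_corr W p q ρ hρ m m' (lv W.lev m) (fun i hi => le_lv _ _ i hi)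
          (fun i hi => heq ▸ le_lv _ _ i hi) ⟨l, h2, hl⟩
  · have hm : m ≠ 0 := by
      rintro rfl
      rw [lv_zero] at hgt
      exact Nat.not_lt_zero _ hgt
    obtain ⟨i, h1, h2⟩ := exists_lv W.lev m hm
    refine case2 i h1 ?_ h2 hgt.le
    by_contra h3
    have := le_lv W.lev m' i h3
    omega

instance borel_XX : BorelSpace (TX κ × TX κ) := Prod.borelSpace

theorem int_cont {Y : Type} [TopologicalSpace Y] [CompactSpace Y] [MeasurableSpace Y] [BorelSpace Y]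
    {E : Type} [NormedAddCommGroup E] [SecondCountableTopology E]
    {ρ : Measure Y} [IsFiniteMeasure ρ] {F : Y → E} (h : Continuous F) : Integrable F ρ :=
  h.integrable_of_hasCompactSupport (HasCompactSupport.of_compactSpace _)

theorem trig_cont (A : Finset (κ →₀ ℤ)) (a : (κ →₀ ℤ) → ℂ) : Continuous fun x : TX κ => ∑ m ∈ A, a m * ch m x :=
  continuous_finsetSum _ fun m _ => continuous_const.mul (ch_cont m)

theorem expand (ρ : Measure (TX κ × TX κ)) [IsFiniteMeasure ρ] (A B : Finset (κ →₀ ℤ)) (a b : (κ →₀ ℤ) → ℂ) :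
    ∫ z, (∑ m ∈ A, a m * ch m z.1) * conj (∑ m ∈ B, b m * ch m z.2) ∂ρ =
      ∑ m ∈ A, ∑ m' ∈ B, a m * conj (b m') * ∫ z, ch m z.1 * conj (ch m' z.2) ∂ρ := by
  have hJ : ∀ m m' : κ →₀ ℤ, Continuous fun z : TX κ × TX κ => ch m z.1 * conj (ch m' z.2) := fun m m' =>
    ((ch_cont m).comp continuous_fst).mul (Complex.continuous_conj.comp ((ch_cont m').comp continuous_snd))
  have h1 : ∀ z : TX κ × TX κ, (∑ m ∈ A, a m * ch m z.1) * conj (∑ m ∈ B, b m * ch m z.2) =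
      ∑ m ∈ A, ∑ m' ∈ B, a m * conj (b m') * (ch m z.1 * conj (ch m' z.2)) := by
    intro z
    rw [map_sum, Finset.sum_mul_sum]
    refine Finset.sum_congr rfl fun m _ => Finset.sum_congr rfl fun m' _ => ?_
    rw [map_mul]
    ring
  simp_rw [h1]
  rw [integral_finsetSum _ fun m _ => integrable_finsetSum _ fun m' _ => (int_cont (hJ m m')).const_mul _]
  refine Finset.sum_congr rfl fun m _ => ?_
  rw [integral_finsetSum _ fun m' _ => (int_cont (hJ m m')).const_mul _]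
  refine Finset.sum_congr rfl fun m' _ => ?_
  rw [integral_const_mul]

/-- Parseval -/
theorem parseval (A : Finset (κ →₀ ℤ)) (a : (κ →₀ ℤ) → ℂ) :
    ∫ x, ‖∑ m ∈ A, a m * ch m x‖ ^ 2 ∂mX κ = ∑ m ∈ A, ‖a m‖ ^ 2 := by
  have hJ : ∀ m m' : κ →₀ ℤ, Continuous fun z : TX κ => ch m z * conj (ch m' z) := fun m m' =>
    (ch_cont m).mul (Complex.continuous_conj.comp (ch_cont m'))
  have h0 : ∫ x, (∑ m ∈ A, a m * ch m x) * conj (∑ m ∈ A, a m * ch m x) ∂mX κ =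
      ∑ m ∈ A, ∑ m' ∈ A, a m * conj (a m') * ∫ x, ch m x * conj (ch m' x) ∂mX κ := by
    have h1 : ∀ z : TX κ, (∑ m ∈ A, a m * ch m z) * conj (∑ m ∈ A, a m * ch m z) =
        ∑ m ∈ A, ∑ m' ∈ A, a m * conj (a m') * (ch m z * conj (ch m' z)) := by
      intro z
      rw [map_sum, Finset.sum_mul_sum]
      refine Finset.sum_congr rfl fun m _ => Finset.sum_congr rfl fun m' _ => ?_
      rw [map_mul]
      ring
    simp_rw [h1]
    rw [integral_finsetSum _ fun m _ => integrable_finsetSum _ fun m' _ => (int_cont (hJ m m')).const_mul _]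
    refine Finset.sum_congr rfl fun m _ => ?_
    rw [integral_finsetSum _ fun m' _ => (int_cont (hJ m m')).const_mul _]
    refine Finset.sum_congr rfl fun m' _ => ?_
    rw [integral_const_mul]
  have h2 : ∀ m m' : κ →₀ ℤ, ∫ x, ch m x * conj (ch m' x) ∂mX κ = if m = m' then 1 else 0 := by
    intro m m'
    have : ∀ x, ch m x * conj (ch m' x) = ch (m - m') x := fun x => by
      rw [sub_eq_add_neg, ch_add, ch_neg]
    simp_rw [this]
    rw [ch_int]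
    simp only [sub_eq_zero]
  have h3 : ((∫ x, ‖∑ m ∈ A, a m * ch m x‖ ^ 2 ∂mX κ : ℝ) : ℂ) = ((∑ m ∈ A, ‖a m‖ ^ 2 : ℝ) : ℂ) := by
    rw [← integral_complex_ofReal]
    have h4 : ∀ x : TX κ, (((‖∑ m ∈ A, a m * ch m x‖ ^ 2 : ℝ)) : ℂ) =
        (∑ m ∈ A, a m * ch m x) * conj (∑ m ∈ A, a m * ch m x) := fun x => by
      rw [Complex.mul_conj, Complex.normSq_eq_norm_sq]
    simp_rw [h4]
    rw [h0, Complex.ofReal_sum]
    refine Finset.sum_congr rfl fun m hm => ?_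
    rw [Finset.sum_eq_single m]
    · rw [h2, if_pos rfl, mul_one, Complex.mul_conj, Complex.normSq_eq_norm_sq]
    · intro m' _ hne
      rw [h2, if_neg (Ne.symm hne), mul_zero]
    · exact fun h => absurd hm h
  exact_mod_cast h3

theorem pair_bound (ρ : Measure (TX κ × TX κ)) [IsProbabilityMeasure ρ]
    (hρ : Measure.map Prod.fst ρ = mX κ ∧ Measure.map Prod.snd ρ = mX κ)
    (A B : Finset (κ →₀ ℤ)) (a b : (κ →₀ ℤ) → ℂ) :
    ‖∑ m ∈ A, ∑ m' ∈ B, a m * conj (b m') * ∫ z, ch m z.1 * conj (ch m' z.2) ∂ρ‖ ≤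
      (∑ m ∈ A, ‖a m‖ ^ 2 + ∑ m ∈ B, ‖b m‖ ^ 2) / 2 := by
  rw [← expand]
  have hA := trig_cont A a
  have hB := trig_cont B b
  have h1 : ∫ z : TX κ × TX κ, ‖∑ m ∈ A, a m * ch m z.1‖ ^ 2 ∂ρ = ∑ m ∈ A, ‖a m‖ ^ 2 := by
    rw [← parseval A a, ← hρ.1, integral_map measurable_fst.aemeasurable]
    exact (hA.norm.pow 2).aestronglyMeasurable
  have h2 : ∫ z : TX κ × TX κ, ‖∑ m ∈ B, b m * ch m z.2‖ ^ 2 ∂ρ = ∑ m ∈ B, ‖b m‖ ^ 2 := by
    rw [← parseval B b, ← hρ.2, integral_map measurable_snd.aemeasurable]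
    exact (hB.norm.pow 2).aestronglyMeasurable
  have i1 : Integrable (fun z : TX κ × TX κ => ‖∑ m ∈ A, a m * ch m z.1‖ ^ 2) ρ :=
    int_cont (((hA.comp continuous_fst).norm).pow 2)
  have i2 : Integrable (fun z : TX κ × TX κ => ‖∑ m ∈ B, b m * ch m z.2‖ ^ 2) ρ :=
    int_cont (((hB.comp continuous_snd).norm).pow 2)
  calc ‖∫ z, (∑ m ∈ A, a m * ch m z.1) * conj (∑ m ∈ B, b m * ch m z.2) ∂ρ‖
      ≤ ∫ z, ‖(∑ m ∈ A, a m * ch m z.1) * conj (∑ m ∈ B, b m * ch m z.2)‖ ∂ρ := norm_integral_le_integral_norm _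
    _ ≤ ∫ z, (‖∑ m ∈ A, a m * ch m z.1‖ ^ 2 + ‖∑ m ∈ B, b m * ch m z.2‖ ^ 2) / 2 ∂ρ := by
        refine integral_mono ?_ ((i1.add i2).div_const 2) fun z => ?_
        · exact (int_cont ((hA.comp continuous_fst).mul
            (Complex.continuous_conj.comp (hB.comp continuous_snd)))).norm
        · show ‖(∑ m ∈ A, a m * ch m z.1) * conj (∑ m ∈ B, b m * ch m z.2)‖ ≤
            (‖∑ m ∈ A, a m * ch m z.1‖ ^ 2 + ‖∑ m ∈ B, b m * ch m z.2‖ ^ 2) / 2
          rw [norm_mul, RCLike.norm_conj]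
          nlinarith [sq_nonneg (‖∑ m ∈ A, a m * ch m z.1‖ - ‖∑ m ∈ B, b m * ch m z.2‖)]
    _ = _ := by
        rw [integral_div, integral_add i1 i2, h1, h2]

end Int

end SvT

variable {κ : Type} [Fintype κ] [DecidableEq κ]

open SvT

open Classical in
theorem sieve_trig (W : FT.Tower κ) (P : Finset ℕ) (hP : ∀ p ∈ P, p.Prime) (S : Finset (κ →₀ ℤ)) (h0 : (0 : κ →₀ ℤ) ∈ S)
    (c : ℕ → (κ →₀ ℤ) → ℂ) (ρ : ℕ → ℕ → Measure (TX κ × TX κ))
    (hρ : ∀ p ∈ P, ∀ q ∈ P, IsProbabilityMeasure (ρ p q) ∧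
      MeasurePreserving (Prod.map (FT.T W)^[p] (FT.T W)^[q]) (ρ p q) (ρ p q)) :
    ‖∑ p ∈ P, ∑ q ∈ P, ∫ z, (∑ m ∈ S, c p m * ch m z.1) * conj (∑ m ∈ S, c q m * ch m z.2) ∂ρ p q‖ ≤
      ‖∑ p ∈ P, c p 0‖ ^ 2 + ∑ p ∈ P, ∑ m ∈ S, ‖c p m‖ ^ 2 +
        ∑ p ∈ P, ∑ q ∈ P, ∑ m ∈ S with (∃ s, tdiv W.lev s q m), ‖c p m‖ ^ 2 := by
  set S' : Finset (κ →₀ ℤ) := S.erase 0 with hS'
  set A : Finset (κ →₀ ℤ) := S'.image (top W.lev) with hA
  set I : ℕ → ℕ → (κ →₀ ℤ) → (κ →₀ ℤ) → ℂ := fun p q M M' =>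
    ∑ m ∈ S' with top W.lev m = M, ∑ m' ∈ S' with top W.lev m' = M', c p m * conj (c q m') *
      ∫ z, ch m z.1 * conj (ch m' z.2) ∂ρ p q with hI
  set n : ℕ → (κ →₀ ℤ) → ℝ := fun p M => ∑ m ∈ S' with top W.lev m = M, ‖c p m‖ ^ 2 with hn
  have hmaps : ∀ m ∈ S', top W.lev m ∈ A := fun m hm => Finset.mem_image_of_mem _ hm
  have hne : ∀ m ∈ S', m ≠ 0 := fun m hm => Finset.ne_of_mem_erase hm
  -- the expansion
  have e1 : ∀ p ∈ P, ∀ q ∈ P, ∫ z, (∑ m ∈ S, c p m * ch m z.1) * conj (∑ m ∈ S, c q m * ch m z.2) ∂ρ p q =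
      c p 0 * conj (c q 0) + ∑ M ∈ A, ∑ M' ∈ A, I p q M M' := by
    intro p hp q hq
    have := (hρ p hp q hq).1
    have hz := J_zero W (hP p hp) (hP q hq) (ρ p q) (hρ p hp q hq).2
    rw [expand, ← Finset.insert_erase h0, Finset.sum_insert (Finset.notMem_erase _ _),
      Finset.sum_insert (Finset.notMem_erase _ _)]
    have a1 : ∑ m' ∈ S.erase 0, c p 0 * conj (c q m') * ∫ z, ch 0 z.1 * conj (ch m' z.2) ∂ρ p q = 0 := by
      refine Finset.sum_eq_zero fun m' hm' => ?_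
      rw [hz 0 m' (Or.inr (hne m' hm')) fun h => absurd rfl h, mul_zero]
    have a2 : ∫ z, ch (0 : κ →₀ ℤ) z.1 * conj (ch (0 : κ →₀ ℤ) z.2) ∂ρ p q = 1 := by
      simp only [ch_zero, map_one, mul_one, integral_const, probReal_univ, one_smul]
    have a3 : ∑ m ∈ S.erase 0, ∑ m' ∈ insert 0 (S.erase 0), c p m * conj (c q m') *
        ∫ z, ch m z.1 * conj (ch m' z.2) ∂ρ p q =
        ∑ m ∈ S', ∑ m' ∈ S', c p m * conj (c q m') * ∫ z, ch m z.1 * conj (ch m' z.2) ∂ρ p q := by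
      refine Finset.sum_congr rfl fun m hm => ?_
      rw [Finset.sum_insert (Finset.notMem_erase _ _), hz m 0 (Or.inl (hne m hm)) fun _ h => absurd rfl h,
        mul_zero, zero_add]
    rw [a1, a2, a3, mul_one, add_zero]
    congr 1
    have a4 : ∑ m ∈ S', ∑ m' ∈ S', c p m * conj (c q m') * ∫ z, ch m z.1 * conj (ch m' z.2) ∂ρ p q =
        ∑ M ∈ A, ∑ m ∈ S' with top W.lev m = M, ∑ m' ∈ S', c p m * conj (c q m') *
          ∫ z, ch m z.1 * conj (ch m' z.2) ∂ρ p q := (Finset.sum_fiberwise_of_maps_to hmaps _).symm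
    rw [a4]
    refine Finset.sum_congr rfl fun M _ => ?_
    rw [hI]
    simp only
    conv_rhs => rw [Finset.sum_comm]
    refine Finset.sum_congr rfl fun m _ => ?_
    exact (Finset.sum_fiberwise_of_maps_to hmaps _).symm
  have e2 : ∑ p ∈ P, ∑ q ∈ P, ∫ z, (∑ m ∈ S, c p m * ch m z.1) * conj (∑ m ∈ S, c q m * ch m z.2) ∂ρ p q =
      (∑ p ∈ P, c p 0) * conj (∑ p ∈ P, c p 0) + ∑ p ∈ P, ∑ q ∈ P, ∑ M ∈ A, ∑ M' ∈ A, I p q M M' := by
    rw [map_sum, Finset.sum_mul_sum, ← Finset.sum_add_distrib]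
    refine Finset.sum_congr rfl fun p hp => ?_
    rw [← Finset.sum_add_distrib]
    exact Finset.sum_congr rfl fun q hq => e1 p hp q hq
  have hnn : ∀ p M, 0 ≤ n p M := fun p M => Finset.sum_nonneg fun m _ => sq_nonneg _
  have e3 : ∑ p ∈ P, ∑ q ∈ P, ∑ M ∈ A, ∑ M' ∈ A, ‖I p q M M'‖ ≤
      ∑ p ∈ P, ∑ M ∈ A, n p M + ∑ p ∈ P, ∑ q ∈ P, ∑ M ∈ A, (if ∀ l, (q : ℤ) ∣ M l then n p M else 0) := by
    have hc := count P A (fun p q M M' => ‖I p q M M'‖) n (Rel W.lev) (fun q M => ∀ l, (q : ℤ) ∣ M l) hnn ?_ ?_ ?_ ?_ ?_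
    · refine hc.trans (le_of_eq ?_)
      congr 1
      refine Finset.sum_congr rfl fun p _ => Finset.sum_congr rfl fun q _ => Finset.sum_congr rfl fun M _ => ?_
      split_ifs <;> rfl
    · intro p hp q hq M hM M' hM' hR
      have := (hρ p hp q hq).1
      refine le_of_eq ?_
      rw [norm_eq_zero, hI]
      simp only
      refine Finset.sum_eq_zero fun m hm => Finset.sum_eq_zero fun m' hm' => ?_
      rw [Finset.mem_filter] at hm hm'
      rw [J_zero W (hP p hp) (hP q hq) (ρ p q) (hρ p hp q hq).2 m m' (Or.inl (hne m hm.1)) ?_, mul_zero]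
      intro _ _
      rw [hm.2, hm'.2]
      exact hR
    · intro p hp q hq M hM M' hM'
      have := (hρ p hp q hq).1
      exact pair_bound (ρ p q) (tower_marg W p q (hP p hp).pos (hP q hq).pos (ρ p q) (hρ p hp q hq).2) _ _ (c p) (c q)
    · exact fun p hp q hq M M' N' => rel_right W.lev (hP q hq) M M' N'
    · exact fun p hp q hq M N M' => rel_left W.lev (hP p hp) M N M'
    · exact fun p hp q hq hpq M M' h => rel_div W.lev (hP p hp) (hP q hq) hpq M M' h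
  have e4 : ∀ p ∈ P, ∑ M ∈ A, n p M ≤ ∑ m ∈ S, ‖c p m‖ ^ 2 := by
    intro p _
    rw [hn]
    simp only
    rw [Finset.sum_fiberwise_of_maps_to hmaps]
    exact Finset.sum_le_sum_of_subset_of_nonneg (Finset.erase_subset _ _) fun _ _ _ => sq_nonneg _
  have e5 : ∀ p ∈ P, ∀ q ∈ P, ∑ M ∈ A, (if ∀ l, (q : ℤ) ∣ M l then n p M else 0) ≤
      ∑ m ∈ S with (∃ s, tdiv W.lev s q m), ‖c p m‖ ^ 2 := by
    intro p _ q _
    have b1 : ∀ M ∈ A, (if ∀ l, (q : ℤ) ∣ M l then n p M else 0) =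
        ∑ m ∈ S' with top W.lev m = M, (if ∀ l, (q : ℤ) ∣ top W.lev m l then ‖c p m‖ ^ 2 else 0) := by
      intro M _
      split_ifs with h
      · rw [hn]
        refine Finset.sum_congr rfl fun m hm => ?_
        rw [(Finset.mem_filter.mp hm).2, if_pos h]
      · symm
        refine Finset.sum_eq_zero fun m hm => ?_
        rw [(Finset.mem_filter.mp hm).2, if_neg h]
    rw [Finset.sum_congr rfl b1, Finset.sum_fiberwise_of_maps_to hmaps, ← Finset.sum_filter]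
    refine Finset.sum_le_sum_of_subset_of_nonneg ?_ fun _ _ _ => sq_nonneg _
    intro m hm
    rw [Finset.mem_filter] at hm ⊢
    refine ⟨Finset.mem_of_mem_erase hm.1, lv W.lev m, fun i hi => le_lv _ _ i hi, exists_lv _ _ (hne m hm.1),
      fun i hi => ?_⟩
    have := hm.2 i
    rwa [top_pos _ _ _ hi] at this
  rw [e2]
  calc ‖(∑ p ∈ P, c p 0) * conj (∑ p ∈ P, c p 0) + ∑ p ∈ P, ∑ q ∈ P, ∑ M ∈ A, ∑ M' ∈ A, I p q M M'‖
      ≤ ‖(∑ p ∈ P, c p 0) * conj (∑ p ∈ P, c p 0)‖ + ‖∑ p ∈ P, ∑ q ∈ P, ∑ M ∈ A, ∑ M' ∈ A, I p q M M'‖ :=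
        norm_add_le _ _
    _ ≤ ‖∑ p ∈ P, c p 0‖ ^ 2 + ∑ p ∈ P, ∑ q ∈ P, ∑ M ∈ A, ∑ M' ∈ A, ‖I p q M M'‖ := by
        refine add_le_add (le_of_eq ?_) ?_
        · rw [norm_mul, RCLike.norm_conj, pow_two]
        · refine norm_sum_le_of_le _ fun p _ => norm_sum_le_of_le _ fun q _ => norm_sum_le_of_le _ fun M _ =>
            norm_sum_le _ _
    _ ≤ ‖∑ p ∈ P, c p 0‖ ^ 2 + (∑ p ∈ P, ∑ m ∈ S, ‖c p m‖ ^ 2 +
          ∑ p ∈ P, ∑ q ∈ P, ∑ m ∈ S with (∃ s, tdiv W.lev s q m), ‖c p m‖ ^ 2) := by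
        refine add_le_add le_rfl (e3.trans (add_le_add (Finset.sum_le_sum e4) ?_))
        exact Finset.sum_le_sum fun p hp => Finset.sum_le_sum fun q hq => e5 p hp q hq
    _ = _ := by ring

end Pool.Agent.Lib.MP_9fe581_an.HT
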