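import Pool.Agent.Lib.MP_9fe581_an.HT.Pos
import Pool.Agent.Lib.MP_9fe581_an.HT.SieveTrig

/-!
# HT, module B9: the sieve inequality for continuous functions
-/

set_option linter.unusedSectionVars false
set_option linter.unusedVariables false

open Finset MeasureTheory Filter Topology
open scoped ComplexConjugate Matrix

namespace Pool.Agent.Lib.MP_9fe581_an.HT

variable {κ : Type} [Fintype κ] [DecidableEq κ]

private theorem b9_pt {a a' b b' : ℂ} {B δ : ℝ} (hB : 0 ≤ B) (hδ : 0 ≤ δ) (ha : ‖a‖ ≤ B) (ha' : ‖a'‖ ≤ B)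
    (h : ‖a - b‖ ≤ δ) (h' : ‖a' - b'‖ ≤ δ) : ‖a * conj a' - b * conj b'‖ ≤ δ * (2 * B + δ) := by
  have e : a * conj a' - b * conj b' = (a - b) * conj a' + b * conj (a' - b') := by
    rw [map_sub]; ring
  have hb : ‖b‖ ≤ B + δ := by
    have e2 : b = a - (a - b) := by ring
    rw [e2]
    exact (norm_sub_le _ _).trans (add_le_add ha h)
  rw [e]
  refine (norm_add_le _ _).trans ?_
  rw [norm_mul, norm_mul, RCLike.norm_conj, RCLike.norm_conj]
  have h1 : ‖a - b‖ * ‖a'‖ ≤ δ * B := mul_le_mul h ha' (norm_nonneg _) hδ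
  have h2 : ‖b‖ * ‖a' - b'‖ ≤ (B + δ) * δ := mul_le_mul hb h' (norm_nonneg _) (by linarith)
  calc ‖a - b‖ * ‖a'‖ + ‖b‖ * ‖a' - b'‖ ≤ δ * B + (B + δ) * δ := add_le_add h1 h2
    _ = δ * (2 * B + δ) := by ring

private theorem b9_int {σ : Measure (TX κ × TX κ)} [IsProbabilityMeasure σ] {f g f' g' : TX κ → ℂ} (hf : Continuous f)
    (hg : Continuous g) (hf' : Continuous f') (hg' : Continuous g') {B δ : ℝ} (hB : 0 ≤ B) (hδ : 0 ≤ δ)
    (h1 : ∀ x, ‖f x‖ ≤ B) (h2 : ∀ x, ‖f' x‖ ≤ B) (h3 : ∀ x, ‖f x - g x‖ ≤ δ) (h4 : ∀ x, ‖f' x - g' x‖ ≤ δ) :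
    ‖∫ z, f z.1 * conj (f' z.2) ∂σ - ∫ z, g z.1 * conj (g' z.2) ∂σ‖ ≤ δ * (2 * B + δ) := by
  have c1 : Continuous fun z : TX κ × TX κ => f z.1 * conj (f' z.2) :=
    (hf.comp continuous_fst).mul (Complex.continuous_conj.comp (hf'.comp continuous_snd))
  have c2 : Continuous fun z : TX κ × TX κ => g z.1 * conj (g' z.2) :=
    (hg.comp continuous_fst).mul (Complex.continuous_conj.comp (hg'.comp continuous_snd))
  have i1 : Integrable (fun z : TX κ × TX κ => f z.1 * conj (f' z.2)) σ :=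
    c1.integrable_of_hasCompactSupport (HasCompactSupport.of_compactSpace _)
  have i2 : Integrable (fun z : TX κ × TX κ => g z.1 * conj (g' z.2)) σ :=
    c2.integrable_of_hasCompactSupport (HasCompactSupport.of_compactSpace _)
  rw [← integral_sub i1 i2]
  refine (norm_integral_le_of_norm_le_const (C := δ * (2 * B + δ)) (ae_of_all _ fun z => ?_)).trans ?_
  · exact b9_pt hB hδ (h1 _) (h2 _) (h3 _) (h4 _)
  · simp

/-- trigonometric polynomial -/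
private noncomputable def b9_g (S : Finset (κ →₀ ℤ)) (c : (κ →₀ ℤ) → ℂ) (x : TX κ) : ℂ := ∑ m ∈ S, c m * ch m x

private theorem b9_g_cont (S : Finset (κ →₀ ℤ)) (c : (κ →₀ ℤ) → ℂ) : Continuous (b9_g S c) :=
  continuous_finsetSum _ fun m _ => continuous_const.mul (ch_cont m)

private theorem b9_chint (m : κ →₀ ℤ) : Integrable (ch m) (mX κ) :=
  (ch_cont m).integrable_of_hasCompactSupport (HasCompactSupport.of_compactSpace _)

private theorem b9_mean (S : Finset (κ →₀ ℤ)) (h0 : (0 : κ →₀ ℤ) ∈ S) (c : (κ →₀ ℤ) → ℂ) :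
    ∫ x, b9_g S c x ∂mX κ = c 0 := by
  unfold b9_g
  rw [integral_finsetSum _ fun m _ => (b9_chint m).const_mul _]
  rw [Finset.sum_eq_single 0]
  · rw [integral_const_mul, ch_int, if_pos rfl, mul_one]
  · intro m _ hm
    rw [integral_const_mul, ch_int, if_neg hm, mul_zero]
  · intro h
    exact absurd h0 h

private theorem b9_pars (S : Finset (κ →₀ ℤ)) (c : (κ →₀ ℤ) → ℂ) :
    ∫ x, b9_g S c x * conj (b9_g S c x) ∂mX κ = ((∑ m ∈ S, ‖c m‖ ^ 2 : ℝ) : ℂ) := by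
  have h1 : ∀ x : TX κ, b9_g S c x * conj (b9_g S c x) =
      ∑ m ∈ S, ∑ m' ∈ S, c m * conj (c m') * ch (m - m') x := by
    intro x
    unfold b9_g
    rw [map_sum, Finset.sum_mul_sum]
    refine Finset.sum_congr rfl fun m _ => Finset.sum_congr rfl fun m' _ => ?_
    rw [sub_eq_add_neg, ch_add, ch_neg, map_mul]
    ring
  simp_rw [h1]
  rw [integral_finsetSum _ fun m _ => integrable_finsetSum _ fun m' _ => (b9_chint (m - m')).const_mul _]
  push_cast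
  refine Finset.sum_congr rfl fun m hm => ?_
  rw [integral_finsetSum _ fun m' _ => (b9_chint (m - m')).const_mul _, Finset.sum_eq_single m]
  · rw [integral_const_mul, ch_int, if_pos (sub_self m), mul_one, Complex.mul_conj']
  · intro m' _ hm'
    rw [integral_const_mul, ch_int, if_neg (fun h => hm' (sub_eq_zero.mp h).symm), mul_zero]
  · intro h
    exact absurd hm h

private theorem b9_sq (S : Finset (κ →₀ ℤ)) (c : (κ →₀ ℤ) → ℂ) {C : ℝ} (hC : 0 ≤ C) (h : ∀ x, ‖b9_g S c x‖ ≤ C) :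
    ∑ m ∈ S, ‖c m‖ ^ 2 ≤ C ^ 2 := by
  have h1 := b9_pars S c
  have h2 : ‖∫ x, b9_g S c x * conj (b9_g S c x) ∂mX κ‖ ≤ C ^ 2 := by
    refine (norm_integral_le_of_norm_le_const (C := C ^ 2) (ae_of_all _ fun x => ?_)).trans ?_
    · rw [norm_mul, RCLike.norm_conj, pow_two]
      exact mul_le_mul (h x) (h x) (norm_nonneg _) hC
    · simp
  rw [h1, Complex.norm_real, Real.norm_eq_abs] at h2
  exact (le_abs_self _).trans h2

/-- simultaneous approximation -/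
private theorem b9_approx (P : Finset ℕ) (f : ℕ → TX κ → ℂ) (hc : ∀ p ∈ P, Continuous (f p)) {δ : ℝ} (hδ : 0 < δ) :
    ∃ (S : Finset (κ →₀ ℤ)) (c : ℕ → (κ →₀ ℤ) → ℂ), (0 : κ →₀ ℤ) ∈ S ∧
      ∀ p ∈ P, ∀ x, ‖f p x - b9_g S (c p) x‖ ≤ δ := by
  classical
  have h1 : ∀ p : ℕ, ∃ (S : Finset (κ →₀ ℤ)) (c : (κ →₀ ℤ) → ℂ), (∀ m, m ∉ S → c m = 0) ∧
      (p ∈ P → ∀ x, ‖f p x - ∑ m ∈ S, c m * ch m x‖ ≤ δ) := by
    intro p
    by_cases hp : p ∈ P
    · obtain ⟨S, c, h2, h3⟩ := ch_dense (f p) (hc p hp) δ hδ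
      exact ⟨S, c, h2, fun _ => h3⟩
    · exact ⟨∅, fun _ => 0, fun _ _ => rfl, fun h => absurd h hp⟩
  choose S c h2 h3 using h1
  refine ⟨insert 0 (P.biUnion S), c, Finset.mem_insert_self _ _, fun p hp x => ?_⟩
  have h4 : b9_g (insert 0 (P.biUnion S)) (c p) x = ∑ m ∈ S p, c p m * ch m x := by
    unfold b9_g
    symm
    refine Finset.sum_subset (fun m hm => Finset.mem_insert_of_mem (Finset.mem_biUnion.mpr ⟨p, hp, hm⟩)) ?_
    intro m _ hm
    rw [h2 p m hm, zero_mul]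
  rw [h4]
  exact h3 p hp x

private theorem b9_tdiv (W : FT.Tower κ) (h : ℕ) (hh : ∀ i, W.lev i < h) (q : ℕ) (S : Finset (κ →₀ ℤ))
    (c : (κ →₀ ℤ) → ℂ) : by
    classical exact ∑ m ∈ S with (∃ s, tdiv W.lev s q m), ‖c m‖ ^ 2 ≤
      ∑ s : Fin h, ∑ m ∈ S with tdiv W.lev s q m, ‖c m‖ ^ 2 := by
  classical
  simp only [Finset.sum_filter]
  rw [Finset.sum_comm]
  refine Finset.sum_le_sum fun m _ => ?_
  split_ifs with hm
  · obtain ⟨s, hs⟩ := hm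
    obtain ⟨i, _, hi⟩ := hs.2.1
    have hsh : s < h := hi ▸ hh i
    have h1 : (if tdiv W.lev ((⟨s, hsh⟩ : Fin h) : ℕ) q m then ‖c m‖ ^ 2 else 0) ≤
        ∑ s : Fin h, if tdiv W.lev (s : ℕ) q m then ‖c m‖ ^ 2 else 0 :=
      Finset.single_le_sum (f := fun s : Fin h => if tdiv W.lev (s : ℕ) q m then ‖c m‖ ^ 2 else 0)
        (fun s _ => by split_ifs <;> positivity) (Finset.mem_univ _)
    rw [if_pos hs] at h1
    exact h1
  · exact Finset.sum_nonneg fun s _ => by split_ifs <;> positivity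

private theorem b9_final {a b C : ℝ} (h : ∀ δ : ℝ, 0 < δ → δ ≤ 1 → a ≤ b + δ * C) : a ≤ b := by
  by_contra hcon
  push Not at hcon
  have hC : 0 < C := by
    have := h 1 one_pos le_rfl
    linarith
  have h1 := h (min 1 ((a - b) / (2 * C))) (lt_min one_pos (by
    apply div_pos <;> linarith)) (min_le_left _ _)
  have h2 : min 1 ((a - b) / (2 * C)) * C ≤ (a - b) / (2 * C) * C :=
    mul_le_mul_of_nonneg_right (min_le_right _ _) hC.le
  have h3 : (a - b) / (2 * C) * C = (a - b) / 2 := by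
    field_simp
  linarith

theorem sieve (W : FT.Tower κ) (h : ℕ) (hh : ∀ i, W.lev i < h) (P : Finset ℕ) (hP : ∀ p ∈ P, p.Prime) (f : ℕ → TX κ → ℂ) (B : ℝ)
    (hc : ∀ p ∈ P, Continuous (f p)) (hf : ∀ p ∈ P, ∀ x, ‖f p x‖ ≤ B) (ρ : ℕ → ℕ → Measure (TX κ × TX κ))
    (hρ : ∀ p ∈ P, ∀ q ∈ P, IsProbabilityMeasure (ρ p q) ∧
      MeasurePreserving (Prod.map (FT.T W)^[p] (FT.T W)^[q]) (ρ p q) (ρ p q)) :
    ‖∑ p ∈ P, ∑ q ∈ P, ∫ z, f p z.1 * conj (f q z.2) ∂ρ p q‖ ≤ ‖∑ p ∈ P, ∫ x, f p x ∂mX κ‖ ^ 2 + P.card * B ^ 2 +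
      ∑ p ∈ P, ∑ q ∈ P, ∑ s : Fin h,
        (∫ z, f p z.1 * conj (f p z.2) ∂sq W.lev s q - ∫ z, f p z.1 * conj (f p z.2) ∂si W.lev s).re := by
  classical
  rcases P.eq_empty_or_nonempty with hE | ⟨p0, hp0⟩
  · subst hE
    simp
  have hB : 0 ≤ B := (norm_nonneg _).trans (hf p0 hp0 0)
  set n : ℝ := (P.card : ℝ) with hn
  have hn0 : 0 ≤ n := Nat.cast_nonneg _
  set a : ℝ := ‖∑ p ∈ P, ∫ x, f p x ∂mX κ‖ with ha
  have ha0 : 0 ≤ a := norm_nonneg _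
  apply b9_final (C := n * (n * (2 * B + 1)) + (2 * a * n + n ^ 2) + n * (2 * B + 1) +
    n * (n * (h * (2 * (2 * B + 1)))))
  intro δ hδ hδ1
  obtain ⟨S, c, h0, happ⟩ := b9_approx P f hc hδ
  have hE1 : δ * (2 * B + δ) ≤ δ * (2 * B + 1) := mul_le_mul_of_nonneg_left (by linarith) hδ.le
  have hgc : ∀ p, Continuous (b9_g S (c p)) := fun p => b9_g_cont S (c p)
  -- the left side
  have hL : ‖∑ p ∈ P, ∑ q ∈ P, ∫ z, f p z.1 * conj (f q z.2) ∂ρ p q‖ ≤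
      ‖∑ p ∈ P, ∑ q ∈ P, ∫ z, b9_g S (c p) z.1 * conj (b9_g S (c q) z.2) ∂ρ p q‖ + n * (n * (δ * (2 * B + 1))) := by
    have e : ∑ p ∈ P, ∑ q ∈ P, ∫ z, f p z.1 * conj (f q z.2) ∂ρ p q =
        ∑ p ∈ P, ∑ q ∈ P, ∫ z, b9_g S (c p) z.1 * conj (b9_g S (c q) z.2) ∂ρ p q +
        ∑ p ∈ P, ∑ q ∈ P, (∫ z, f p z.1 * conj (f q z.2) ∂ρ p q -
          ∫ z, b9_g S (c p) z.1 * conj (b9_g S (c q) z.2) ∂ρ p q) := by
      simp only [Finset.sum_sub_distrib]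
      ring
    rw [e]
    refine (norm_add_le _ _).trans (add_le_add le_rfl ?_)
    refine (norm_sum_le _ _).trans ?_
    have e1 : n * (n * (δ * (2 * B + 1))) = ∑ p ∈ P, n * (δ * (2 * B + 1)) := by
      rw [Finset.sum_const, nsmul_eq_mul]
    rw [e1]
    refine Finset.sum_le_sum fun p hp => ?_
    refine (norm_sum_le _ _).trans ?_
    have e2 : n * (δ * (2 * B + 1)) = ∑ q ∈ P, δ * (2 * B + 1) := by
      rw [Finset.sum_const, nsmul_eq_mul]
    rw [e2]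
    refine Finset.sum_le_sum fun q hq => ?_
    have := (hρ p hp q hq).1
    exact (b9_int (hc p hp) (hgc p) (hc q hq) (hgc q) hB hδ.le (hf p hp) (hf q hq) (happ p hp) (happ q hq)).trans hE1
  have hS := sieve_trig W P hP S h0 c ρ hρ
  -- the constant terms
  have h1 : ‖∑ p ∈ P, c p 0‖ ^ 2 ≤ a ^ 2 + δ * (2 * a * n + n ^ 2) := by
    have e1 : ‖∑ p ∈ P, c p 0‖ ≤ a + n * δ := by
      have e2 : ∑ p ∈ P, c p 0 = ∑ p ∈ P, ∫ x, f p x ∂mX κ + ∑ p ∈ P, (c p 0 - ∫ x, f p x ∂mX κ) := by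
        simp only [Finset.sum_sub_distrib]
        ring
      rw [e2]
      refine (norm_add_le _ _).trans (add_le_add le_rfl ?_)
      refine (norm_sum_le _ _).trans ?_
      have e3 : n * δ = ∑ p ∈ P, δ := by rw [Finset.sum_const, nsmul_eq_mul]
      rw [e3]
      refine Finset.sum_le_sum fun p hp => ?_
      rw [← b9_mean S h0 (c p)]
      have i1 : Integrable (f p) (mX κ) :=
        (hc p hp).integrable_of_hasCompactSupport (HasCompactSupport.of_compactSpace _)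
      have i2 : Integrable (b9_g S (c p)) (mX κ) :=
        (hgc p).integrable_of_hasCompactSupport (HasCompactSupport.of_compactSpace _)
      rw [← integral_sub i2 i1]
      refine (norm_integral_le_of_norm_le_const (C := δ) (ae_of_all _ fun x => ?_)).trans ?_
      · rw [norm_sub_rev]
        exact happ p hp x
      · simp
    have e4 : ‖∑ p ∈ P, c p 0‖ ^ 2 ≤ (a + n * δ) ^ 2 := pow_le_pow_left₀ (norm_nonneg _) e1 2
    have e5 : δ * (δ * n ^ 2) ≤ δ * (1 * n ^ 2) :=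
      mul_le_mul_of_nonneg_left (mul_le_mul_of_nonneg_right hδ1 (sq_nonneg n)) hδ.le
    calc ‖∑ p ∈ P, c p 0‖ ^ 2 ≤ (a + n * δ) ^ 2 := e4
      _ = a ^ 2 + δ * (2 * a * n) + δ * (δ * n ^ 2) := by ring
      _ ≤ a ^ 2 + δ * (2 * a * n) + δ * (1 * n ^ 2) := by linarith
      _ = a ^ 2 + δ * (2 * a * n + n ^ 2) := by ring
  -- the diagonal
  have h2 : ∑ p ∈ P, ∑ m ∈ S, ‖c p m‖ ^ 2 ≤ n * B ^ 2 + δ * (n * (2 * B + 1)) := by
    have e1 : ∀ p ∈ P, ∑ m ∈ S, ‖c p m‖ ^ 2 ≤ B ^ 2 + δ * (2 * B + 1) := by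
      intro p hp
      have e2 : ∀ x, ‖b9_g S (c p) x‖ ≤ B + δ := by
        intro x
        have e3 : b9_g S (c p) x = f p x - (f p x - b9_g S (c p) x) := by ring
        rw [e3]
        exact (norm_sub_le _ _).trans (add_le_add (hf p hp x) (happ p hp x))
      have e4 := b9_sq S (c p) (by linarith : 0 ≤ B + δ) e2
      calc ∑ m ∈ S, ‖c p m‖ ^ 2 ≤ (B + δ) ^ 2 := e4
        _ = B ^ 2 + δ * (2 * B + δ) := by ring
        _ ≤ B ^ 2 + δ * (2 * B + 1) := by linarith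
    calc ∑ p ∈ P, ∑ m ∈ S, ‖c p m‖ ^ 2 ≤ ∑ p ∈ P, (B ^ 2 + δ * (2 * B + 1)) := Finset.sum_le_sum e1
      _ = n * B ^ 2 + δ * (n * (2 * B + 1)) := by
        rw [Finset.sum_const, nsmul_eq_mul]
        ring
  -- the energies
  have h3 : ∑ p ∈ P, ∑ q ∈ P, ∑ m ∈ S with (∃ s, tdiv W.lev s q m), ‖c p m‖ ^ 2 ≤
      (∑ p ∈ P, ∑ q ∈ P, ∑ s : Fin h,
        (∫ z, f p z.1 * conj (f p z.2) ∂sq W.lev s q - ∫ z, f p z.1 * conj (f p z.2) ∂si W.lev s).re) +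
      n * (n * (h * (2 * (δ * (2 * B + 1))))) := by
    have e1 : n * (n * (h * (2 * (δ * (2 * B + 1))))) =
        ∑ p ∈ P, ∑ q ∈ P, ∑ s : Fin h, 2 * (δ * (2 * B + 1)) := by
      simp only [Finset.sum_const, Finset.card_univ, Fintype.card_fin, nsmul_eq_mul]
      rfl
    rw [e1, ← Finset.sum_add_distrib]
    refine Finset.sum_le_sum fun p hp => ?_
    rw [← Finset.sum_add_distrib]
    refine Finset.sum_le_sum fun q hq => ?_
    rw [← Finset.sum_add_distrib]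
    refine (b9_tdiv W h hh q S (c p)).trans (Finset.sum_le_sum fun s _ => ?_)
    have hq0 : 0 < q := (hP q hq).pos
    have := sq_prob W.lev (s : ℕ) q hq0
    have := si_prob W.lev (s : ℕ)
    have e2 := form_trig W.lev (s : ℕ) q hq0 S (c p)
    have e3 := b9_int (σ := sq W.lev s q) (hc p hp) (hgc p) (hc p hp) (hgc p) hB hδ.le (hf p hp) (hf p hp)
      (happ p hp) (happ p hp)
    have e4 := b9_int (σ := si W.lev s) (hc p hp) (hgc p) (hc p hp) (hgc p) hB hδ.le (hf p hp) (hf p hp)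
      (happ p hp) (happ p hp)
    set F1 := ∫ z, f p z.1 * conj (f p z.2) ∂sq W.lev s q with hF1
    set F2 := ∫ z, f p z.1 * conj (f p z.2) ∂si W.lev s with hF2
    set G1 := ∫ z, b9_g S (c p) z.1 * conj (b9_g S (c p) z.2) ∂sq W.lev s q with hG1
    set G2 := ∫ z, b9_g S (c p) z.1 * conj (b9_g S (c p) z.2) ∂si W.lev s with hG2
    have e5 : ∑ m ∈ S with tdiv W.lev s q m, ‖c p m‖ ^ 2 = (G1 - G2).re := by
      have e6 : G1 - G2 = ((∑ m ∈ S with tdiv W.lev s q m, ‖c p m‖ ^ 2 : ℝ) : ℂ) := e2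
      rw [e6, Complex.ofReal_re]
    rw [e5]
    have e7 : (G1 - G2).re - (F1 - F2).re ≤ ‖F1 - G1‖ + ‖F2 - G2‖ := by
      have e8 : (G1 - G2).re - (F1 - F2).re = ((F2 - G2) - (F1 - G1)).re := by
        simp only [Complex.sub_re]
        ring
      rw [e8]
      have e9 := (Complex.re_le_norm ((F2 - G2) - (F1 - G1))).trans (norm_sub_le _ _)
      linarith
    linarith
  calc ‖∑ p ∈ P, ∑ q ∈ P, ∫ z, f p z.1 * conj (f q z.2) ∂ρ p q‖
      ≤ ‖∑ p ∈ P, ∑ q ∈ P, ∫ z, b9_g S (c p) z.1 * conj (b9_g S (c q) z.2) ∂ρ p q‖ + n * (n * (δ * (2 * B + 1))) := hL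
    _ ≤ (‖∑ p ∈ P, c p 0‖ ^ 2 + ∑ p ∈ P, ∑ m ∈ S, ‖c p m‖ ^ 2 +
        ∑ p ∈ P, ∑ q ∈ P, ∑ m ∈ S with (∃ s, tdiv W.lev s q m), ‖c p m‖ ^ 2) + n * (n * (δ * (2 * B + 1))) :=
        add_le_add hS le_rfl
    _ ≤ _ := by linarith

end Pool.Agent.Lib.MP_9fe581_an.HT
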