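import Pool.Agent.Lib.MP_9fe581_an.HT.Tri
import Pool.Agent.Lib.MP_9fe581_an.HT.SqSi
import Pool.Agent.Lib.MP_9fe581_an.HT.Lim
import Pool.Agent.Lib.MP_9fe581_an.HT.Pos
import Pool.Agent.Lib.MP_9fe581_an.HT.Sieve

/-! B10: a tower is a good base. -/

open Finset MeasureTheory Filter Topology
open scoped ComplexConjugate Matrix

namespace Pool.Agent.Lib.MP_9fe581_an.HT

variable {κ : Type} [Fintype κ] [DecidableEq κ]

private theorem tw_cont (W : FT.Tower κ) : Continuous (FT.T W) := by
  refine continuous_pi fun i => ?_
  show Continuous fun x => x i + (FT.pr (W.a i) x + (W.ψ i x : UnitAddCircle))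
  exact (continuous_apply i).add ((FT.continuous_pr _).add ((AddCircle.continuous_mk' 1).comp (W.cont i)))

theorem tower_good (W : FT.Tower κ) : Nonempty (Good (FT.T W) (mX κ)) :=
  ⟨{ h := Finset.univ.sup W.lev + 1
     σ := fun s q => sq W.lev s q
     σi := fun s => si W.lev s
     cont := tw_cont W
     pres := tower_pres W
     prob := inferInstance
     probσ := fun s q hq => sq_prob W.lev s q hq
     probi := fun s => si_prob W.lev s
     invσ := fun s q hq => sq_inv W s q hq
     invi := fun s => si_inv W s
     lim := fun s F hF => sq_lim W.lev s F hF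
     pos := fun s q hq f hf => form_pos W.lev s q hq f hf
     sieve := fun P hP f B hc hf ρ hρ =>
       sieve W _ (fun i => Nat.lt_succ_of_le (Finset.le_sup (f := W.lev) (Finset.mem_univ i))) P hP f B hc hf ρ hρ }⟩

end Pool.Agent.Lib.MP_9fe581_an.HT
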