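import Pool.Agent.Lib.MP_9fe581_an.HT.CBasic

/-!
# HT, module A7: the sum over all pairs of primes
-/

open Finset MeasureTheory Filter Topology
open scoped ComplexConjugate Matrix

namespace Pool.Agent.Lib.MP_9fe581_an.HT

variable {X : Type} {ι : Type} [Fintype ι] [DecidableEq ι] {T : X → X} {A : X → Matrix ι ι ℂ} {Q : Matrix ι ι ℂ}

/-- `tr (A_{pl}(u) A_{pl'}(u)^*)` -/
private noncomputable def s1X (T : X → X) (A : X → Matrix ι ι ℂ) (Q : Matrix ι ι ℂ) (p l l' : ℕ) (u : X) : ℂ :=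
  (cp T A Q (p * l) u * (cp T A Q (p * l') u)ᴴ).trace

omit [DecidableEq ι] in
private theorem s1X_eq (p l l' : ℕ) (u : X) :
    s1X T A Q p l l' u = ∑ a, ∑ b, cp T A Q (p * l) u a b * conj (cp T A Q (p * l') u a b) := by
  simp [s1X, Matrix.trace, Matrix.mul_apply, Matrix.conjTranspose_apply]

omit [DecidableEq ι] in
private theorem s1_phi (p q L : ℕ) (u v : X) :
    ((Phi T A Q p q L u v : ℝ) : ℂ) =
      (1 / (L : ℂ) ^ 2) * ∑ l ∈ range L, ∑ l' ∈ range L, s1X T A Q p l l' u * conj (s1X T A Q q l l' v) := by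
  have h1 : ∀ a b c f : ι, ((‖Wt T A Q p q L u v a b c f‖ ^ 2 : ℝ) : ℂ) =
      (1 / (L : ℂ) ^ 2) * ∑ l ∈ range L, ∑ l' ∈ range L,
        (cp T A Q (p * l) u a b * conj (cp T A Q (p * l') u a b)) *
          (conj (cp T A Q (q * l) v c f) * cp T A Q (q * l') v c f) := by
    intro a b c f
    rw [Complex.ofReal_pow, ← Complex.mul_conj', Wt, map_mul, map_sum]
    have : conj (1 / (L : ℂ)) = 1 / (L : ℂ) := by simp
    rw [this]
    have h2 : (∑ l ∈ range L, cp T A Q (p * l) u a b * conj (cp T A Q (q * l) v c f)) *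
        (∑ l ∈ range L, conj (cp T A Q (p * l) u a b * conj (cp T A Q (q * l) v c f))) =
        ∑ l ∈ range L, ∑ l' ∈ range L,
        (cp T A Q (p * l) u a b * conj (cp T A Q (p * l') u a b)) *
          (conj (cp T A Q (q * l) v c f) * cp T A Q (q * l') v c f) := by
      rw [Finset.sum_mul_sum]
      refine Finset.sum_congr rfl fun l _ => Finset.sum_congr rfl fun l' _ => ?_
      rw [map_mul, Complex.conj_conj]; ring
    rw [← h2]; ring
  unfold Phi
  push_cast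
  have h3 : ∀ a b c f : ι, ((‖Wt T A Q p q L u v a b c f‖ : ℂ) ^ 2) =
      (1 / (L : ℂ) ^ 2) * ∑ l ∈ range L, ∑ l' ∈ range L,
        (cp T A Q (p * l) u a b * conj (cp T A Q (p * l') u a b)) *
          (conj (cp T A Q (q * l) v c f) * cp T A Q (q * l') v c f) := by
    intro a b c f
    rw [← h1 a b c f]; push_cast; rfl
  simp_rw [h3, ← Finset.mul_sum]
  congr 1
  simp_rw [s1X_eq, map_sum, map_mul, Complex.conj_conj]
  -- move the sums over l, l' outside
  have h4 : ∀ g : ι → ι → ι → ι → ℕ → ℕ → ℂ, (∑ a, ∑ b, ∑ c, ∑ f, ∑ l ∈ range L, ∑ l' ∈ range L, g a b c f l l') =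
      ∑ l ∈ range L, ∑ l' ∈ range L, ∑ a, ∑ b, ∑ c, ∑ f, g a b c f l l' := by
    intro g
    have h5 : ∀ h : ι → ι → ι → ι → ℂ, (∑ a, ∑ b, ∑ c, ∑ f, h a b c f) =
        ∑ x : ι × ι × ι × ι, h x.1 x.2.1 x.2.2.1 x.2.2.2 := by
      intro h; simp [Fintype.sum_prod_type]
    simp_rw [h5]
    rw [Finset.sum_comm]
    exact Finset.sum_congr rfl fun l _ => Finset.sum_comm
  rw [h4]
  refine Finset.sum_congr rfl fun l _ => Finset.sum_congr rfl fun l' _ => ?_
  simp_rw [Finset.sum_mul, Finset.mul_sum]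

omit [DecidableEq ι] in
private theorem s1X_symm (p l l' : ℕ) (u : X) : s1X T A Q p l' l u = conj (s1X T A Q p l l' u) := by
  simp only [s1X_eq, map_sum, map_mul, Complex.conj_conj]
  exact Finset.sum_congr rfl fun a _ => Finset.sum_congr rfl fun b _ => mul_comm _ _

private theorem s1_comb (J : ℕ → ℝ) (hJ : ∀ r, 0 ≤ J r) (L l : ℕ) (hl : l < L) :
    ∑ l' ∈ range L, J (if l' ≤ l then l - l' else l' - l) ≤ J 0 + 2 * ∑ r ∈ Ico 1 L, J r := by
  rw [← Finset.sum_range_add_sum_Ico _ (show l + 1 ≤ L by omega)]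
  have h1 : ∑ l' ∈ range (l + 1), J (if l' ≤ l then l - l' else l' - l) = J 0 + ∑ r ∈ Ico 1 (l + 1), J r := by
    have h2 : ∑ l' ∈ range (l + 1), J (if l' ≤ l then l - l' else l' - l) = ∑ l' ∈ range (l + 1), J (l + 1 - 1 - l') := by
      refine Finset.sum_congr rfl fun l' h' => ?_
      rw [Finset.mem_range] at h'
      rw [if_pos (by omega)]; rfl
    rw [h2, Finset.sum_range_reflect J (l + 1), ← Finset.sum_range_add_sum_Ico _ (show 1 ≤ l + 1 by omega),
      Finset.sum_range_one]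
  have h3 : ∑ l' ∈ Ico (l + 1) L, J (if l' ≤ l then l - l' else l' - l) = ∑ r ∈ Ico 1 (L - l), J r := by
    rw [Finset.sum_Ico_eq_sum_range, Finset.sum_Ico_eq_sum_range, show L - (l + 1) = L - l - 1 by omega]
    refine Finset.sum_congr rfl fun i _ => ?_
    rw [if_neg (by omega), show l + 1 + i - l = 1 + i by omega]
  have h4 : ∑ r ∈ Ico 1 (l + 1), J r ≤ ∑ r ∈ Ico 1 L, J r :=
    Finset.sum_le_sum_of_subset_of_nonneg (Finset.Ico_subset_Ico_right (by omega)) fun i _ _ => hJ i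
  have h5 : ∑ r ∈ Ico 1 (L - l), J r ≤ ∑ r ∈ Ico 1 L, J r :=
    Finset.sum_le_sum_of_subset_of_nonneg (Finset.Ico_subset_Ico_right (by omega)) fun i _ _ => hJ i
  rw [h1, h3]; linarith

private theorem s1X_gt [TopologicalSpace X] (hU : UC A Q) (p l l' : ℕ) (h : l' ≤ l) (u : X) :
    s1X T A Q p l l' u = trc T A Q (p * (l - l')) (T^[p * l'] u) := by
  rw [s1X, cp_shift hU _ _ (Nat.mul_le_mul_left p h), Nat.mul_sub, trc]

private theorem s1X_cont [TopologicalSpace X] (hT : Continuous T) (hU : UC A Q) (p l l' : ℕ) :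
    Continuous (s1X T A Q p l l') := by
  unfold s1X
  exact ((cp_cont hT hU _).matrix_mul (cp_cont hT hU _).matrix_conjTranspose).matrix_trace

variable [TopologicalSpace X] [CompactSpace X] [TopologicalSpace.MetrizableSpace X] [MeasurableSpace X] [BorelSpace X]

/-- continuous functions on `X × X` are integrable -/
private theorem s1_int {ρ : Measure (X × X)} [IsFiniteMeasure ρ] {F : X × X → ℂ} (hF : Continuous F) :
    Integrable F ρ := by
  have : SecondCountableTopology X := by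
    let := TopologicalSpace.metrizableSpaceMetric X
    infer_instance
  exact hF.integrable_of_hasCompactSupport (HasCompactSupport.of_compactSpace _)

/-- the integral for `l' ≤ l` only depends on `l - l'` -/
private theorem s1_gt {ρ : Measure (X × X)} [IsFiniteMeasure ρ] (hT : Continuous T) (hU : UC A Q) (p q l l' : ℕ)
    (h : l' ≤ l) (hρ : MeasurePreserving (Prod.map T^[p] T^[q]) ρ ρ) :
    ∫ z, s1X T A Q p l l' z.1 * conj (s1X T A Q q l l' z.2) ∂ρ =
      ∫ z, trc T A Q (p * (l - l')) z.1 * conj (trc T A Q (q * (l - l')) z.2) ∂ρ := by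
  have : SecondCountableTopology X := by
    let := TopologicalSpace.metrizableSpaceMetric X
    infer_instance
  have h1 : MeasurePreserving (Prod.map T^[p] T^[q])^[l'] ρ ρ := hρ.iterate l'
  have h2 : (Prod.map T^[p] T^[q])^[l'] = Prod.map (T^[p * l']) (T^[q * l']) := by
    rw [Prod.map_iterate, ← Function.iterate_mul, ← Function.iterate_mul]
  rw [h2] at h1
  have hc : Continuous fun z : X × X => trc T A Q (p * (l - l')) z.1 * conj (trc T A Q (q * (l - l')) z.2) :=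
    ((trc_cont hT hU _).comp continuous_fst).mul
      (Complex.continuous_conj.comp ((trc_cont hT hU _).comp continuous_snd))
  have h3 : ∫ z, trc T A Q (p * (l - l')) z.1 * conj (trc T A Q (q * (l - l')) z.2) ∂ρ =
      ∫ z, trc T A Q (p * (l - l')) z.1 * conj (trc T A Q (q * (l - l')) z.2)
        ∂(Measure.map (Prod.map (T^[p * l']) (T^[q * l'])) ρ) := by rw [h1.map_eq]
  rw [h3, integral_map h1.measurable.aemeasurable hc.aestronglyMeasurable]
  refine integral_congr_ae (Eventually.of_forall fun z => ?_)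
  simp only [Prod.map_fst, Prod.map_snd]
  rw [s1X_gt hU p l l' h, s1X_gt hU q l l' h]

private theorem s1_lt {ρ : Measure (X × X)} [IsFiniteMeasure ρ] (hT : Continuous T) (hU : UC A Q) (p q l l' : ℕ)
    (h : l' ≤ l) (hρ : MeasurePreserving (Prod.map T^[p] T^[q]) ρ ρ) :
    ∫ z, s1X T A Q p l' l z.1 * conj (s1X T A Q q l' l z.2) ∂ρ =
      conj (∫ z, trc T A Q (p * (l - l')) z.1 * conj (trc T A Q (q * (l - l')) z.2) ∂ρ) := by
  rw [← s1_gt hT hU p q l l' h hρ, ← integral_conj]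
  refine integral_congr_ae (Eventually.of_forall fun z => ?_)
  simp only [map_mul, Complex.conj_conj]
  rw [s1X_symm p l l', s1X_symm q l l', Complex.conj_conj]

theorem sum_pairs (hT : Continuous T) (hU : UC A Q) (P : Finset ℕ) (L : ℕ) (hL : 0 < L) (ρ : ℕ → ℕ → Measure (X × X))
    (hρ : ∀ p ∈ P, ∀ q ∈ P, IsProbabilityMeasure (ρ p q) ∧ MeasurePreserving (Prod.map T^[p] T^[q]) (ρ p q) (ρ p q)) :
    ∑ p ∈ P, ∑ q ∈ P, ∫ z, Phi T A Q p q L z.1 z.2 ∂ρ p q ≤
      (Fintype.card ι : ℝ) ^ 2 * (P.card : ℝ) ^ 2 / L +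
        (2 / L) * ∑ r ∈ Ico 1 L, ‖∑ p ∈ P, ∑ q ∈ P, ∫ z, trc T A Q (p * r) z.1 * conj (trc T A Q (q * r) z.2) ∂ρ p q‖ := by
  classical
  set I : ℕ → ℂ := fun r => ∑ p ∈ P, ∑ q ∈ P, ∫ z, trc T A Q (p * r) z.1 * conj (trc T A Q (q * r) z.2) ∂ρ p q with hI
  set J : ℕ → ℝ := fun r => ‖I r‖ with hJdef
  have hJ : ∀ r, 0 ≤ J r := fun r => norm_nonneg _
  have hJ0 : J 0 ≤ (Fintype.card ι : ℝ) ^ 2 * (P.card : ℝ) ^ 2 := by
    have h1 : ∀ p ∈ P, ∀ q ∈ P, ‖∫ z, trc T A Q (p * 0) z.1 * conj (trc T A Q (q * 0) z.2) ∂ρ p q‖ ≤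
        (Fintype.card ι : ℝ) ^ 2 := by
      intro p hp q hq
      have := (hρ p hp q hq).1
      have h2 := norm_integral_le_of_norm_le_const (μ := ρ p q) (C := (Fintype.card ι : ℝ) ^ 2)
        (f := fun z : X × X => trc T A Q (p * 0) z.1 * conj (trc T A Q (q * 0) z.2))
        (ae_of_all _ fun z => by
          rw [norm_mul, RCLike.norm_conj, pow_two]
          exact mul_le_mul (trc_le hU _ _) (trc_le hU _ _) (norm_nonneg _) (Nat.cast_nonneg _))
      simpa using h2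
    refine (norm_sum_le _ _).trans ?_
    refine (Finset.sum_le_sum fun p hp => (norm_sum_le _ _).trans (Finset.sum_le_sum fun q hq => h1 p hp q hq)).trans ?_
    rw [Finset.sum_const, Finset.sum_const, nsmul_eq_mul, nsmul_eq_mul]
    exact le_of_eq (by ring)
  have hcX : ∀ p q l l' : ℕ, Continuous fun z : X × X => s1X T A Q p l l' z.1 * conj (s1X T A Q q l l' z.2) :=
    fun p q l l' => ((s1X_cont hT hU p l l').comp continuous_fst).mul
      (Complex.continuous_conj.comp ((s1X_cont hT hU q l l').comp continuous_snd))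
  -- the complex form of the sum
  have h1 : ∀ p ∈ P, ∀ q ∈ P, ((∫ z, Phi T A Q p q L z.1 z.2 ∂ρ p q : ℝ) : ℂ) =
      (1 / (L : ℂ) ^ 2) * ∑ l ∈ range L, ∑ l' ∈ range L,
        ∫ z, s1X T A Q p l l' z.1 * conj (s1X T A Q q l l' z.2) ∂ρ p q := by
    intro p hp q hq
    have := (hρ p hp q hq).1
    rw [← integral_complex_ofReal]
    simp_rw [s1_phi]
    rw [integral_const_mul, integral_finsetSum _ fun l _ => integrable_finsetSum _ fun l' _ => s1_int (hcX p q l l')]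
    congr 1
    refine Finset.sum_congr rfl fun l _ => ?_
    rw [integral_finsetSum _ fun l' _ => s1_int (hcX p q l l')]
  have h2 : ∀ l l' : ℕ, ‖∑ p ∈ P, ∑ q ∈ P, ∫ z, s1X T A Q p l l' z.1 * conj (s1X T A Q q l l' z.2) ∂ρ p q‖ =
      J (if l' ≤ l then l - l' else l' - l) := by
    intro l l'
    split_ifs with h
    · rw [hJdef]
      simp only [hI]
      congr 1
      refine Finset.sum_congr rfl fun p hp => Finset.sum_congr rfl fun q hq => ?_
      have := (hρ p hp q hq).1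
      exact s1_gt hT hU p q l l' h (hρ p hp q hq).2
    · rw [hJdef]
      simp only [hI]
      rw [← RCLike.norm_conj (∑ p ∈ P, ∑ q ∈ P, ∫ z, trc T A Q (p * (l' - l)) z.1 *
        conj (trc T A Q (q * (l' - l)) z.2) ∂ρ p q), map_sum]
      congr 1
      refine Finset.sum_congr rfl fun p hp => ?_
      rw [map_sum]
      refine Finset.sum_congr rfl fun q hq => ?_
      have := (hρ p hp q hq).1
      exact s1_lt hT hU p q l' l (by omega) (hρ p hp q hq).2
  have h6 : ∀ g : ℕ → ℕ → ℕ → ℕ → ℂ, (∑ p ∈ P, ∑ q ∈ P, ∑ l ∈ range L, ∑ l' ∈ range L, g p q l l') =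
      ∑ l ∈ range L, ∑ l' ∈ range L, ∑ p ∈ P, ∑ q ∈ P, g p q l l' := by
    intro g
    have h5 : ∀ h : ℕ → ℕ → ℂ, (∑ p ∈ P, ∑ q ∈ P, h p q) = ∑ x ∈ P ×ˢ P, h x.1 x.2 := by
      intro h; rw [Finset.sum_product]
    simp_rw [h5]
    rw [Finset.sum_comm]
    exact Finset.sum_congr rfl fun l _ => Finset.sum_comm
  have h3 : ((∑ p ∈ P, ∑ q ∈ P, ∫ z, Phi T A Q p q L z.1 z.2 ∂ρ p q : ℝ) : ℂ) =
      (1 / (L : ℂ) ^ 2) * ∑ l ∈ range L, ∑ l' ∈ range L, ∑ p ∈ P, ∑ q ∈ P,
        ∫ z, s1X T A Q p l l' z.1 * conj (s1X T A Q q l l' z.2) ∂ρ p q := by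
    rw [← h6, Finset.mul_sum, Complex.ofReal_sum]
    refine Finset.sum_congr rfl fun p hp => ?_
    rw [Finset.mul_sum, Complex.ofReal_sum]
    exact Finset.sum_congr rfl fun q hq => h1 p hp q hq
  have hL' : (0 : ℝ) < L := by exact_mod_cast hL
  have h4 : ∑ l ∈ range L, ∑ l' ∈ range L, J (if l' ≤ l then l - l' else l' - l) ≤
      L * (J 0 + 2 * ∑ r ∈ Ico 1 L, J r) := by
    refine (Finset.sum_le_sum fun l hl => s1_comb J hJ L l (Finset.mem_range.1 hl)).trans ?_
    rw [Finset.sum_const, Finset.card_range, nsmul_eq_mul]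
  have h5 : ∑ p ∈ P, ∑ q ∈ P, ∫ z, Phi T A Q p q L z.1 z.2 ∂ρ p q ≤
      (1 / (L : ℝ) ^ 2) * ∑ l ∈ range L, ∑ l' ∈ range L, J (if l' ≤ l then l - l' else l' - l) := by
    refine (le_abs_self _).trans ?_
    rw [← Real.norm_eq_abs, ← Complex.norm_real, h3, norm_mul]
    have h7 : ‖(1 / (L : ℂ) ^ 2)‖ = 1 / (L : ℝ) ^ 2 := by simp
    rw [h7]
    refine mul_le_mul_of_nonneg_left ?_ (by positivity)
    refine (norm_sum_le _ _).trans (Finset.sum_le_sum fun l _ => (norm_sum_le _ _).trans (Finset.sum_le_sum fun l' _ => ?_))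
    rw [h2 l l']
  calc _ ≤ (1 / (L : ℝ) ^ 2) * ∑ l ∈ range L, ∑ l' ∈ range L, J (if l' ≤ l then l - l' else l' - l) := h5
    _ ≤ (1 / (L : ℝ) ^ 2) * (L * (J 0 + 2 * ∑ r ∈ Ico 1 L, J r)) := by gcongr
    _ = J 0 / L + (2 / L) * ∑ r ∈ Ico 1 L, J r := by field_simp
    _ ≤ _ := by gcongr

end Pool.Agent.Lib.MP_9fe581_an.HT
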