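import Pool.Agent.Lib.MP_9fe581_an.HT.Defs
import Pool.Agent.Lib.MP_9fe581_an.HT.CBasic
import Pool.Agent.Lib.MP_9fe581_an.HT.CPosDef
import Pool.Agent.Lib.MP_9fe581_an.HT.Corr
import Pool.Agent.Lib.MP_9fe581_an.HT.Pairs
import Pool.Agent.Lib.MP_9fe581_an.HT.AllInt
import Pool.Agent.Lib.MP_9fe581_an.HT.DlVn
import Pool.Agent.Lib.MP_9fe581_an.HD.Main

/-!
# HT, module A10: the uniform orthogonality theorem for unitary cocycles over a good base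
-/

set_option autoImplicit false

open Finset MeasureTheory Filter Topology
open scoped ComplexConjugate Matrix

namespace Pool.Agent.Lib.MP_9fe581_an.HT

variable {X : Type} {ι : Type} [Fintype ι] [DecidableEq ι] {T : X → X} {A : X → Matrix ι ι ℂ}
  {Q : Matrix ι ι ℂ}
variable [TopologicalSpace X] [CompactSpace X] [TopologicalSpace.MetrizableSpace X]
  [MeasurableSpace X] [BorelSpace X]

/-- the energy estimate -/
theorem energy {μ : Measure X} (g : Good T μ) (hU : UC A Q) (hR : HD.NoRat (aa μ T A Q)) (r : ℕ)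
    (hr : 1 ≤ r) (η : ℝ) (hη : 0 < η) :
    ∃ j0 : ℕ, ∀ j ≥ j0, ∀ ρ : ℕ → ℕ → Measure (X × X),
      (∀ p ∈ HD.Qb j, ∀ q ∈ HD.Qb j, IsProbabilityMeasure (ρ p q) ∧
        MeasurePreserving (Prod.map T^[p] T^[q]) (ρ p q) (ρ p q)) →
      ‖∑ p ∈ HD.Qb j, ∑ q ∈ HD.Qb j, ∫ z, trc T A Q (p * r) z.1 * conj (trc T A Q (q * r) z.2) ∂ρ p q‖ ≤
        η * ((HD.Qb j).card : ℝ) ^ 2 := by
  have := g.prob
  set B : ℝ := ((Fintype.card ι : ℕ) : ℝ) with hB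
  have hB0 : 0 ≤ B := Nat.cast_nonneg _
  have hV : HD.VN (aa μ T A Q) B := by
    have h1 := HD.vn_of_posDef _ (aa_posDef g.cont g.pres hU) (aa_zero_im hU)
    intro c N r' Bd hBd
    have h2 := h1 c N r' Bd hBd
    have h3 : 0 ≤ Bd := (norm_nonneg _).trans (hBd 0)
    exact h2.trans (mul_le_mul_of_nonneg_right (aa_zero_re_le hU) h3)
  have hs : 0 < Real.sqrt (η / 4) := Real.sqrt_pos.2 (by positivity)
  obtain ⟨j1, h1⟩ := HD.prime_avg (aa μ T A Q) B (aa_le hU) hV hR r hr _ hs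
  obtain ⟨j2, h2⟩ := HD.nonneg_prime_avg (Dl g A Q) (2 * g.h * B ^ 2) (Dl_nonneg g hU) (Dl_vn g hU)
    (Dl_all g hU) r hr (η / 4) (by positivity)
  obtain ⟨j3, h3⟩ := HD.main_card_large (4 * B ^ 2 / η + 1)
  refine ⟨max j1 (max j2 j3), fun j hj ρ hρ => ?_⟩
  have k1 := h1 j ((le_max_left _ _).trans hj)
  have k2 := h2 j ((le_max_left _ _).trans ((le_max_right _ _).trans hj))
  have k3 := h3 j ((le_max_right _ _).trans ((le_max_right _ _).trans hj))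
  set K : ℝ := ((HD.Qb j).card : ℝ) with hK
  have hKpos : 0 < K := by
    have : 0 ≤ 4 * B ^ 2 / η := by positivity
    linarith
  have k4 := g.sieve (HD.Qb j) (fun p hp => (mem_filter.1 hp).2) (fun p => trc T A Q (p * r)) B
    (fun p _ => trc_cont g.cont hU _) (fun p _ x => trc_le hU _ _) ρ hρ
  have k5 : ∑ p ∈ HD.Qb j, ∑ q ∈ HD.Qb j, ∑ s,
      (∫ z, trc T A Q (p * r) z.1 * conj (trc T A Q (p * r) z.2) ∂g.σ s q -
        ∫ z, trc T A Q (p * r) z.1 * conj (trc T A Q (p * r) z.2) ∂g.σi s).re =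
      K * ∑ p ∈ HD.Qb j, Dl g A Q j (p * r) := by
    rw [Finset.mul_sum]
    refine Finset.sum_congr rfl fun p _ => ?_
    unfold Dl
    rw [← mul_assoc, mul_one_div_cancel hKpos.ne', one_mul]
    rfl
  have k6 : ‖∑ p ∈ HD.Qb j, ∫ x, trc T A Q (p * r) x ∂μ‖ ^ 2 ≤ η / 4 * K ^ 2 := by
    have e : ∑ p ∈ HD.Qb j, ∫ x, trc T A Q (p * r) x ∂μ = ∑ p ∈ HD.Qb j, aa μ T A Q (p * r) := rfl
    rw [e]
    calc _ ≤ (Real.sqrt (η / 4) * K) ^ 2 := pow_le_pow_left₀ (norm_nonneg _) k1 2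
      _ = η / 4 * K ^ 2 := by rw [mul_pow, Real.sq_sqrt (by positivity)]
  have k7 : K * B ^ 2 ≤ η / 4 * K ^ 2 := by
    have : 4 * B ^ 2 / η ≤ K := by linarith
    rw [div_le_iff₀ hη] at this
    nlinarith
  refine k4.trans ?_
  rw [k5]
  calc _ ≤ η / 4 * K ^ 2 + η / 4 * K ^ 2 + K * (η / 4 * K) :=
        add_le_add (add_le_add k6 k7) (mul_le_mul_of_nonneg_left k2 hKpos.le)
    _ ≤ η * K ^ 2 := by nlinarith [sq_nonneg K, mul_pos hη hKpos]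

theorem mst [Nonempty X] {μ : Measure X} (g : Good T μ) (hU : UC A Q) (hR : HD.NoRat (aa μ T A Q))
    {u : ℕ → ℂ} (hu : HD.BMult u) (ε : ℝ) (hε : 0 < ε) :
    ∃ N0 : ℕ, ∀ N ≥ N0, ∀ (x : X) (i j : ι), ‖∑ n ∈ Icc 1 N, u n * cp T A Q n x i j‖ ≤ ε * N := by
  have key : ∀ ε : ℝ, 0 < ε → ∃ N0 : ℕ, ∀ N ≥ N0, ∀ z : X × ι × ι,
      ‖∑ n ∈ Icc 1 N, u n * (fun (z : X × ι × ι) (n : ℕ) => cp T A Q n z.1 z.2.1 z.2.2) z n‖ ≤ ε * N := by
    refine HD.kbsz_avg hu _ (fun z n => cp_entry hU n _ _ _) ?_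
    intro η hη
    set B : ℝ := ((Fintype.card ι : ℕ) : ℝ) with hB
    obtain ⟨L, hL⟩ := exists_nat_ge (8 * B ^ 2 / η ^ 2 + 1)
    have hL0 : (0 : ℝ) < L := by
      have : 0 ≤ 8 * B ^ 2 / η ^ 2 := by positivity
      linarith
    have hLn : 0 < L := by exact_mod_cast hL0
    have hen : ∀ᶠ j in atTop, ∀ r ∈ Ico 1 L, ∀ ρ : ℕ → ℕ → Measure (X × X),
        (∀ p ∈ HD.Qb j, ∀ q ∈ HD.Qb j, IsProbabilityMeasure (ρ p q) ∧
          MeasurePreserving (Prod.map T^[p] T^[q]) (ρ p q) (ρ p q)) →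
        ‖∑ p ∈ HD.Qb j, ∑ q ∈ HD.Qb j,
          ∫ z, trc T A Q (p * r) z.1 * conj (trc T A Q (q * r) z.2) ∂ρ p q‖ ≤
          η ^ 2 / 16 * ((HD.Qb j).card : ℝ) ^ 2 := by
      rw [Filter.eventually_all_finset]
      intro r hr
      obtain ⟨j0, h0⟩ := energy g hU hR r (mem_Ico.1 hr).1 (η ^ 2 / 16) (by positivity)
      exact eventually_atTop.2 ⟨j0, h0⟩
    obtain ⟨J0, hJ0⟩ := eventually_atTop.1 hen
    refine ⟨J0, fun j hj => ?_⟩
    have hc : ∀ p q : ℕ, ∃ ρ : Measure (X × X), IsProbabilityMeasure ρ ∧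
      MeasurePreserving (Prod.map T^[p] T^[q]) ρ ρ ∧ ∃ M0 : ℕ, ∀ M ≥ M0, ∀ (x : X) (i j : ι),
      ‖∑ m ∈ Icc 1 M, cp T A Q (p * m) x i j * conj (cp T A Q (q * m) x i j)‖ ≤
        (Real.sqrt (∫ z, Phi T A Q p q L z.1 z.2 ∂ρ) + η / 2) * M := by
      intro p q
      obtain ⟨ρ, hρ1, hρ2, hρ3⟩ := corr_le (A := A) (Q := Q) g.cont hU p q L hLn
      exact ⟨ρ, hρ1, hρ2, hρ3 (η / 2) (by positivity)⟩
    choose ρ hρ1 hρ2 M0 hM0 using hc
    have hρ : ∀ p ∈ HD.Qb j, ∀ q ∈ HD.Qb j, IsProbabilityMeasure (ρ p q) ∧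
        MeasurePreserving (Prod.map T^[p] T^[q]) (ρ p q) (ρ p q) :=
      fun p _ q _ => ⟨hρ1 p q, hρ2 p q⟩
    refine ⟨(HD.Qb j ×ˢ HD.Qb j).sup fun x => M0 x.1 x.2, fun z => ?_⟩
    refine ⟨fun p q => Real.sqrt (∫ z, Phi T A Q p q L z.1 z.2 ∂ρ p q) + η / 2, ?_, ?_, ?_⟩
    · intro p _ q _
      positivity
    · intro p hp q hq _ M hM
      refine hM0 p q M (le_trans ?_ hM) z.1 z.2.1 z.2.2
      exact Finset.le_sup (f := fun x : ℕ × ℕ => M0 x.1 x.2) (b := (p, q)) (mem_product.2 ⟨hp, hq⟩)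
    · have h1 := sum_pairs (A := A) (Q := Q) g.cont hU (HD.Qb j) L hLn ρ hρ
      have h2 : ∑ r ∈ Ico 1 L, ‖∑ p ∈ HD.Qb j, ∑ q ∈ HD.Qb j,
          ∫ z, trc T A Q (p * r) z.1 * conj (trc T A Q (q * r) z.2) ∂ρ p q‖ ≤
          L * (η ^ 2 / 16 * ((HD.Qb j).card : ℝ) ^ 2) := by
        refine (Finset.sum_le_card_nsmul _ _ _ fun r hr => hJ0 j hj r hr ρ hρ).trans ?_
        rw [nsmul_eq_mul]
        refine mul_le_mul_of_nonneg_right ?_ (by positivity)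
        rw [Nat.card_Ico]
        exact_mod_cast Nat.sub_le _ _
      have h3 : ∑ p ∈ HD.Qb j, ∑ q ∈ HD.Qb j, ∫ z, Phi T A Q p q L z.1 z.2 ∂ρ p q ≤
          (η / 2) ^ 2 * ((HD.Qb j).card : ℝ) ^ 2 := by
        refine h1.trans ?_
        have h4 : B ^ 2 * ((HD.Qb j).card : ℝ) ^ 2 / L ≤ η ^ 2 / 8 * ((HD.Qb j).card : ℝ) ^ 2 := by
          rw [div_le_iff₀ hL0]
          have h5 : 8 * B ^ 2 / η ^ 2 ≤ L := by linarith
          rw [div_le_iff₀ (by positivity)] at h5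
          have h6 : (0 : ℝ) ≤ ((HD.Qb j).card : ℝ) ^ 2 := by positivity
          nlinarith
        have h7 : 2 / (L : ℝ) * ∑ r ∈ Ico 1 L, ‖∑ p ∈ HD.Qb j, ∑ q ∈ HD.Qb j,
            ∫ z, trc T A Q (p * r) z.1 * conj (trc T A Q (q * r) z.2) ∂ρ p q‖ ≤
            η ^ 2 / 8 * ((HD.Qb j).card : ℝ) ^ 2 := by
          refine (mul_le_mul_of_nonneg_left h2 (by positivity)).trans_eq ?_
          field_simp
          ring
        calc _ ≤ η ^ 2 / 8 * ((HD.Qb j).card : ℝ) ^ 2 + η ^ 2 / 8 * ((HD.Qb j).card : ℝ) ^ 2 :=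
              add_le_add h4 h7
          _ = _ := by ring
      have h8 := HD.main_sum_sqrt (HD.Qb j) (fun p q => ∫ z, Phi T A Q p q L z.1 z.2 ∂ρ p q)
        (fun p q => integral_nonneg fun z => phi_nonneg _ _ _ _ _) (η / 2) (by positivity) h3
      simp_rw [Finset.sum_add_distrib]
      have h9 : ∑ p ∈ HD.Qb j, ∑ q ∈ HD.Qb j, η / 2 = η / 2 * ((HD.Qb j).card : ℝ) ^ 2 := by
        simp only [Finset.sum_const, nsmul_eq_mul]
        ring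
      rw [h9]
      calc _ ≤ η / 2 * ((HD.Qb j).card : ℝ) ^ 2 + η / 2 * ((HD.Qb j).card : ℝ) ^ 2 :=
            add_le_add h8 le_rfl
        _ = _ := by ring
  obtain ⟨N0, hN0⟩ := key ε hε
  exact ⟨N0, fun N hN x i j => hN0 N hN (x, i, j)⟩

end Pool.Agent.Lib.MP_9fe581_an.HT
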