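import Pool.Agent.Lib.MP_9fe581_an.HT.Char
import Pool.Agent.Lib.MP_9fe581_an.HT.Corr2
import Pool.Agent.Lib.MP_9fe581_an.HT.Tri
import Pool.Agent.Lib.MP_9fe581_an.HD.Vdc
import Pool.Agent.Lib.MP_9fe581_an.FT.Emp

/-!
# HT, C3: the scalar cocycle of a character over a tower
-/

open Finset MeasureTheory Filter Topology
open scoped ComplexConjugate Matrix

namespace Pool.Agent.Lib.MP_9fe581_an.HT

/-- the scalar cocycle -/
noncomputable def sc {κ : Type} (W : FT.Tower κ) (m : κ →₀ ℤ) (x : TX κ) : Matrix (Fin 1) (Fin 1) ℂ :=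
  (ch m (FT.T W x) * conj (ch m x)) • 1

variable {κ : Type} [Fintype κ] [DecidableEq κ]

private theorem sn_unit (m : κ →₀ ℤ) (x : TX κ) : conj (ch m x) * ch m x = 1 := by
  rw [mul_comm, Complex.mul_conj, Complex.normSq_eq_norm_sq, ch_norm]
  norm_num

private theorem sn_star (m : κ →₀ ℤ) (x y : TX κ) :
    (ch m y * conj (ch m x)) * star (ch m y * conj (ch m x)) = 1 := by
  rw [star_mul', RCLike.star_def, Complex.conj_conj]
  calc ch m y * conj (ch m x) * (conj (ch m y) * ch m x)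
      = (conj (ch m y) * ch m y) * (conj (ch m x) * ch m x) := by ring
    _ = 1 := by rw [sn_unit, sn_unit, one_mul]

theorem sc_uc (W : FT.Tower κ) (m : κ →₀ ℤ) : UC (sc W m) 1 where
  cont := by
    unfold sc
    exact (((ch_cont m).comp (FT.continuous_T W)).mul
      (Complex.continuous_conj.comp (ch_cont m))).smul continuous_const
  QH := Matrix.conjTranspose_one
  QQ := one_mul 1
  QA := fun _ => one_mul _
  AQ := fun _ => mul_one _
  AAH := fun x => by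
    unfold sc
    rw [Matrix.conjTranspose_smul, Matrix.conjTranspose_one, Matrix.smul_mul, Matrix.mul_smul, one_mul, smul_smul,
      sn_star, one_smul]
  AHA := fun x => by
    unfold sc
    rw [Matrix.conjTranspose_smul, Matrix.conjTranspose_one, Matrix.smul_mul, Matrix.mul_smul, one_mul, smul_smul,
      mul_comm, sn_star, one_smul]

theorem sc_cp (W : FT.Tower κ) (m : κ →₀ ℤ) (n : ℕ) (x : TX κ) :
    cp (FT.T W) (sc W m) 1 n x = (ch m ((FT.T W)^[n] x) * conj (ch m x)) • 1 := by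
  induction n with
  | zero =>
    rw [Function.iterate_zero, id, mul_comm, sn_unit, one_smul]
    rfl
  | succ n ih =>
    show sc W m ((FT.T W)^[n] x) * cp (FT.T W) (sc W m) 1 n x = _
    rw [ih, Function.iterate_succ_apply']
    unfold sc
    rw [Matrix.smul_mul, one_mul, smul_smul]
    congr 1
    calc ch m (FT.T W ((FT.T W)^[n] x)) * conj (ch m ((FT.T W)^[n] x)) *
          (ch m ((FT.T W)^[n] x) * conj (ch m x))
        = ch m (FT.T W ((FT.T W)^[n] x)) *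
          (conj (ch m ((FT.T W)^[n] x)) * ch m ((FT.T W)^[n] x)) * conj (ch m x) := by ring
      _ = ch m (FT.T W ((FT.T W)^[n] x)) * conj (ch m x) := by rw [sn_unit, mul_one]

private theorem sn_aa (W : FT.Tower κ) (m : κ →₀ ℤ) (n : ℕ) :
    aa (mX κ) (FT.T W) (sc W m) 1 n = ∫ x, ch m ((FT.T W)^[n] x) * conj (ch m x) ∂mX κ := by
  unfold aa trc
  simp only [sc_cp]
  simp

/-- a character has integral `0` for every finite measure invariant under `T^q` -/
private theorem sn_char (W : FT.Tower κ) (m : κ →₀ ℤ) (hm : m ≠ 0) (q : ℕ) (hq : 0 < q) (ρ : Measure (TX κ))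
    [IsFiniteMeasure ρ] (hρ : MeasurePreserving (FT.T W)^[q] ρ ρ) : ∫ x, ch m x ∂ρ = 0 := by
  by_cases h0 : ρ = 0
  · rw [h0, integral_zero_measure]
  have hne : NeZero ρ := ⟨h0⟩
  have hν := tower_uniq W q hq ((ρ Set.univ)⁻¹ • ρ) (hρ.smul_measure _)
  have h1 : ∫ x, ch m x ∂((ρ Set.univ)⁻¹ • ρ) = 0 := by
    rw [hν, ch_int, if_neg hm]
  rw [integral_smul_measure, smul_eq_zero] at h1
  rcases h1 with h1 | h1
  · exfalso
    rw [ENNReal.toReal_inv, inv_eq_zero, ENNReal.toReal_eq_zero_iff] at h1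
    rcases h1 with h1 | h1
    · exact h0 (Measure.measure_univ_eq_zero.mp h1)
    · exact measure_ne_top ρ _ h1
  · exact h1

/-- the averages of a character along `T^q` tend to `0` in the mean -/
private theorem sn_mean (W : FT.Tower κ) (m : κ →₀ ℤ) (hm : m ≠ 0) (q : ℕ) (hq : 0 < q) :
    Tendsto (fun K : ℕ => ∫ x, (1 / (K : ℝ)) * ‖∑ k ∈ Icc 1 K, ch m (((FT.T W)^[q])^[k] x)‖ ∂mX κ) atTop
      (𝓝 0) := by
  have hTq : Continuous ((FT.T W)^[q]) := (FT.continuous_T W).iterate q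
  have h1 : ∀ x, Tendsto (fun K : ℕ => (1 / (K : ℝ)) * ‖∑ k ∈ Icc 1 K, ch m (((FT.T W)^[q])^[k] x)‖) atTop
      (𝓝 0) := fun x =>
    FT.emp_tendsto ((FT.T W)^[q]) hTq ⟨ch m, ch_cont m⟩ (fun ρ hρ1 hρ2 => sn_char W m hm q hq ρ hρ2) x
  have h2 := tendsto_integral_of_dominated_convergence (μ := mX κ)
    (F := fun (K : ℕ) x => (1 / (K : ℝ)) * ‖∑ k ∈ Icc 1 K, ch m (((FT.T W)^[q])^[k] x)‖)
    (f := fun _ => (0 : ℝ)) (fun _ => (1 : ℝ)) ?_ (integrable_const _) ?_ (Eventually.of_forall h1)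
  · simpa using h2
  · intro K
    have hc : Continuous fun x => (1 / (K : ℝ)) * ‖∑ k ∈ Icc 1 K, ch m (((FT.T W)^[q])^[k] x)‖ :=
      continuous_const.mul (continuous_finsetSum _ fun k _ => (ch_cont m).comp (hTq.iterate k)).norm
    exact hc.measurable.aestronglyMeasurable
  · intro K
    refine Eventually.of_forall fun x => ?_
    have h3 : ‖∑ k ∈ Icc 1 K, ch m (((FT.T W)^[q])^[k] x)‖ ≤ K := by
      refine (norm_sum_le _ _).trans ?_
      simp only [ch_norm]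
      simp
    rw [norm_mul, norm_norm]
    have h4 : ‖(1 / (K : ℝ))‖ = 1 / (K : ℝ) := Real.norm_of_nonneg (by positivity)
    rw [h4]
    rcases Nat.eq_zero_or_pos K with h5 | h5
    · subst h5
      simp
    · have h6 : (0 : ℝ) < K := by exact_mod_cast h5
      calc 1 / (K : ℝ) * ‖∑ k ∈ Icc 1 K, ch m (((FT.T W)^[q])^[k] x)‖ ≤ 1 / (K : ℝ) * K := by gcongr
        _ = 1 := by field_simp

/-- the shift by multiples of `q`, pointwise -/
private theorem sn_point (W : FT.Tower κ) (m : κ →₀ ℤ) (b q : ℕ) (hq : 0 < q) (N K : ℕ) (hK : 0 < K) (x : TX κ) :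
    ‖∑ n ∈ Icc 1 N, ch m ((FT.T W)^[n] x) * conj (ch m x) * GT.e (-(n * ((b : ℝ) / q)))‖ ≤
      2 * (q * K) + ∑ n ∈ Icc 1 N, (1 / (K : ℝ)) * ‖∑ k ∈ Icc 1 K, ch m (((FT.T W)^[q])^[k] ((FT.T W)^[n] x))‖ := by
  set s : ℕ → ℂ := fun n => ch m ((FT.T W)^[n] x) * conj (ch m x) * GT.e (-(n * ((b : ℝ) / q))) with hs
  have hs1 : ∀ n, ‖s n‖ ≤ 1 := by
    intro n
    rw [hs]
    simp only
    rw [norm_mul, norm_mul, Complex.norm_conj, ch_norm, ch_norm, GT.norm_e]
    norm_num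
  have hKC : (K : ℂ) ≠ 0 := Nat.cast_ne_zero.2 hK.ne'
  have hKR : (0 : ℝ) < K := Nat.cast_pos.2 hK
  have hqR : (q : ℝ) ≠ 0 := by exact_mod_cast hq.ne'
  have hshift : ∀ n k : ℕ, s (n + q * k) = conj (ch m x) * GT.e (-(n * ((b : ℝ) / q))) *
      ch m (((FT.T W)^[q])^[k] ((FT.T W)^[n] x)) := by
    intro n k
    rw [hs]
    simp only
    have e1 : (FT.T W)^[n + q * k] x = ((FT.T W)^[q])^[k] ((FT.T W)^[n] x) := by
      rw [← Function.iterate_mul, ← Function.iterate_add_apply, add_comm]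
    have e2 : GT.e (-(((n + q * k : ℕ) : ℝ) * ((b : ℝ) / q))) = GT.e (-(n * ((b : ℝ) / q))) := by
      have e3 : (-(((n + q * k : ℕ) : ℝ) * ((b : ℝ) / q))) =
          -(n * ((b : ℝ) / q)) + ((-((k * b : ℕ) : ℤ) : ℤ) : ℝ) := by
        push_cast
        field_simp
        ring
      rw [e3, GT.e_add, GT.e_int, mul_one]
    rw [e1, e2]
    ring
  have hdiff : ‖∑ n ∈ Icc 1 N, s n - (1 / (K : ℂ)) * ∑ k ∈ Icc 1 K, ∑ n ∈ Icc 1 N, s (n + q * k)‖ ≤ 2 * (q * K) := by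
    have e1 : ∑ n ∈ Icc 1 N, s n - (1 / (K : ℂ)) * ∑ k ∈ Icc 1 K, ∑ n ∈ Icc 1 N, s (n + q * k) =
        (1 / (K : ℂ)) * ∑ k ∈ Icc 1 K, (∑ n ∈ Icc 1 N, s n - ∑ n ∈ Icc 1 N, s (n + q * k)) := by
      rw [Finset.sum_sub_distrib, Finset.sum_const, Nat.card_Icc, Nat.add_sub_cancel, nsmul_eq_mul, mul_sub,
        ← mul_assoc, one_div, inv_mul_cancel₀ hKC, one_mul]
    rw [e1, norm_mul]
    have e2 : ‖(1 / (K : ℂ))‖ = 1 / K := by simp
    have e3 : ‖∑ k ∈ Icc 1 K, (∑ n ∈ Icc 1 N, s n - ∑ n ∈ Icc 1 N, s (n + q * k))‖ ≤ K * (2 * (q * K)) := by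
      refine (norm_sum_le _ _).trans ?_
      have e4 : ∀ k ∈ Icc 1 K, ‖∑ n ∈ Icc 1 N, s n - ∑ n ∈ Icc 1 N, s (n + q * k)‖ ≤ 2 * (q * K) := by
        intro k hk
        refine (HD.vdc_shift s hs1 N (q * k)).trans ?_
        have h5 : (k : ℝ) ≤ K := by exact_mod_cast (Finset.mem_Icc.mp hk).2
        push_cast
        gcongr
      refine (Finset.sum_le_sum e4).trans ?_
      rw [Finset.sum_const, Nat.card_Icc, Nat.add_sub_cancel, nsmul_eq_mul]
    rw [e2]
    calc 1 / (K : ℝ) * ‖∑ k ∈ Icc 1 K, (∑ n ∈ Icc 1 N, s n - ∑ n ∈ Icc 1 N, s (n + q * k))‖ ≤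
        1 / (K : ℝ) * (K * (2 * (q * K))) := by gcongr
      _ = 2 * (q * K) := by field_simp
  have hmain : ‖(1 / (K : ℂ)) * ∑ k ∈ Icc 1 K, ∑ n ∈ Icc 1 N, s (n + q * k)‖ ≤
      ∑ n ∈ Icc 1 N, (1 / (K : ℝ)) * ‖∑ k ∈ Icc 1 K, ch m (((FT.T W)^[q])^[k] ((FT.T W)^[n] x))‖ := by
    rw [Finset.sum_comm, Finset.mul_sum]
    refine (norm_sum_le _ _).trans (Finset.sum_le_sum fun n _ => ?_)
    have e1 : ∑ k ∈ Icc 1 K, s (n + q * k) = conj (ch m x) * GT.e (-(n * ((b : ℝ) / q))) *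
        ∑ k ∈ Icc 1 K, ch m (((FT.T W)^[q])^[k] ((FT.T W)^[n] x)) := by
      rw [Finset.mul_sum]
      exact Finset.sum_congr rfl fun k _ => hshift n k
    rw [e1, norm_mul, norm_mul, norm_mul, Complex.norm_conj, ch_norm, GT.norm_e]
    have e2 : ‖(1 / (K : ℂ))‖ = 1 / K := by simp
    rw [e2, one_mul, one_mul]
  calc ‖∑ n ∈ Icc 1 N, s n‖ = ‖(∑ n ∈ Icc 1 N, s n - (1 / (K : ℂ)) * ∑ k ∈ Icc 1 K, ∑ n ∈ Icc 1 N, s (n + q * k)) +
        (1 / (K : ℂ)) * ∑ k ∈ Icc 1 K, ∑ n ∈ Icc 1 N, s (n + q * k)‖ := by rw [sub_add_cancel]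
    _ ≤ _ := (norm_add_le _ _).trans (add_le_add hdiff hmain)

theorem sc_noRat (W : FT.Tower κ) (m : κ →₀ ℤ) (hm : m ≠ 0) :
    HD.NoRat (aa (mX κ) (FT.T W) (sc W m) 1) := by
  intro b q hq
  have hTc := FT.continuous_T W
  have hTq : Continuous ((FT.T W)^[q]) := hTc.iterate q
  -- the bound
  have hbound : ∀ N K : ℕ, 0 < K → ‖∑ n ∈ Icc 1 N, aa (mX κ) (FT.T W) (sc W m) 1 n *
      GT.e (-(n * ((b : ℝ) / q)))‖ ≤ 2 * (q * K) +
        N * ∫ x, (1 / (K : ℝ)) * ‖∑ k ∈ Icc 1 K, ch m (((FT.T W)^[q])^[k] x)‖ ∂mX κ := by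
    intro N K hK
    have hcs : ∀ n : ℕ, Continuous fun x => ch m ((FT.T W)^[n] x) * conj (ch m x) * GT.e (-(n * ((b : ℝ) / q))) :=
      fun n => (((ch_cont m).comp (hTc.iterate n)).mul (Complex.continuous_conj.comp (ch_cont m))).mul
        continuous_const
    have hci : ∀ n : ℕ, Integrable (fun x => ch m ((FT.T W)^[n] x) * conj (ch m x) *
        GT.e (-(n * ((b : ℝ) / q)))) (mX κ) := fun n =>
      Integrable.of_bound (hcs n).measurable.aestronglyMeasurable 1 (Eventually.of_forall fun x => by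
        rw [norm_mul, norm_mul, Complex.norm_conj, ch_norm, ch_norm, GT.norm_e]
        norm_num)
    have e1 : ∑ n ∈ Icc 1 N, aa (mX κ) (FT.T W) (sc W m) 1 n * GT.e (-(n * ((b : ℝ) / q))) =
        ∫ x, ∑ n ∈ Icc 1 N, ch m ((FT.T W)^[n] x) * conj (ch m x) * GT.e (-(n * ((b : ℝ) / q))) ∂mX κ := by
      rw [integral_finsetSum _ fun n _ => hci n]
      refine Finset.sum_congr rfl fun n _ => ?_
      rw [sn_aa, integral_mul_const]
    set g : TX κ → ℝ := fun x => (1 / (K : ℝ)) * ‖∑ k ∈ Icc 1 K, ch m (((FT.T W)^[q])^[k] x)‖ with hg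
    have hgc : Continuous g :=
      continuous_const.mul (continuous_finsetSum _ fun k _ => (ch_cont m).comp (hTq.iterate k)).norm
    have hgi : ∀ n : ℕ, Integrable (fun x => g ((FT.T W)^[n] x)) (mX κ) := by
      intro n
      have h1 : Continuous fun x => g ((FT.T W)^[n] x) := hgc.comp (hTc.iterate n)
      obtain ⟨C, hC⟩ := isCompact_univ.exists_bound_of_continuousOn h1.continuousOn
      exact Integrable.of_bound h1.measurable.aestronglyMeasurable C
        (Eventually.of_forall fun x => hC x (Set.mem_univ x))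
    have hgn : ∀ n : ℕ, ∫ x, g ((FT.T W)^[n] x) ∂mX κ = ∫ x, g x ∂mX κ := by
      intro n
      have h1 := ((tower_pres W).iterate n).map_eq
      have h2 := integral_map (μ := mX κ) (φ := (FT.T W)^[n]) (f := g)
        (hTc.iterate n).measurable.aemeasurable hgc.measurable.aestronglyMeasurable
      rw [h1] at h2
      exact h2.symm
    rw [e1]
    refine (norm_integral_le_of_norm_le (g := fun x => 2 * (q * K) + ∑ n ∈ Icc 1 N, g ((FT.T W)^[n] x))
      ((integrable_const _).add (integrable_finsetSum _ fun n _ => hgi n))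
      (Eventually.of_forall fun x => sn_point W m b q hq N K hK x)).trans ?_
    rw [integral_add (integrable_const _) (integrable_finsetSum _ fun n _ => hgi n),
      integral_finsetSum _ fun n _ => hgi n, Finset.sum_congr rfl fun n _ => hgn n, Finset.sum_const,
      Nat.card_Icc, Nat.add_sub_cancel, nsmul_eq_mul]
    simp
  rw [Metric.tendsto_atTop]
  intro ε hε
  have hI := sn_mean W m hm q hq
  rw [Metric.tendsto_atTop] at hI
  obtain ⟨K0, hK0⟩ := hI (ε / 2) (by positivity)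
  set K := K0 + 1 with hK
  have hKI := hK0 K (by omega)
  rw [Real.dist_eq, sub_zero] at hKI
  have hKI' := (le_abs_self _).trans hKI.le
  obtain ⟨N0, hN0⟩ := exists_nat_gt (2 * (q * K) * (2 / ε))
  refine ⟨N0 + 1, fun N hN => ?_⟩
  have hNpos : (0 : ℝ) < N := by exact_mod_cast (show 0 < N by omega)
  have hNN : (N0 : ℝ) < N := by exact_mod_cast (show N0 < N by omega)
  rw [dist_zero_right, norm_mul]
  have e2 : ‖(1 / (N : ℂ))‖ = 1 / N := by simp
  rw [e2]
  have h1 := hbound N K (by omega)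
  have h2 : (2 * (q * K) : ℝ) < N * (ε / 2) := by
    have h3 := hN0.trans hNN
    have h4 : (2 * (q * K) : ℝ) * (2 / ε) * (ε / 2) = 2 * (q * K) := by field_simp
    calc (2 * (q * K) : ℝ) = 2 * (q * K) * (2 / ε) * (ε / 2) := h4.symm
      _ < N * (ε / 2) := by
        have : 0 < ε / 2 := by positivity
        exact mul_lt_mul_of_pos_right h3 this
  have h5 : ‖∑ n ∈ Icc 1 N, aa (mX κ) (FT.T W) (sc W m) 1 n * GT.e (-(n * ((b : ℝ) / q)))‖ < N * ε := by
    calc _ ≤ _ := h1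
      _ < N * (ε / 2) + N * (ε / 2) := by
        refine add_lt_add_of_lt_of_le h2 ?_
        exact mul_le_mul_of_nonneg_left hKI' hNpos.le
      _ = N * ε := by ring
  calc 1 / (N : ℝ) * ‖∑ n ∈ Icc 1 N, aa (mX κ) (FT.T W) (sc W m) 1 n * GT.e (-(n * ((b : ℝ) / q)))‖ <
      1 / (N : ℝ) * (N * ε) := by
        refine mul_lt_mul_of_pos_left h5 ?_
        positivity
    _ = ε := by field_simp

end Pool.Agent.Lib.MP_9fe581_an.HT
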