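import Pool.Agent.Lib.MP_9fe581_an.HD.Final
import Pool.Agent.Lib.MP_9fe581_an.HT.Char
import Pool.Agent.Lib.MP_9fe581_an.HT.Iter
import Pool.Agent.Lib.MP_9fe581_an.HT.ErgRep
import Pool.Agent.Lib.MP_9fe581_an.HT.Scalar
import Pool.Agent.Lib.MP_9fe581_an.HT.Dense
import Pool.Agent.Lib.MP_9fe581_an.HT.Main
import Pool.Agent.Lib.MP_9fe581_an.HT.Good

/-!
# HT: the final theorem for group extensions of Furstenberg towers
-/

open Finset MeasureTheory Filter Topology
open scoped ComplexConjugate Matrix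

namespace Pool.Agent.Lib.MP_9fe581_an.HT

/-! ### the generators -/

section gens

variable {κ : Type} [Fintype κ] [DecidableEq κ] (W : FT.Tower κ)
  {ι : Type} [Fintype ι] [DecidableEq ι] {G : Type} [Group G] [TopologicalSpace G] [IsTopologicalGroup G]
  [CompactSpace G] [T2Space G] [SecondCountableTopology G] [MeasurableSpace G] [BorelSpace G]
  {μ : Measure G} [μ.IsHaarMeasure] [IsProbabilityMeasure μ] {φ : TX κ → G}

/-- the part off the fixed vectors -/
theorem fl_off [ConnectedSpace G] {π : G → Matrix ι ι ℂ} (hπ : HD.URep π) (m : κ →₀ ℤ) (hφ : Continuous φ)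
    (hE : Ergodic (skew (FT.T W) φ) ((mX κ).prod μ)) (i j : ι) :
    HD.UnifOrth (skew (FT.T W) φ) (fun z => ch m z.1 * ((1 - HD.fixP μ π) * π z.2) i j) := by
  intro u hu ε hε
  obtain ⟨g⟩ := tower_good W
  have hc : (0 : ℝ) < Fintype.card ι + 1 := by positivity
  obtain ⟨N0, hN0⟩ := mst g (AG_uc (μ := μ) hπ (ch_cont m) (ch_norm m) g.cont hφ)
    (noRat_AG g.cont hπ (ch_cont m) (ch_norm m) hφ hE) hu (ε / (Fintype.card ι + 1)) (by positivity)
  refine ⟨N0, fun N hN z => ?_⟩
  have e : ∑ n ∈ Icc 1 N, u n * (ch m ((skew (FT.T W) φ)^[n] z).1 *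
        ((1 - HD.fixP μ π) * π ((skew (FT.T W) φ)^[n] z).2) i j) =
      ∑ a, ch m z.1 * π z.2 a j *
        ∑ n ∈ Icc 1 N, u n * cp (FT.T W) (AG μ π (FT.T W) (ch m) φ) (1 - HD.fixP μ π) n z.1 i a := by
    simp_rw [mul_sum]
    rw [sum_comm]
    refine sum_congr rfl fun n _ => ?_
    rw [coef_orbit hπ (ch_norm m) n z i j, mul_sum]
    exact sum_congr rfl fun a _ => by ring
  rw [e]
  calc _ ≤ ∑ a, ‖ch m z.1 * π z.2 a j *
        ∑ n ∈ Icc 1 N, u n * cp (FT.T W) (AG μ π (FT.T W) (ch m) φ) (1 - HD.fixP μ π) n z.1 i a‖ :=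
        norm_sum_le _ _
    _ ≤ ∑ _a : ι, ε / (Fintype.card ι + 1) * N := by
        refine sum_le_sum fun a _ => ?_
        rw [norm_mul, norm_mul]
        have h1 := (ch_norm m z.1).le
        have h2 := HD.fin_entry hπ z.2 a j
        have h3 := hN0 N hN z.1 i a
        calc _ ≤ 1 * 1 * (ε / (Fintype.card ι + 1) * N) := by gcongr
          _ = _ := by ring
    _ = Fintype.card ι * (ε / (Fintype.card ι + 1) * N) := by
        rw [sum_const, card_univ, nsmul_eq_mul]
    _ ≤ (Fintype.card ι + 1) * (ε / (Fintype.card ι + 1) * N) := by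
        have : 0 ≤ ε / (Fintype.card ι + 1) * N := by positivity
        nlinarith
    _ = ε * N := by field_simp

theorem fl_norm_mul (m : κ →₀ ℤ) (x : TX κ) (c : ℂ) : ch m x * (c * conj (ch m x)) = c := by
  have h1 : ch m x * conj (ch m x) = 1 := by
    rw [Complex.mul_conj, Complex.normSq_eq_norm_sq, ch_norm m x, one_pow, Complex.ofReal_one]
  calc ch m x * (c * conj (ch m x)) = c * (ch m x * conj (ch m x)) := by ring
    _ = c := by rw [h1, mul_one]

/-- characters of the base -/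
theorem fl_char (m : κ →₀ ℤ) (hm : m ≠ 0) :
    HD.UnifOrth (skew (FT.T W) φ) (fun z => ch m z.1) := by
  intro u hu ε hε
  obtain ⟨g⟩ := tower_good W
  obtain ⟨N0, hN0⟩ := mst g (sc_uc W m) (sc_noRat W m hm) hu ε hε
  refine ⟨N0, fun N hN z => ?_⟩
  have e : ∑ n ∈ Icc 1 N, u n * ch m ((skew (FT.T W) φ)^[n] z).1 = ch m z.1 *
      ∑ n ∈ Icc 1 N, u n * cp (FT.T W) (sc W m) 1 n z.1 0 0 := by
    rw [mul_sum]
    refine sum_congr rfl fun n _ => ?_
    rw [sc_cp, skew_iter]
    simp only [Matrix.smul_apply, Matrix.one_apply_eq, smul_eq_mul, mul_one]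
    have h1 := fl_norm_mul m z.1 (ch m ((FT.T W)^[n] z.1))
    calc u n * ch m ((FT.T W)^[n] z.1) =
          u n * (ch m z.1 * (ch m ((FT.T W)^[n] z.1) * conj (ch m z.1))) := by rw [h1]
      _ = _ := by ring
  rw [e, norm_mul]
  calc _ ≤ 1 * (ε * N) := mul_le_mul (ch_norm m z.1).le (hN0 N hN z.1 0 0) (norm_nonneg _) zero_le_one
    _ = ε * N := one_mul _

/-- a matrix coefficient minus its integral -/
theorem fl_gen [ConnectedSpace G] {π : G → Matrix ι ι ℂ} (hπ : HD.URep π) (m : κ →₀ ℤ) (hφ : Continuous φ)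
    (hE : Ergodic (skew (FT.T W) φ) ((mX κ).prod μ)) (i j : ι) :
    HD.UnifOrth (skew (FT.T W) φ)
      (fun z => ch m z.1 * π z.2 i j - ∫ w, ch m w.1 * π w.2 i j ∂(mX κ).prod μ) := by
  have hI : ∫ w, ch m w.1 * π w.2 i j ∂(mX κ).prod μ = (∫ x, ch m x ∂mX κ) * HD.fixP μ π i j := by
    have := integral_prod_mul (μ := mX κ) (ν := μ) (fun x => ch m x) (fun y => π y i j)
    rw [this]
    rfl
  have hdec : ∀ y : G, π y i j = ((1 - HD.fixP μ π) * π y) i j + HD.fixP μ π i j := by
    intro y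
    rw [Matrix.sub_mul, Matrix.one_mul, HD.fixP_pi hπ y, Matrix.sub_apply]
    ring
  have h1 := fl_off W (μ := μ) hπ m hφ hE i j
  by_cases hm : m = 0
  · subst hm
    have e : (fun z : TX κ × G => ch 0 z.1 * π z.2 i j - ∫ w, ch 0 w.1 * π w.2 i j ∂(mX κ).prod μ) =
        fun z => ch 0 z.1 * ((1 - HD.fixP μ π) * π z.2) i j := by
      funext z
      rw [hI, hdec z.2, ch_int, if_pos rfl, ch_zero]
      ring
    rw [e]
    exact h1
  · have e : (fun z : TX κ × G => ch m z.1 * π z.2 i j - ∫ w, ch m w.1 * π w.2 i j ∂(mX κ).prod μ) =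
        fun z => ch m z.1 * ((1 - HD.fixP μ π) * π z.2) i j + HD.fixP μ π i j * ch m z.1 := by
      funext z
      rw [hI, hdec z.2, ch_int, if_neg hm]
      ring
    rw [e]
    exact HD.uo_add h1 (HD.uo_smul (fl_char W m hm) _)

end gens

variable {G : Type} [Group G] [TopologicalSpace G] [IsTopologicalGroup G]
  [CompactSpace G] [T2Space G] [SecondCountableTopology G] [MeasurableSpace G] [BorelSpace G]
  {μ : Measure G} [μ.IsHaarMeasure] [IsProbabilityMeasure μ]

/-- **Theorem HT, compact connected linear fibres** -/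
theorem unifOrth_final {κ : Type} [Fintype κ] [DecidableEq κ] (W : FT.Tower κ) {n : ℕ} {ρ : G → Matrix (Fin n) (Fin n) ℂ}
    [ConnectedSpace G] (hρ : HD.URep ρ) (hinj : Function.Injective ρ) {φ : TX κ → G} (hφ : Continuous φ)
    (hE : Ergodic (skew (FT.T W) φ) ((mX κ).prod μ)) (f : C(TX κ × G, ℂ)) :
    HD.UnifOrth (skew (FT.T W) φ) (fun z => f z - ∫ w, f w ∂(mX κ).prod μ) := by
  have key : ∀ g : TX κ × G → ℂ, g ∈ Submodule.span ℂ {h : TX κ × G → ℂ | ∃ (m : κ →₀ ℤ) (a b : ℕ)
      (s t : (Fin a → Fin n) × (Fin b → Fin n)), h = fun z => ch m z.1 * HD.tens ρ a b z.2 s t} →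
      Continuous g ∧ HD.UnifOrth (skew (FT.T W) φ) (fun z => g z - ∫ w, g w ∂(mX κ).prod μ) := by
    intro g hg
    induction hg using Submodule.span_induction with
    | mem h hh =>
      obtain ⟨m, a, b, s, t, rfl⟩ := hh
      have hπ := HD.tens_urep hρ a b
      refine ⟨?_, fl_gen W hπ m hφ hE s t⟩
      have hc : Continuous fun y => HD.tens ρ a b y s t := (hπ.cont.matrix_elem s t)
      exact ((ch_cont m).comp continuous_fst).mul (hc.comp continuous_snd)
    | zero =>
      refine ⟨continuous_const, ?_⟩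
      simp only [Pi.zero_apply, integral_zero, sub_zero]
      exact HD.uo_zero
    | add x y _ _ hx hy =>
      refine ⟨hx.1.add hy.1, ?_⟩
      have ix : Integrable x ((mX κ).prod μ) :=
        hx.1.integrable_of_hasCompactSupport (HasCompactSupport.of_compactSpace x)
      have iy : Integrable y ((mX κ).prod μ) :=
        hy.1.integrable_of_hasCompactSupport (HasCompactSupport.of_compactSpace y)
      have e : (fun z : TX κ × G => (x + y) z - ∫ w, (x + y) w ∂(mX κ).prod μ) =
          fun z => (x z - ∫ w, x w ∂(mX κ).prod μ) + (y z - ∫ w, y w ∂(mX κ).prod μ) := by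
        funext z
        have : ∫ w, (x + y) w ∂(mX κ).prod μ = ∫ w, x w ∂(mX κ).prod μ + ∫ w, y w ∂(mX κ).prod μ :=
          integral_add ix iy
        rw [this]
        simp only [Pi.add_apply]
        ring
      rw [e]
      exact HD.uo_add hx.2 hy.2
    | smul c x _ hx =>
      refine ⟨hx.1.const_smul c, ?_⟩
      have e : (fun z : TX κ × G => (c • x) z - ∫ w, (c • x) w ∂(mX κ).prod μ) =
          fun z => c * (x z - ∫ w, x w ∂(mX κ).prod μ) := by
        funext z
        have : ∫ w, (c • x) w ∂(mX κ).prod μ = c * ∫ w, x w ∂(mX κ).prod μ := by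
          have := integral_const_mul (μ := (mX κ).prod μ) c x
          exact this
        rw [this]
        simp only [Pi.smul_apply, smul_eq_mul]
        ring
      rw [e]
      exact HD.uo_smul hx.2 c
  refine HD.uo_approx fun ε hε => ?_
  obtain ⟨g, hg1, hg2⟩ := coef_dense hρ hinj f (ε / 2) (half_pos hε)
  obtain ⟨hc, hu⟩ := key _ hg2
  refine ⟨_, fun z => ?_, hu⟩
  have hfi : Integrable (fun w => f w) ((mX κ).prod μ) :=
    f.continuous.integrable_of_hasCompactSupport (HasCompactSupport.of_compactSpace _)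
  have hgi : Integrable (fun w => g w) ((mX κ).prod μ) :=
    g.continuous.integrable_of_hasCompactSupport (HasCompactSupport.of_compactSpace _)
  have h1 : ‖∫ w, f w ∂(mX κ).prod μ - ∫ w, g w ∂(mX κ).prod μ‖ ≤ ε / 2 := by
    rw [← integral_sub hfi hgi]
    have := norm_integral_le_of_norm_le_const (μ := (mX κ).prod μ) (f := fun w => f w - g w) (C := ε / 2)
      (Eventually.of_forall hg1)
    simpa using this
  have e : (f z - ∫ w, f w ∂(mX κ).prod μ) - (g z - ∫ w, g w ∂(mX κ).prod μ) =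
      (f z - g z) - (∫ w, f w ∂(mX κ).prod μ - ∫ w, g w ∂(mX κ).prod μ) := by ring
  rw [e]
  calc _ ≤ _ := norm_sub_le _ _
    _ ≤ ε / 2 + ε / 2 := add_le_add (hg1 z) h1
    _ = ε := by ring

end Pool.Agent.Lib.MP_9fe581_an.HT
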