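import Pool.Agent.Lib.MP_9fe581_an.HT.Tri

/-!
# HT / SuInv: the laws `su` are invariant under `T × T`

`(T × T) (z, mix u z w) = (T z, mix u (T z) w')`, `w' i = w i + phi i (mix u z w)` for `lev i > s` and `w' i = w i` otherwise: for fixed `z`
a triangular map of `w`.
-/

set_option autoImplicit false

open Finset MeasureTheory Filter Topology
open scoped ComplexConjugate Matrix

namespace Pool.Agent.Lib.MP_9fe581_an.HT

variable {κ : Type} [Fintype κ] [DecidableEq κ]

omit [DecidableEq κ] in
private theorem borTX : BorelSpace (TX κ × TX κ) := Prod.borelSpace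

attribute [local instance] borTX

omit [Fintype κ] [DecidableEq κ] in
theorem mix_cont (lev : κ → ℕ) (s : ℕ) : Continuous fun y : TX κ × TX κ × TX κ => mix lev s y.1 y.2.1 y.2.2 := by
  refine continuous_pi fun i => ?_
  unfold mix
  split_ifs
  · exact (continuous_apply i).comp (continuous_fst.comp continuous_snd)
  · exact ((continuous_apply i).comp (continuous_fst.comp continuous_snd)).add
      ((continuous_apply i).comp continuous_fst)
  · exact (continuous_apply i).comp (continuous_snd.comp continuous_snd)

omit [Fintype κ] [DecidableEq κ] in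
private theorem pairC (lev : κ → ℕ) (s : ℕ) (u : TX κ) :
    Continuous fun y : TX κ × TX κ => (y.1, mix lev s u y.1 y.2) :=
  continuous_fst.prodMk ((mix_cont lev s).comp (continuous_const.prodMk continuous_id))

omit [DecidableEq κ] in
theorem su_prob (lev : κ → ℕ) (s : ℕ) (u : TX κ) : IsProbabilityMeasure (su lev s u) := by
  unfold su
  exact Measure.isProbabilityMeasure_map (pairC lev s u).measurable.aemeasurable

omit [Fintype κ] [DecidableEq κ] in
private theorem phi_dep (W : FT.Tower κ) (i : κ) (x y : TX κ) (h : ∀ l, W.lev l < W.lev i → x l = y l) :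
    FT.phi W i x = FT.phi W i y := by
  unfold FT.phi
  rw [FT.pr_congr (W.a i) x y fun l hl => h l (W.sup i l hl), W.dep i x y h]

omit [Fintype κ] [DecidableEq κ] in
private theorem phi_continuous (W : FT.Tower κ) (i : κ) : Continuous (FT.phi W i) := by
  unfold FT.phi
  exact (FT.continuous_pr _).add ((AddCircle.continuous_mk' 1).comp (W.cont i))

omit [Fintype κ] [DecidableEq κ] in
private theorem T_continuous (W : FT.Tower κ) : Continuous (FT.T W) := by
  unfold FT.T
  exact continuous_pi fun i => (continuous_apply i).add (phi_continuous W i)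

/-- the second coordinate of the map on `(z, w)` -/
private noncomputable def gg (W : FT.Tower κ) (s : ℕ) (u z w : TX κ) : TX κ :=
  fun i => w i + if s < W.lev i then FT.phi W i (mix W.lev s u z w) else 0

omit [Fintype κ] [DecidableEq κ] in
private theorem gg_cont (W : FT.Tower κ) (s : ℕ) (u : TX κ) :
    Continuous (Function.uncurry (gg W s u)) := by
  refine continuous_pi fun i => ?_
  change Continuous fun p : TX κ × TX κ => p.2 i + if s < W.lev i then FT.phi W i (mix W.lev s u p.1 p.2) else 0
  split_ifs
  · exact ((continuous_apply i).comp continuous_snd).add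
      ((phi_continuous W i).comp ((mix_cont W.lev s).comp (continuous_const.prodMk continuous_id)))
  · exact ((continuous_apply i).comp continuous_snd).add continuous_const

private theorem gg_pres (W : FT.Tower κ) (s : ℕ) (u z : TX κ) :
    MeasurePreserving (gg W s u z) (mX κ) (mX κ) := by
  refine tri W.lev (fun i w => if s < W.lev i then FT.phi W i (mix W.lev s u z w) else 0) (fun i => ?_)
    fun i x y h => ?_
  · split_ifs
    · exact (phi_continuous W i).comp ((mix_cont W.lev s).comp
        (continuous_const.prodMk (continuous_const.prodMk continuous_id)))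
    · exact continuous_const
  · split_ifs
    · refine phi_dep W i _ _ fun l hl => ?_
      unfold mix
      split_ifs
      · rfl
      · rfl
      · exact h l hl
    · rfl

omit [Fintype κ] [DecidableEq κ] in
private theorem mix_step (W : FT.Tower κ) (s : ℕ) (u z w : TX κ) :
    FT.T W (mix W.lev s u z w) = mix W.lev s u (FT.T W z) (gg W s u z w) := by
  funext i
  rcases lt_trichotomy (W.lev i) s with h | h | h
  · have h1 : mix W.lev s u z w i = z i := by
      unfold mix
      rw [if_pos h]
    have h2 : mix W.lev s u (FT.T W z) (gg W s u z w) i = FT.T W z i := by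
      unfold mix
      rw [if_pos h]
    rw [h2]
    unfold FT.T
    rw [h1, phi_dep W i (mix W.lev s u z w) z fun l hl => by
      unfold mix
      rw [if_pos (hl.trans h)]]
  · have h1 : mix W.lev s u z w i = z i + u i := by
      unfold mix
      rw [if_neg (by omega), if_pos h]
    have h2 : mix W.lev s u (FT.T W z) (gg W s u z w) i = FT.T W z i + u i := by
      unfold mix
      rw [if_neg (by omega), if_pos h]
    rw [h2]
    unfold FT.T
    rw [h1, phi_dep W i (mix W.lev s u z w) z fun l hl => by
      unfold mix
      rw [if_pos (by omega)]]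
    abel
  · have h1 : mix W.lev s u z w i = w i := by
      unfold mix
      rw [if_neg (by omega), if_neg (by omega)]
    have h2 : mix W.lev s u (FT.T W z) (gg W s u z w) i = gg W s u z w i := by
      unfold mix
      rw [if_neg (by omega), if_neg (by omega)]
    rw [h2]
    unfold FT.T gg
    rw [h1, if_pos h]

theorem su_inv (W : FT.Tower κ) (s : ℕ) (u : TX κ) :
    MeasurePreserving (Prod.map (FT.T W) (FT.T W)) (su W.lev s u) (su W.lev s u) := by
  have hT := T_continuous W
  have hP : Continuous (Prod.map (FT.T W) (FT.T W)) := hT.prodMap hT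
  have hΨ : MeasurePreserving (fun y : TX κ × TX κ => (FT.T W y.1, gg W s u y.1 y.2))
      ((mX κ).prod (mX κ)) ((mX κ).prod (mX κ)) :=
    (tower_pres W).skew_product (gg_cont W s u).measurable
      (Eventually.of_forall fun z => (gg_pres W s u z).map_eq)
  refine ⟨hP.measurable, ?_⟩
  unfold su
  rw [Measure.map_map hP.measurable (pairC W.lev s u).measurable]
  have h1 : Prod.map (FT.T W) (FT.T W) ∘ (fun y : TX κ × TX κ => (y.1, mix W.lev s u y.1 y.2)) =
      (fun y : TX κ × TX κ => (y.1, mix W.lev s u y.1 y.2)) ∘
        (fun y : TX κ × TX κ => (FT.T W y.1, gg W s u y.1 y.2)) := by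
    funext y
    change (FT.T W y.1, FT.T W (mix W.lev s u y.1 y.2)) = (FT.T W y.1, mix W.lev s u (FT.T W y.1) (gg W s u y.1 y.2))
    rw [mix_step]
  rw [h1, ← Measure.map_map (pairC W.lev s u).measurable hΨ.measurable, hΨ.map_eq]

end Pool.Agent.Lib.MP_9fe581_an.HT
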