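import Pool.Agent.Lib.MP_9fe581_an.HD.Torus
import Pool.Agent.Lib.MP_9fe581_an.HT.Final

/-!
# HT: torus fibres, additive notation
-/

open Finset MeasureTheory Filter Topology
open scoped ComplexConjugate Matrix

namespace Pool.Agent.Lib.MP_9fe581_an.HT

theorem unifOrth_torus {κ : Type} [Fintype κ] [DecidableEq κ] (W : FT.Tower κ) {m : ℕ} {φ : TX κ → TX (Fin m)} (hφ : Continuous φ)
    (hE : Ergodic (fun z : TX κ × TX (Fin m) => (FT.T W z.1, z.2 + φ z.1)) ((mX κ).prod (mX (Fin m)))) (f : C(TX κ × TX (Fin m), ℂ)) :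
    HD.UnifOrth (fun z : TX κ × TX (Fin m) => (FT.T W z.1, z.2 + φ z.1))
      (fun z => f z - ∫ w, f w ∂(mX κ).prod (mX (Fin m))) := by
  have h1 : skew (FT.T W) (fun x => (Multiplicative.ofAdd (φ x) : HD.MTd m)) =
      fun z : TX κ × TX (Fin m) => (FT.T W z.1, z.2 + φ z.1) := by
    funext z
    unfold skew
    refine Prod.ext rfl ?_
    exact add_comm (φ z.1) z.2
  have h2 : Ergodic (skew (FT.T W) (fun x => (Multiplicative.ofAdd (φ x) : HD.MTd m)))
      ((mX κ).prod (HD.mM m)) := by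
    rw [h1]
    exact hE
  have h3 := unifOrth_final W (μ := HD.mM m) (HD.rhoT_urep m) (HD.rhoT_inj m)
    (continuous_ofAdd.comp hφ) h2 f
  have h4 : skew (FT.T W) (Multiplicative.ofAdd ∘ φ : TX κ → HD.MTd m) =
      fun z : TX κ × TX (Fin m) => (FT.T W z.1, z.2 + φ z.1) := h1
  rw [h4] at h3
  exact h3

end Pool.Agent.Lib.MP_9fe581_an.HT
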