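import Pool.Agent.Lib.MP_9fe581_an.HT.CBasic
import Pool.Agent.Lib.MP_9fe581_an.HD.Vdc

/-!
# HT, module A2: the inequality of van der Corput for the matrix cocycle
-/

set_option linter.unusedSectionVars false

open Finset MeasureTheory Filter Topology
open scoped ComplexConjugate Matrix

namespace Pool.Agent.Lib.MP_9fe581_an.HT

variable {X : Type} {ι : Type} [Fintype ι] [DecidableEq ι] {T : X → X} {A : X → Matrix ι ι ℂ}
  {Q : Matrix ι ι ℂ}

theorem vdc [TopologicalSpace X] (hU : UC A Q) (p q L M : ℕ) (hL : 0 < L) (x : X) (i j : ι) :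
    ‖∑ m ∈ Icc 1 M, cp T A Q (p * m) x i j * conj (cp T A Q (q * m) x i j)‖ ≤
      (∑ m ∈ Icc 1 M, Real.sqrt (Phi T A Q p q L (T^[p * m] x) (T^[q * m] x))) + 2 * L := by
  set s : ℕ → ℂ := fun m => cp T A Q (p * m) x i j * conj (cp T A Q (q * m) x i j) with hs
  have hs1 : ∀ n, ‖s n‖ ≤ 1 := by
    intro n
    rw [hs]
    simp only
    rw [norm_mul, Complex.norm_conj]
    calc ‖cp T A Q (p * n) x i j‖ * ‖cp T A Q (q * n) x i j‖ ≤ 1 * 1 :=
          mul_le_mul (cp_entry hU _ x i j) (cp_entry hU _ x i j) (norm_nonneg _) zero_le_one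
      _ = 1 := one_mul 1
  have h1 := HD.vdc_avg s hs1 M L hL
  have h2 : ‖∑ m ∈ Icc 1 M, (1 / (L : ℂ)) * ∑ l ∈ range L, s (m + l)‖ ≤
      ∑ m ∈ Icc 1 M, Real.sqrt (Phi T A Q p q L (T^[p * m] x) (T^[q * m] x)) := by
    refine (norm_sum_le _ _).trans (Finset.sum_le_sum fun m _ => ?_)
    have h3 : (1 / (L : ℂ)) * ∑ l ∈ range L, s (m + l) =
        ∑ b, ∑ f, Wt T A Q p q L (T^[p * m] x) (T^[q * m] x) i b i f *
          (cp T A Q (p * m) x b j * conj (cp T A Q (q * m) x f j)) := by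
      have h4 : ∀ l, s (m + l) = ∑ b, ∑ f,
          (cp T A Q (p * l) (T^[p * m] x) i b * conj (cp T A Q (q * l) (T^[q * m] x) i f)) *
            (cp T A Q (p * m) x b j * conj (cp T A Q (q * m) x f j)) := by
        intro l
        rw [hs]
        simp only
        have h5 : p * (m + l) = p * l + p * m := by ring
        have h6 : q * (m + l) = q * l + q * m := by ring
        rw [h5, h6, cp_add hU, cp_add hU, Matrix.mul_apply, Matrix.mul_apply, map_sum,
          Finset.sum_mul_sum]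
        refine Finset.sum_congr rfl fun b _ => Finset.sum_congr rfl fun f _ => ?_
        rw [map_mul]
        ring
      simp_rw [h4]
      rw [Finset.sum_comm, Finset.mul_sum]
      refine Finset.sum_congr rfl fun b _ => ?_
      rw [Finset.sum_comm, Finset.mul_sum]
      refine Finset.sum_congr rfl fun f _ => ?_
      unfold Wt
      rw [← Finset.sum_mul, mul_assoc]
    rw [h3]
    refine HD.vdc_cs (fun b f => Wt T A Q p q L (T^[p * m] x) (T^[q * m] x) i b i f)
      (fun b => cp T A Q (p * m) x b j) (fun b => cp T A Q (q * m) x b j) (cp_col hU _ x j)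
      (cp_col hU _ x j) _ ?_
    unfold Phi
    have h7 : ∀ a : ι, 0 ≤ ∑ b, ∑ c, ∑ f,
        ‖Wt T A Q p q L (T^[p * m] x) (T^[q * m] x) a b c f‖ ^ 2 := fun a =>
      Finset.sum_nonneg fun b _ => Finset.sum_nonneg fun c _ => Finset.sum_nonneg fun f _ => by
        positivity
    refine le_trans ?_ (Finset.single_le_sum (fun a _ => h7 a) (Finset.mem_univ i))
    refine Finset.sum_le_sum fun b _ => ?_
    exact Finset.single_le_sum (f := fun c => ∑ f,
      ‖Wt T A Q p q L (T^[p * m] x) (T^[q * m] x) i b c f‖ ^ 2)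
      (fun c _ => Finset.sum_nonneg fun f _ => by positivity) (Finset.mem_univ i)
  have h8 : ∑ m ∈ Icc 1 M, cp T A Q (p * m) x i j * conj (cp T A Q (q * m) x i j) =
      (∑ m ∈ Icc 1 M, s m - ∑ m ∈ Icc 1 M, (1 / (L : ℂ)) * ∑ l ∈ range L, s (m + l)) +
        ∑ m ∈ Icc 1 M, (1 / (L : ℂ)) * ∑ l ∈ range L, s (m + l) := by
    rw [sub_add_cancel]
  rw [h8]
  refine (norm_add_le _ _).trans ?_
  linarith

end Pool.Agent.Lib.MP_9fe581_an.HT
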